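import Pool.Agent.Q241.OP.Blk

/-! # Pair sums of the ordinates up to height `T`, assembly of the dyadic blocks

The statements of `Pool.Agent.Y744.PCR.NTc`, `NTd`, without the Riemann hypothesis and with an error
term. -/

set_option autoImplicit false

open Filter Topology MeasureTheory

namespace Q241.OP

open H370 TH803TW Pool.Agent.Y744
open Pool.Agent.Y750.OM (rh bl NO PO bl_eq NO_nonneg)

variable {r : ℝ → ℝ} {δ : ℝ}

lemma cross_small (h : OT r δ) {η : ℝ} (hη : 0 < η) :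
    ∃ V1 : ℝ, 20 ≤ V1 ∧ ∀ V : ℝ, V1 ≤ V → ∀ Λ : ℝ, Real.log V ≤ Λ →
      |QS (Zt V) (Zb V (2 * V)) mz (fun s => s.im) (bl r) Λ| ≤ η * (V * Real.log V) := by
  classical
  obtain ⟨C, B0, V0, hC, hB0, hV0, hblk, hloc⟩ := PPB
  obtain ⟨V2, hV2, hnear⟩ := near_bound
  obtain ⟨K, hK, hf⟩ := h.decay
  set lam : ℝ := 4800 * (K + 1) * (C + 1) / η with hlam
  have hlam0 : 0 < lam := by positivity
  have ev1 : ∀ᶠ V : ℝ in atTop, 4800 * (K + 1) * lam / η ≤ Real.log V :=
    Real.tendsto_log_atTop.eventually_ge_atTop _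
  have ev2 : ∀ᶠ V : ℝ in atTop, (9600 * (K + 1) * (2 * C + 1) / η) ^ 2 ≤ Real.log V :=
    Real.tendsto_log_atTop.eventually_ge_atTop _
  have ev3 : ∀ᶠ V : ℝ in atTop, B0 ≤ V := eventually_ge_atTop _
  obtain ⟨V3, hV3⟩ := (ev1.and (ev2.and ev3)).exists_forall_of_atTop
  refine ⟨max (max V0 V2) V3, hV0.trans ((le_max_left _ _).trans (le_max_left _ _)),
    fun V hV Λ hΛ => ?_⟩
  have hVV0 : V0 ≤ V := ((le_max_left _ _).trans (le_max_left _ _)).trans hV
  have hVV2 : V2 ≤ V := ((le_max_right _ _).trans (le_max_left _ _)).trans hV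
  obtain ⟨e1, e2, e3⟩ := hV3 V ((le_max_right _ _).trans hV)
  have hV20 : 20 ≤ V := hV0.trans hVV0
  have hlV1 : 1 ≤ Real.log V := by
    rw [Real.le_log_iff_exp_le (by linarith)]
    linarith [Real.exp_one_lt_d9]
  have hΛ1 : 1 ≤ Λ := hlV1.trans hΛ
  set Y := V * Real.log V with hY
  have hVY : V ≤ Y := by rw [hY]; nlinarith
  have hY0 : 0 < Y := by linarith
  have hPblk : PP1 (Zb V (2 * V)) mz (fun s => s.im) Λ ≤ C * Y :=
    (PP1_anti (x := fun s : ℂ => s.im) (Zb V (2 * V)) mz_nonneg (by linarith) hΛ).trans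
      (hblk V hVV0)
  have hPt := hloc V hVV0 Λ hΛ
  set A := (Zt V).filter (fun s => V - 1 < s.im) with hA
  set B := (Zt V).filter (fun s => ¬ V - 1 < s.im) with hB
  have hAsum : 2 * (∑ s ∈ A, mz s) ^ 2 ≤ V := by
    refine le_trans ?_ (hnear V hVV2)
    have : ∑ s ∈ A, mz s ≤ ∑ s ∈ Zb (V - 1) (V - 1 + 3), mz s := by
      refine Finset.sum_le_sum_of_subset_of_nonneg (fun s hs => ?_) fun s _ _ => mz_nonneg s
      obtain ⟨h1, h2⟩ := Finset.mem_filter.1 hs
      rw [mem_Zt] at h1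
      rw [mem_Zb (by linarith)]
      exact ⟨h1.1, h1.2.1, h2, by linarith [h1.2.2.2.1], h1.2.2.2.2⟩
    have h0 : 0 ≤ ∑ s ∈ A, mz s := Finset.sum_nonneg fun s _ => mz_nonneg s
    have := pow_le_pow_left₀ h0 this 2
    linarith
  have hPA : PP1 A mz (fun s => s.im) Λ ≤ V / 2 := by
    have := PP1_le_sq A mz_nonneg (x := fun s : ℂ => s.im) Λ
    linarith
  have hPB : PP1 B mz (fun s => s.im) Λ ≤ B0 + C * Y :=
    (PP1_mono (Finset.filter_subset _ _) mz_nonneg Λ).trans hPt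
  have n1 := QS_abs_bound (x := fun s : ℂ => s.im) A (Zb V (2 * V)) mz_nonneg hf
    (Λ := Λ) (lam := lam) (by linarith) hlam0
  have n2 := QS_far_bound (x := fun s : ℂ => s.im) B (Zb V (2 * V)) mz_nonneg hf hΛ1 (by
    intro s hs s' hs'
    obtain ⟨h1, h2⟩ := Finset.mem_filter.1 hs
    rw [mem_Zb (by linarith)] at hs'
    have h3 := hs'.2.2.1
    push Not at h2
    rw [abs_sub_comm]
    refine le_trans ?_ (le_abs_self _)
    linarith)
  have n0 := QS_le_abs (x := fun s : ℂ => s.im) (Zt V) (Zb V (2 * V)) mz_nonneg (bl r) Λ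
  rw [← Finset.sum_filter_add_sum_filter_not (Zt V) (fun s => V - 1 < s.im)] at n0
  -- the near part
  have b1 : 1600 * K * (lam * PP1 A mz (fun s => s.im) Λ +
      1 / lam * PP1 (Zb V (2 * V)) mz (fun s => s.im) Λ) ≤ 2 * η / 3 * Y := by
    have c1 : lam * PP1 A mz (fun s => s.im) Λ ≤ lam * V :=
      mul_le_mul_of_nonneg_left (by linarith) hlam0.le
    have c2 : 1600 * K * (lam * V) ≤ η / 3 * Y := by
      rw [div_le_iff₀ hη] at e1
      have : 1600 * K * (lam * V) ≤ 1600 * (K + 1) * (lam * V) := by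
        have : 0 ≤ lam * V := by positivity
        nlinarith
      refine this.trans ?_
      have h3 : 4800 * (K + 1) * lam * V ≤ Real.log V * η * V :=
        mul_le_mul_of_nonneg_right e1 (by linarith)
      rw [hY]
      linarith
    have c3 : 1 / lam * PP1 (Zb V (2 * V)) mz (fun s => s.im) Λ ≤ 1 / lam * (C * Y) :=
      mul_le_mul_of_nonneg_left hPblk (by positivity)
    have c4 : 1600 * K * (1 / lam * (C * Y)) ≤ η / 3 * Y := by
      have h4 : 1600 * K * (1 / lam * (C * Y)) = (1600 * K * C / lam) * Y := by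
        field_simp
      rw [h4]
      refine mul_le_mul_of_nonneg_right ?_ hY0.le
      rw [div_le_iff₀ hlam0, hlam]
      have h5 : η / 3 * (4800 * (K + 1) * (C + 1) / η) = 1600 * ((K + 1) * (C + 1)) := by
        field_simp
        ring
      rw [h5]
      nlinarith
    have hK0 : 0 ≤ 1600 * K := by positivity
    calc 1600 * K * (lam * PP1 A mz (fun s => s.im) Λ +
        1 / lam * PP1 (Zb V (2 * V)) mz (fun s => s.im) Λ) ≤
          1600 * K * (lam * V + 1 / lam * (C * Y)) := by gcongr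
      _ = 1600 * K * (lam * V) + 1600 * K * (1 / lam * (C * Y)) := by ring
      _ ≤ _ := by linarith
  -- the far part
  have b2 : 3200 * K / Real.sqrt Λ * (PP1 B mz (fun s => s.im) Λ +
      PP1 (Zb V (2 * V)) mz (fun s => s.im) Λ) ≤ η / 3 * Y := by
    have hs : 9600 * (K + 1) * (2 * C + 1) / η ≤ Real.sqrt Λ :=
      Real.le_sqrt_of_sq_le (e2.trans hΛ)
    have hs0 : 0 < Real.sqrt Λ := Real.sqrt_pos.2 (by linarith)
    have c1 : PP1 B mz (fun s => s.im) Λ + PP1 (Zb V (2 * V)) mz (fun s => s.im) Λ ≤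
        (2 * C + 1) * Y := by nlinarith
    calc 3200 * K / Real.sqrt Λ * (PP1 B mz (fun s => s.im) Λ +
        PP1 (Zb V (2 * V)) mz (fun s => s.im) Λ) ≤ 3200 * K / Real.sqrt Λ * ((2 * C + 1) * Y) :=
          mul_le_mul_of_nonneg_left c1 (by positivity)
      _ = (3200 * K * (2 * C + 1) / Real.sqrt Λ) * Y := by ring
      _ ≤ η / 3 * Y := by
          refine mul_le_mul_of_nonneg_right ?_ hY0.le
          rw [div_le_iff₀ hs0]
          rw [div_le_iff₀ hη] at hs
          nlinarith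
  calc |QS (Zt V) (Zb V (2 * V)) mz (fun s => s.im) (bl r) Λ| ≤ _ := n0
    _ ≤ 2 * η / 3 * Y + η / 3 * Y := add_le_add (n1.trans b1) (n2.trans b2)
    _ = η * Y := by ring

/-- the assumption on the blocks -/
def BlkE (r : ℝ → ℝ) (E : ℝ) : Prop := ∀ ε : ℝ, 0 < ε → ∀ᶠ V : ℝ in atTop,
  |Qb (bl r) V (Real.log V) / Xf V - mo r| ≤ E + ε

lemma step_lim (h : OT r δ) {E : ℝ} (hE : BlkE r E) {σ : ℝ} (hσ : 0 ≤ σ) :
    ∀ ε : ℝ, 0 < ε → ∀ᶠ V : ℝ in atTop,
      |(Q2 (bl r) (2 * V) (Real.log V + σ) - Q2 (bl r) V (Real.log V + σ)) / Xf V - mo r| ≤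
        E + ε := by
  intro ε hε
  obtain ⟨C, B0, V0, hC, hB0, hV0, hblk, hloc⟩ := PPB
  obtain ⟨C1, hC1, hs⟩ := h.scale
  -- scale change
  have h2 : Tendsto (fun V => (QS (Zb V (2 * V)) (Zb V (2 * V)) mz (fun s => s.im) (bl r)
      (Real.log V + σ) - QS (Zb V (2 * V)) (Zb V (2 * V)) mz (fun s => s.im) (bl r) (Real.log V)) /
      Xf V) atTop (𝓝 0) := by
    have h3 : Tendsto (fun V : ℝ => 3200 * C1 * σ * C * (2 * Real.pi) * (Real.log V)⁻¹) atTop
        (𝓝 (3200 * C1 * σ * C * (2 * Real.pi) * 0)) :=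
      (tendsto_inv_atTop_zero.comp Real.tendsto_log_atTop).const_mul _
    rw [mul_zero] at h3
    refine squeeze_zero_norm' ?_ h3
    filter_upwards [eventually_ge_atTop V0] with V hV
    have hV20 : 20 ≤ V := hV0.trans hV
    have hL : 0 < Real.log V := Real.log_pos (by linarith)
    have hX := Xf_pos (V := V) (by linarith)
    have h4 := scale_err (x := fun s : ℂ => s.im) (Zb V (2 * V)) mz_nonneg hC1 hs hL
      (s := 1 + σ / Real.log V) (by
        have : 0 ≤ σ / Real.log V := by positivity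
        linarith)
    have e1 : (1 + σ / Real.log V) * Real.log V = Real.log V + σ := by field_simp
    rw [e1] at h4
    rw [Real.norm_eq_abs, abs_div, abs_of_pos hX, div_le_iff₀ hX]
    refine h4.trans ((mul_le_mul_of_nonneg_left (hblk V hV) ?_).trans (le_of_eq ?_))
    · have : 0 ≤ σ / Real.log V := by positivity
      have h5 : 0 ≤ C1 * (1 + σ / Real.log V - 1) := mul_nonneg hC1 (by linarith)
      linarith
    · unfold Xf
      have hpi := Real.pi_pos
      field_simp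
      ring
  -- cross terms
  have h3 : Tendsto (fun V => 2 * QS (Zt V) (Zb V (2 * V)) mz (fun s => s.im) (bl r)
      (Real.log V + σ) / Xf V) atTop (𝓝 0) := by
    rw [Metric.tendsto_atTop]
    intro ε hε
    obtain ⟨V1, hV1, h4⟩ := cross_small h (η := ε / 16) (by positivity)
    refine ⟨V1, fun V hV => ?_⟩
    have hV20 : 20 ≤ V := hV1.trans hV
    have hX := Xf_pos (V := V) (by linarith)
    have h5 := h4 V hV (Real.log V + σ) (by linarith)
    rw [Real.dist_eq, sub_zero, abs_div, abs_of_pos hX, div_lt_iff₀ hX, abs_mul,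
      abs_of_pos (by norm_num : (0 : ℝ) < 2)]
    have hY : 0 < V * Real.log V := mul_pos (by linarith) (Real.log_pos (by linarith))
    have h6 : ε / 8 * (V * Real.log V) < ε * Xf V := by
      unfold Xf
      have hpi := Real.pi_lt_d2
      have hpi0 := Real.pi_pos
      rw [← mul_div_assoc, lt_div_iff₀ (by positivity)]
      have : 0 < ε * (V * Real.log V) := by positivity
      nlinarith
    linarith
  have h4 := h2.add h3
  rw [add_zero] at h4
  filter_upwards [hE (ε / 2) (by positivity), (Metric.tendsto_nhds.1 h4) (ε / 2) (by positivity),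
    eventually_ge_atTop (1 : ℝ)] with V a1 a2 hV
  rw [Real.dist_eq, sub_zero] at a2
  rw [QS_split (bl_even r) hV]
  have e : (Q2 (bl r) V (Real.log V + σ) +
      QS (Zb V (2 * V)) (Zb V (2 * V)) mz (fun s => s.im) (bl r) (Real.log V + σ) +
      2 * QS (Zt V) (Zb V (2 * V)) mz (fun s => s.im) (bl r) (Real.log V + σ) -
      Q2 (bl r) V (Real.log V + σ)) / Xf V - mo r =
      (Qb (bl r) V (Real.log V) / Xf V - mo r) +
      ((QS (Zb V (2 * V)) (Zb V (2 * V)) mz (fun s => s.im) (bl r) (Real.log V + σ) -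
        QS (Zb V (2 * V)) (Zb V (2 * V)) mz (fun s => s.im) (bl r) (Real.log V)) / Xf V +
      2 * QS (Zt V) (Zb V (2 * V)) mz (fun s => s.im) (bl r) (Real.log V + σ) / Xf V) := by
    unfold Qb
    ring
  rw [e]
  refine (abs_add_le _ _).trans ?_
  linarith

lemma ratio_lim (J : ℕ) :
    Tendsto (fun T : ℝ => Xf (T / 2 ^ (J + 1)) / Xf T) atTop (𝓝 (1 / 2 ^ (J + 1))) := by
  have h4 : Tendsto (fun T : ℝ => 1 / 2 ^ (J + 1) * (1 - (J + 1) * Real.log 2 *
      (Real.log T)⁻¹)) atTop (𝓝 (1 / 2 ^ (J + 1) * (1 - (J + 1) * Real.log 2 * 0))) :=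
    (tendsto_const_nhds.sub ((tendsto_inv_atTop_zero.comp
      Real.tendsto_log_atTop).const_mul _)).const_mul _
  rw [mul_zero, sub_zero, mul_one] at h4
  refine h4.congr' ?_
  filter_upwards [eventually_gt_atTop (1 : ℝ)] with T hT
  have hL : 0 < Real.log T := Real.log_pos hT
  unfold Xf
  rw [Real.log_div (by linarith) (by positivity), Real.log_pow]
  have hpi := Real.pi_pos
  push_cast
  field_simp

lemma tele_lim (h : OT r δ) {E : ℝ} (hE0 : 0 ≤ E) (hE : BlkE r E) (J : ℕ) :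
    ∀ ε : ℝ, 0 < ε → ∀ᶠ T : ℝ in atTop,
      |(Q2 (bl r) T (Real.log T) - Q2 (bl r) (T / 2 ^ J) (Real.log T)) / Xf T -
        mo r * (1 - 1 / 2 ^ J)| ≤ E * (1 - 1 / 2 ^ J) + ε := by
  induction J with
  | zero =>
    intro ε hε
    refine Eventually.of_forall fun T => ?_
    simp only [pow_zero, div_one, sub_self, zero_div, mul_zero, abs_zero, zero_add]
    exact hε.le
  | succ J ih =>
    intro ε hε
    have h1 := step_lim h hE (σ := (J + 1) * Real.log 2)
      (mul_nonneg (by positivity) (Real.log_nonneg (by norm_num)))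
    have ht : Tendsto (fun T : ℝ => T / 2 ^ (J + 1)) atTop atTop :=
      tendsto_id.atTop_div_const (by positivity)
    have h2 := ht.eventually (h1 (ε / 4) (by positivity))
    have h3 := ratio_lim J
    have h3' := (Metric.tendsto_nhds.1 h3) (min (1 / 2) (ε / (4 * (|mo r| + E + 1))))
      (by positivity)
    filter_upwards [ih (ε / 4) (by positivity), h2, h3',
      eventually_gt_atTop ((2 : ℝ) ^ (J + 1))] with T a1 a2 a3 hT
    have hT1 : 1 < T := lt_of_le_of_lt (one_le_pow₀ (by norm_num)) hT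
    have hV : 1 < T / 2 ^ (J + 1) := by
      rw [lt_div_iff₀ (by positivity)]
      linarith
    have hX := Xf_pos hT1
    have hXV := Xf_pos hV
    have e1 : Real.log (T / 2 ^ (J + 1)) + (J + 1) * Real.log 2 = Real.log T := by
      rw [Real.log_div (by linarith) (by positivity), Real.log_pow]
      push_cast
      ring
    have e2 : 2 * (T / 2 ^ (J + 1)) = T / 2 ^ J := by
      rw [pow_succ]
      field_simp
    rw [e1, e2] at a2
    rw [Real.dist_eq] at a3
    obtain ⟨ρ, hρ⟩ : ∃ ρ : ℝ, ρ = Xf (T / 2 ^ (J + 1)) / Xf T := ⟨_, rfl⟩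
    rw [← hρ] at a3
    have a4 : |ρ - 1 / 2 ^ (J + 1)| < 1 / 2 := a3.trans_le (min_le_left _ _)
    have a5 : |ρ - 1 / 2 ^ (J + 1)| < ε / (4 * (|mo r| + E + 1)) := a3.trans_le (min_le_right _ _)
    have hρ0 : 0 ≤ ρ := by rw [hρ]; positivity
    have h2J : (1 : ℝ) / 2 ^ (J + 1) ≤ 1 / 2 := by
      rw [pow_succ]
      have : (1 : ℝ) ≤ 2 ^ J := one_le_pow₀ (by norm_num)
      rw [div_le_div_iff₀ (by positivity) (by norm_num)]
      linarith
    have hρ1 : ρ ≤ 1 := by
      have := (abs_lt.1 a4).2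
      linarith
    obtain ⟨u, hu⟩ : ∃ u : ℝ, u = (Q2 (bl r) T (Real.log T) -
      Q2 (bl r) (T / 2 ^ J) (Real.log T)) / Xf T - mo r * (1 - 1 / 2 ^ J) := ⟨_, rfl⟩
    obtain ⟨v, hv⟩ : ∃ v : ℝ, v = (Q2 (bl r) (T / 2 ^ J) (Real.log T) -
      Q2 (bl r) (T / 2 ^ (J + 1)) (Real.log T)) / Xf (T / 2 ^ (J + 1)) - mo r := ⟨_, rfl⟩
    rw [← hu] at a1
    rw [← hv] at a2
    have e : (Q2 (bl r) T (Real.log T) - Q2 (bl r) (T / 2 ^ (J + 1)) (Real.log T)) / Xf T -
        mo r * (1 - 1 / 2 ^ (J + 1)) = u + (v * ρ + mo r * (ρ - 1 / 2 ^ (J + 1))) := by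
      rw [hu, hv, hρ]
      have e3 : (1 : ℝ) / 2 ^ J = 2 * (1 / 2 ^ (J + 1)) := by
        rw [pow_succ]
        field_simp
      rw [e3]
      field_simp
      ring
    rw [e]
    have b1 : |v * ρ| ≤ (E + ε / 4) * ρ := by
      rw [abs_mul, abs_of_nonneg hρ0]
      exact mul_le_mul_of_nonneg_right a2 hρ0
    have b2 : |mo r * (ρ - 1 / 2 ^ (J + 1))| + E * |ρ - 1 / 2 ^ (J + 1)| ≤ ε / 4 := by
      rw [abs_mul, ← add_mul]
      have h5 : (|mo r| + E) * |ρ - 1 / 2 ^ (J + 1)| ≤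
          (|mo r| + E + 1) * (ε / (4 * (|mo r| + E + 1))) :=
        mul_le_mul (by linarith) a5.le (abs_nonneg _) (by positivity)
      refine h5.trans (le_of_eq ?_)
      field_simp
    have b3 : (E + ε / 4) * ρ ≤ E * (1 / 2 ^ (J + 1)) + E * |ρ - 1 / 2 ^ (J + 1)| + ε / 4 := by
      have h6 : ρ ≤ 1 / 2 ^ (J + 1) + |ρ - 1 / 2 ^ (J + 1)| := by
        have := le_abs_self (ρ - 1 / 2 ^ (J + 1))
        linarith
      have h7 : E * ρ ≤ E * (1 / 2 ^ (J + 1) + |ρ - 1 / 2 ^ (J + 1)|) :=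
        mul_le_mul_of_nonneg_left h6 hE0
      have h8 : ε / 4 * ρ ≤ ε / 4 * 1 := mul_le_mul_of_nonneg_left hρ1 (by positivity)
      linarith
    have b4 : E * (1 - 1 / 2 ^ J) + E * (1 / 2 ^ (J + 1)) = E * (1 - 1 / 2 ^ (J + 1)) := by
      rw [pow_succ]
      field_simp
      ring
    refine (abs_add_le _ _).trans ?_
    have b5 := abs_add_le (v * ρ) (mo r * (ρ - 1 / 2 ^ (J + 1)))
    linarith

/-- **the pair sums up to height `T`** -/
theorem pair_up (h : OT r δ) {E : ℝ} (hE0 : 0 ≤ E) (hE : BlkE r E) :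
    ∀ ε : ℝ, 0 < ε → ∀ᶠ T : ℝ in atTop, |Q2 (bl r) T (Real.log T) / Xf T - mo r| ≤ E + ε := by
  obtain ⟨C, B0, V0, hC, hB0, hV0, hblk, hloc⟩ := PPB
  obtain ⟨K, hK, hf⟩ := h.decay
  set c := mo r with hc
  intro ε hε
  set D : ℝ := |c| + 3200 * K * (2 * Real.pi) * (C + 1) with hD
  have hpi := Real.pi_pos
  have hD0 : 0 ≤ D := by positivity
  obtain ⟨J, hJ⟩ := pow_unbounded_of_one_lt (4 * (D + 1) / ε) (one_lt_two)
  have h1 := tele_lim h hE0 hE J (ε / 4) (by positivity)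
  have ev2 : ∀ᶠ T : ℝ in atTop, (2 : ℝ) ^ J * V0 ≤ T := eventually_ge_atTop _
  have ev3 : ∀ᶠ T : ℝ in atTop, (2 : ℝ) ^ J * B0 ≤ T := eventually_ge_atTop _
  filter_upwards [h1, ev2, ev3] with T a1 a2 a3
  have h2J : (1 : ℝ) ≤ 2 ^ J := one_le_pow₀ (by norm_num)
  have hTV : V0 ≤ T / 2 ^ J := by
    rw [le_div_iff₀ (by positivity)]
    linarith
  have hT20 : 20 ≤ T := by
    have : T / 2 ^ J ≤ T := by
      rw [div_le_iff₀ (by positivity)]
      have : 0 ≤ T := by
        by_contra hc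
        push Not at hc
        have : T / 2 ^ J < 0 := div_neg_of_neg_of_pos hc (by positivity)
        linarith
      nlinarith
    linarith
  have hL1 : 1 ≤ Real.log T := by
    rw [Real.le_log_iff_exp_le (by linarith)]
    linarith [Real.exp_one_lt_d9]
  have hX := Xf_pos (V := T) (by linarith)
  have hlog : Real.log (T / 2 ^ J) ≤ Real.log T := by
    refine Real.log_le_log (by linarith) ?_
    rw [div_le_iff₀ (by positivity)]
    nlinarith
  -- the first block
  have b1 : |Q2 (bl r) (T / 2 ^ J) (Real.log T)| ≤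
      3200 * K * (B0 + C * (T / 2 ^ J * Real.log (T / 2 ^ J))) := by
    unfold Q2
    refine (QS_le_abs _ _ mz_nonneg _ _).trans ?_
    refine (QS_abs_bound (x := fun s : ℂ => s.im) _ _ mz_nonneg hf (by linarith) one_pos).trans ?_
    have h3 := hloc (T / 2 ^ J) hTV (Real.log T) hlog
    have h4 : (1 : ℝ) * PP1 (Zt (T / 2 ^ J)) mz (fun s => s.im) (Real.log T) +
        1 / 1 * PP1 (Zt (T / 2 ^ J)) mz (fun s => s.im) (Real.log T) ≤
        2 * (B0 + C * (T / 2 ^ J * Real.log (T / 2 ^ J))) := by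
      rw [one_mul, div_one, one_mul]
      linarith
    have h5 := mul_le_mul_of_nonneg_left h4 (show (0 : ℝ) ≤ 1600 * K by positivity)
    linarith
  have b2 : |Q2 (bl r) (T / 2 ^ J) (Real.log T)| / Xf T ≤
      3200 * K * (2 * Real.pi) * (C + 1) / 2 ^ J := by
    rw [div_le_div_iff₀ hX (by positivity)]
    have h3 : B0 ≤ T / 2 ^ J * Real.log T := by
      have : B0 ≤ T / 2 ^ J := by
        rw [le_div_iff₀ (by positivity)]
        linarith
      have h4 : 0 ≤ T / 2 ^ J := by linarith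
      nlinarith
    have h4 : C * (T / 2 ^ J * Real.log (T / 2 ^ J)) ≤ C * (T / 2 ^ J * Real.log T) := by
      have h5 : 0 ≤ T / 2 ^ J := by linarith
      gcongr
    have h5 : |Q2 (bl r) (T / 2 ^ J) (Real.log T)| ≤
        3200 * K * ((C + 1) * (T / 2 ^ J * Real.log T)) := by
      refine b1.trans (mul_le_mul_of_nonneg_left ?_ (by positivity))
      linarith
    have h6 : 3200 * K * ((C + 1) * (T / 2 ^ J * Real.log T)) * 2 ^ J =
        3200 * K * (2 * Real.pi) * (C + 1) * Xf T := by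
      unfold Xf
      field_simp
    rw [← h6]
    exact mul_le_mul_of_nonneg_right h5 (by positivity)
  have e : Q2 (bl r) T (Real.log T) / Xf T - c =
      ((Q2 (bl r) T (Real.log T) - Q2 (bl r) (T / 2 ^ J) (Real.log T)) / Xf T -
        c * (1 - 1 / 2 ^ J)) +
      (Q2 (bl r) (T / 2 ^ J) (Real.log T) / Xf T - c / 2 ^ J) := by
    ring
  rw [e]
  have b3 : |Q2 (bl r) (T / 2 ^ J) (Real.log T) / Xf T - c / 2 ^ J| ≤ D / 2 ^ J := by
    refine (abs_sub _ _).trans ?_
    rw [abs_div, abs_div, abs_of_pos hX, abs_of_pos (by positivity : (0 : ℝ) < 2 ^ J), hD,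
      add_div, add_comm]
    gcongr
  have b4 : D / 2 ^ J < ε / 4 := by
    rw [div_lt_iff₀ hε] at hJ
    rw [div_lt_iff₀ (by positivity)]
    linarith
  have b5 : E * (1 - 1 / 2 ^ J) ≤ E := by
    have : (0 : ℝ) ≤ 1 / 2 ^ J := by positivity
    nlinarith
  refine (abs_add_le _ _).trans ?_
  linarith

end Q241.OP
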