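import Pool.Agent.Y744.PCR.NTd
import Pool.Agent.Y750.OM.Conv2

/-! # Pair sums of the ordinates over dyadic blocks, without hypothesis -/

set_option autoImplicit false

open Filter Topology MeasureTheory

namespace Q241.OP

open H370 TH803TW Pool.Agent.Y744
open Pool.Agent.Y750.OM (rh bl NO PO bl_eq NO_nonneg)

/-- the pair sum over the zeros with ordinate in `(V, 2V]` -/
noncomputable def Qb (f : ℝ → ℝ) (V Λ : ℝ) : ℝ :=
  QS (Zb V (2 * V)) (Zb V (2 * V)) mz (fun s => s.im) f Λ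

lemma Qb_eq (r : ℝ → ℝ) (V : ℝ) :
    Qb (bl r) V (Real.log V) = PO (rh r) V (2 * V) (Real.log V) := by
  unfold Qb QS PO Zb mz
  refine Finset.sum_congr rfl fun s _ => Finset.sum_congr rfl fun s' _ => ?_
  rw [bl_eq]

/-- test functions -/
structure OT (r : ℝ → ℝ) (δ : ℝ) : Prop where
  lip : ∃ K : ℝ, ∀ x y, |r x - r y| ≤ K * |x - y|
  supp : ∀ α, δ < |α| → r α = 0
  decay : ∃ A : ℝ, 0 ≤ A ∧ ∀ y, |bl r y| ≤ A / (1 + y ^ 2)
  scale : ∃ C : ℝ, 0 ≤ C ∧ ∀ y s : ℝ, 1 ≤ s → |bl r (s * y) - bl r y| ≤ C * (s - 1) / (1 + y ^ 2)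

/-- the predicted value -/
noncomputable def mo (r : ℝ → ℝ) : ℝ := r 0 + ∫ α : ℝ, |α| * r α

lemma bl_even (r : ℝ → ℝ) (y : ℝ) : bl r (-y) = bl r y := by
  unfold bl
  congr 1
  funext α
  rw [mul_neg, Real.cos_neg]

lemma nn_lim : Tendsto (fun V : ℝ => (NN riemannZeta V (2 * V) : ℝ) / Xf V) atTop (𝓝 1) := by
  obtain ⟨C, T0, hC, hT0, h⟩ := nn_asymp good_zeta
  have hpi := Real.pi_pos
  have h1 : Tendsto (fun V : ℝ => C * (2 * Real.pi) * (Real.log V)⁻¹) atTop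
      (𝓝 (C * (2 * Real.pi) * 0)) :=
    (tendsto_inv_atTop_zero.comp Real.tendsto_log_atTop).const_mul _
  rw [mul_zero] at h1
  rw [tendsto_iff_dist_tendsto_zero]
  refine squeeze_zero' (Eventually.of_forall fun _ => dist_nonneg) ?_ h1
  filter_upwards [eventually_ge_atTop (max T0 10)] with V hV
  have hV0 : T0 ≤ V := (le_max_left _ _).trans hV
  have hV10 : 10 ≤ V := (le_max_right _ _).trans hV
  have hX := Xf_pos (V := V) (by linarith)
  have hL : 0 < Real.log V := Real.log_pos (by linarith)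
  have h2 := h V hV0 V (2 * V) le_rfl (by linarith) (by linarith) le_rfl
  rw [Real.dist_eq]
  have e : (NN riemannZeta V (2 * V) : ℝ) / Xf V - 1 =
      ((NN riemannZeta V (2 * V) : ℝ) - V * Real.log V / (2 * Real.pi)) / Xf V := by
    rw [sub_div]
    congr 1
    rw [eq_div_iff hX.ne', one_mul]
    rfl
  rw [e, abs_div, abs_of_pos hX, div_le_iff₀ hX]
  refine h2.trans (le_of_eq ?_)
  unfold Xf
  field_simp

lemma ratio_le {V : ℝ} (hV : 1 ≤ V) :
    NO V (2 * V) / (NN riemannZeta V (2 * V) : ℝ) ≤ 1 ∧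
      0 ≤ NO V (2 * V) / (NN riemannZeta V (2 * V) : ℝ) := by
  have h1 : NO V (2 * V) ≤ (NN riemannZeta V (2 * V) : ℝ) := by
    rw [← sum_Zb hV]
    unfold NO
    exact Finset.sum_le_sum_of_subset_of_nonneg (Finset.filter_subset _ _)
      fun s _ _ => Nat.cast_nonneg _
  have h2 := NO_nonneg V (2 * V)
  constructor
  · exact div_le_one_of_le₀ h1 (Nat.cast_nonneg _)
  · positivity

/-- **the blocks** -/
theorem blk : ∃ C θ : ℝ, 0 < C ∧ 0 < θ ∧ ∀ δ : ℝ, 0 < δ → δ ≤ 1 / 2 → ∀ r : ℝ → ℝ, OT r δ →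
    ∀ R : ℝ, (∀ α, |r α| ≤ R) → ∀ ε : ℝ, 0 < ε → ∀ᶠ V : ℝ in atTop,
      |Qb (bl r) V (Real.log V) / Xf V - mo r| ≤
        C * R * δ ^ 3 * (NO V (2 * V) / (NN riemannZeta V (2 * V) : ℝ)) ^ θ + ε := by
  obtain ⟨C, θ, hC, hθ, h⟩ := Pool.Agent.Y750.OM.pair_ord (κ0 := 1 / 2) (by norm_num) (by norm_num)
  refine ⟨2 * C, θ, by positivity, hθ, fun δ hδ hδ2 r hr R hR ε hε => ?_⟩
  obtain ⟨K, hK⟩ := hr.lip
  obtain ⟨A, hA0, hA⟩ := hr.decay
  have hA' : ∀ u, |bl r u| * (1 + u ^ 2) ≤ A := by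
    intro u
    have h1 := hA u
    rwa [le_div_iff₀ (by positivity)] at h1
  obtain ⟨T0, hT0, h1⟩ := h δ hδ hδ2 r K hK hr.supp _ (Pool.Agent.Y750.OM.rh_of_bl hA') R hR
    (ε / 4) (by positivity)
  have hR0 : 0 ≤ R := (abs_nonneg _).trans (hR 0)
  have h2 := (Metric.tendsto_nhds.1 nn_lim) (min 1 (ε / (4 * (|mo r| + 1)))) (by positivity)
  filter_upwards [eventually_ge_atTop T0, h2] with V hV hn
  have hV1 : 1 ≤ V := by linarith
  have hX := Xf_pos (V := V) (by linarith)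
  have h3 := h1 V hV
  rw [← Qb_eq] at h3
  set n : ℝ := (NN riemannZeta V (2 * V) : ℝ) with hn'
  set ρ : ℝ := NO V (2 * V) / n with hρ
  obtain ⟨hρ1, hρ0⟩ := ratio_le hV1
  rw [← hn', ← hρ] at hρ1 hρ0
  rw [Real.dist_eq] at hn
  have hn1 : |n / Xf V - 1| < 1 := hn.trans_le (min_le_left _ _)
  have hn2 : |n / Xf V - 1| < ε / (4 * (|mo r| + 1)) := hn.trans_le (min_le_right _ _)
  have hn3 : n / Xf V ≤ 2 := by
    have := (abs_lt.1 hn1).2
    linarith
  have hnn : 0 ≤ n / Xf V := div_nonneg (Nat.cast_nonneg _) hX.le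
  have hρθ : 0 ≤ ρ ^ θ := Real.rpow_nonneg hρ0 _
  have e : Qb (bl r) V (Real.log V) / Xf V - mo r =
      (Qb (bl r) V (Real.log V) - n * mo r) / Xf V + mo r * (n / Xf V - 1) := by
    field_simp
    ring
  rw [e]
  refine (abs_add_le _ _).trans ?_
  have a1 : |(Qb (bl r) V (Real.log V) - n * mo r) / Xf V| ≤
      (C * R * δ ^ 3 * ρ ^ θ + ε / 4) * (n / Xf V) := by
    rw [abs_div, abs_of_pos hX, ← mul_div_assoc]
    exact div_le_div_of_nonneg_right h3 hX.le
  have a2 : (C * R * δ ^ 3 * ρ ^ θ + ε / 4) * (n / Xf V) ≤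
      (C * R * δ ^ 3 * ρ ^ θ + ε / 4) * 2 :=
    mul_le_mul_of_nonneg_left hn3 (by positivity)
  have a3 : |mo r * (n / Xf V - 1)| ≤ ε / 4 := by
    rw [abs_mul]
    have h5 : |mo r| * |n / Xf V - 1| ≤ (|mo r| + 1) * (ε / (4 * (|mo r| + 1))) :=
      mul_le_mul (by linarith) hn2.le (abs_nonneg _) (by positivity)
    refine h5.trans (le_of_eq ?_)
    field_simp
  linarith

/-- close pairs in a block -/
theorem P_blk : ∃ C1 T1 : ℝ, 0 < C1 ∧ 10 ≤ T1 ∧ ∀ V : ℝ, T1 ≤ V →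
    PP1 (Zb V (2 * V)) mz (fun s => s.im) (Real.log V) ≤ C1 * (V * Real.log V) := by
  have hpi := Real.pi_gt_three
  have ha : Real.pi ^ 2 * (1 / (2 * Real.pi)) ^ 2 = 1 / 4 := by
    field_simp
    norm_num
  obtain ⟨C, θ, T0, hC, hθ, hT0, h⟩ := Pool.Agent.Y750.OM.close_pairs (a := 1 / (2 * Real.pi))
    (by positivity) (by rw [ha]; norm_num) one_pos
  rw [ha] at h
  have h2 := (Metric.tendsto_nhds.1 nn_lim) 1 one_pos
  obtain ⟨T2, hT2⟩ := h2.exists_forall_of_atTop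
  refine ⟨2 * (4 + C), max T0 T2, by positivity, hT0.trans (le_max_left _ _), fun V hV => ?_⟩
  have hVT0 : T0 ≤ V := (le_max_left _ _).trans hV
  have hV1 : 1 ≤ V := by linarith
  have hX := Xf_pos (V := V) (by linarith)
  have hL : 0 < Real.log V := Real.log_pos (by linarith)
  have h3 := h V hVT0
  have h4 := hT2 V ((le_max_right _ _).trans hV)
  rw [Real.dist_eq] at h4
  set n : ℝ := (NN riemannZeta V (2 * V) : ℝ) with hn'
  obtain ⟨hρ1, hρ0⟩ := ratio_le hV1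
  have hn0 : 0 ≤ n := Nat.cast_nonneg _
  have h5 : n ≤ 2 * Xf V := by
    have := (abs_lt.1 h4).2
    have h6 : n / Xf V ≤ 2 := by linarith
    rwa [div_le_iff₀ hX] at h6
  have h6 : (NO V (2 * V) / n) ^ θ ≤ 1 := Real.rpow_le_one hρ0 hρ1 hθ.le
  have h7 : PP1 (Zb V (2 * V)) mz (fun s => s.im) (Real.log V) =
      PO (fun x => if |x| ≤ 2 * Real.pi * (1 / (2 * Real.pi)) then 1 else 0) V (2 * V)
        (Real.log V) := by
    unfold PP1 PO Zb mz
    refine Finset.sum_congr rfl fun s _ => Finset.sum_congr rfl fun s' _ => ?_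
    congr 1
    have e1 : 2 * Real.pi * (1 / (2 * Real.pi)) = 1 := by field_simp
    rw [e1]
    have e2 : |(s.im - s'.im) * Real.log V| ≤ 1 ↔ |s.im - s'.im| ≤ 1 / Real.log V := by
      rw [abs_mul, abs_of_pos hL, le_div_iff₀ hL]
    simp only [e2]
  rw [h7]
  refine h3.trans ?_
  have h8 : n * (4 / (3 - 1 / 4) + 1 + C * (NO V (2 * V) / n) ^ θ) ≤ n * (4 + C) := by
    refine mul_le_mul_of_nonneg_left ?_ hn0
    have : C * (NO V (2 * V) / n) ^ θ ≤ C := by nlinarith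
    norm_num
    linarith
  refine h8.trans ?_
  have h9 : n * (4 + C) ≤ 2 * Xf V * (4 + C) := mul_le_mul_of_nonneg_right h5 (by positivity)
  refine h9.trans ?_
  have h10 : 2 * Xf V * (4 + C) = 2 * (4 + C) * (V * Real.log V) / (2 * Real.pi) := by
    unfold Xf
    ring
  rw [h10]
  have h11 : 0 ≤ 2 * (4 + C) * (V * Real.log V) := by positivity
  exact div_le_self h11 (by linarith)

/-- **local bound** -/
theorem PPB : ∃ C B0 V0 : ℝ, 0 ≤ C ∧ 0 ≤ B0 ∧ 20 ≤ V0 ∧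
    (∀ V : ℝ, V0 ≤ V → PP1 (Zb V (2 * V)) mz (fun s => s.im) (Real.log V) ≤ C * (V * Real.log V)) ∧
    (∀ T : ℝ, V0 ≤ T → ∀ Λ : ℝ, Real.log T ≤ Λ →
      PP1 (Zt T) mz (fun s => s.im) Λ ≤ B0 + C * (T * Real.log T)) := by
  obtain ⟨C1, T1, hC1, hT1, hP⟩ := P_blk
  obtain ⟨V1, hV1, hN⟩ := near_bound
  set V0 : ℝ := max V1 T1 with hV0
  have hV020 : 20 ≤ V0 := hV1.trans (le_max_left _ _)
  have hblk : ∀ V : ℝ, V0 ≤ V →
      PP1 (Zb V (2 * V)) mz (fun s => s.im) (Real.log V) ≤ C1 * (V * Real.log V) :=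
    fun V hV => hP V ((le_max_right _ _).trans hV)
  set B0 : ℝ := (∑ s ∈ Zt (2 * V0), mz s) ^ 2 with hB0
  have hsmall : ∀ T : ℝ, T ≤ 2 * V0 → ∀ Λ : ℝ, PP1 (Zt T) mz (fun s => s.im) Λ ≤ B0 := by
    intro T hT Λ
    refine (PP1_le_sq (Zt T) mz_nonneg Λ).trans ?_
    refine pow_le_pow_left₀ (Finset.sum_nonneg fun s _ => mz_nonneg s) ?_ 2
    refine Finset.sum_le_sum_of_subset_of_nonneg (fun s hs => ?_) fun s _ _ => mz_nonneg s
    rw [mem_Zt] at hs ⊢
    exact ⟨hs.1, hs.2.1, hs.2.2.1, hs.2.2.2.1.trans hT, hs.2.2.2.2⟩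
  have hmain : ∀ n : ℕ, ∀ T : ℝ, V0 ≤ T → T ≤ 2 ^ n * (2 * V0) → ∀ Λ : ℝ, Real.log T ≤ Λ →
      PP1 (Zt T) mz (fun s => s.im) Λ ≤ B0 + (C1 + 1) * (T * Real.log T) := by
    intro n
    induction n with
    | zero =>
      intro T hT hT2 Λ hΛ
      rw [pow_zero, one_mul] at hT2
      have h1 := hsmall T hT2 Λ
      have h2 : 0 ≤ Real.log T := Real.log_nonneg (by linarith)
      have h3 : 0 ≤ (C1 + 1) * (T * Real.log T) := by
        have : 0 ≤ T := by linarith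
        positivity
      linarith
    | succ n ih =>
      intro T hT hT2 Λ hΛ
      have hlT : 0 ≤ Real.log T := Real.log_nonneg (by linarith)
      rcases le_or_gt T (2 * V0) with h | h
      · have h1 := hsmall T h Λ
        have h3 : 0 ≤ (C1 + 1) * (T * Real.log T) := by
          have : 0 ≤ T := by linarith
          positivity
        linarith
      · set V := T / 2 with hV
        have hVV : V0 ≤ V := by linarith
        have hTV : T = 2 * V := by rw [hV]; ring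
        have hlog : Real.log V ≤ Real.log T := Real.log_le_log (by linarith) (by linarith)
        have hlV1 : 1 ≤ Real.log V := by
          rw [Real.le_log_iff_exp_le (by linarith)]
          linarith [Real.exp_one_lt_d9]
        have h1 := ih V hVV (by
          rw [pow_succ] at hT2
          linarith) Λ (hlog.trans hΛ)
        have h2 := PP1_Zt_step (V := V) (by linarith) (Λ := Λ) (by linarith)
        have h3 := (PP1_anti (x := fun s : ℂ => s.im) (Zb V (2 * V)) mz_nonneg (by linarith)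
          (hlog.trans hΛ)).trans (hblk V hVV)
        have h4 := hN V ((le_max_left _ _).trans hVV)
        rw [← hTV] at h2 h3
        have h5 : V ≤ V * Real.log V := by nlinarith
        have h6 : (C1 + 1) * (V * Real.log V) ≤ (C1 + 1) * (V * Real.log T) := by
          have : 0 ≤ V := by linarith
          gcongr
        have h7 : (C1 + 1) * (T * Real.log T) = 2 * ((C1 + 1) * (V * Real.log T)) := by
          rw [hTV]
          ring_nf
        linarith
  refine ⟨C1 + 1, B0, V0, by positivity, by positivity, hV020, fun V hV => ?_, fun T hT Λ hΛ => ?_⟩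
  · refine (hblk V hV).trans ?_
    have h2 : 0 ≤ Real.log V := Real.log_nonneg (by linarith)
    have : 0 ≤ V * Real.log V := mul_nonneg (by linarith) h2
    linarith
  · obtain ⟨n, hn⟩ := pow_unbounded_of_one_lt (T / (2 * V0)) (one_lt_two)
    refine hmain n T hT ?_ Λ hΛ
    rw [div_lt_iff₀ (by linarith)] at hn
    exact hn.le

end Q241.OP
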