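import Pool.Agent.Q241.OP.Diag

/-! # One-sided information: the diagonal and the closure -/

set_option autoImplicit false

open MeasureTheory Filter Topology Set

namespace Q241.OP

open H370 TH803TW Pool.Agent.Y744
open Pool.Agent.Y750.OM (NO bl)

/-- number of pairs with different ordinates, normalised -/
noncomputable def Dn (T y : ℝ) : ℝ := Aa T y - Aa T 0

lemma Dn_nonneg {T y : ℝ} (hT : 1 < T) (hy : 0 ≤ y) : 0 ≤ Dn T y :=
  sub_nonneg.2 (Aa_mono hT hy)

lemma Dn_meas {T : ℝ} (hT : 1 < T) : Measurable (Dn T) :=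
  (Aa_mono hT).measurable.sub_const _

lemma Aa_nonneg {T : ℝ} (hT : 1 < T) (y : ℝ) : 0 ≤ Aa T y :=
  mul_nonneg (inv_nonneg.2 (Xf_pos hT).le) (PC_nonneg _ _)

lemma Aa_le {T : ℝ} (hT : 1 < T) (y : ℝ) : Aa T y ≤ (Xf T)⁻¹ * PC T univ :=
  mul_le_mul_of_nonneg_left (PC_mono T (subset_univ _)) (inv_nonneg.2 (Xf_pos hT).le)

lemma Aa_g_int {T δ : ℝ} (hT : 1 < T) (hδ : 0 < δ) (hδ1 : δ ≤ 1) :
    IntegrableOn (fun y => Aa T y * g δ y) (Ioi 0) := by
  refine ((g_int hδ hδ1 le_rfl).const_mul ((Xf T)⁻¹ * PC T univ)).mono'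
    ((Aa_mono hT).measurable.mul (g_meas δ)).aestronglyMeasurable ?_
  filter_upwards [self_mem_ae_restrict measurableSet_Ioi] with x hx
  have hx0 : (0 : ℝ) < x := hx
  rw [Real.norm_eq_abs, abs_of_nonneg (mul_nonneg (Aa_nonneg hT x) (g_nonneg hx0.le))]
  exact mul_le_mul_of_nonneg_right (Aa_le hT x) (g_nonneg hx0.le)

lemma Dn_g_int {T δ : ℝ} (hT : 1 < T) (hδ : 0 < δ) (hδ1 : δ ≤ 1) :
    IntegrableOn (fun y => Dn T y * g δ y) (Ioi 0) := by
  refine ((Aa_g_int hT hδ hδ1).sub ((g_int hδ hδ1 le_rfl).const_mul (Aa T 0))).congr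
    (ae_of_all _ fun x => ?_)
  show Aa T x * g δ x - Aa T 0 * g δ x = Dn T x * g δ x
  unfold Dn
  ring

lemma Aa_split {T δ : ℝ} (hT : 1 < T) (hδ : 0 < δ) (hδ1 : δ ≤ 1) :
    ∫ y in Ioi (0 : ℝ), Aa T y * g δ y =
      Aa T 0 * Real.log 2 + ∫ y in Ioi (0 : ℝ), Dn T y * g δ y := by
  rw [← kk_zero δ, ← kk_eq hδ hδ1 le_rfl, ← integral_const_mul,
    ← integral_add ((g_int hδ hδ1 le_rfl).const_mul (Aa T 0)) (Dn_g_int hT hδ hδ1)]
  refine integral_congr_ae (ae_of_all _ fun x => ?_)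
  show Aa T x * g δ x = Aa T 0 * g δ x + Dn T x * g δ x
  unfold Dn
  ring

/-- the deficit tends to zero -/
lemma deficit {δ : ℝ} (hδ : 0 < δ) (hδ1 : δ ≤ 1) {a0 b : ℝ} (ha0 : 0 ≤ a0) (hb : 0 ≤ b)
    (h : ∀ y, a0 < y → ∀ ε : ℝ, 0 < ε → ∀ᶠ T in atTop, 2 * gp y - b - ε ≤ Dn T y) :
    Tendsto (fun T => ∫ y in Ioi a0, max 0 (2 * gp y - b - Dn T y) * g δ y) atTop (𝓝 0) := by
  have hsub : Ioi a0 ⊆ Ioi (0 : ℝ) := Ioi_subset_Ioi ha0
  have h0 : ∫ y in Ioi a0, (0 : ℝ) * g δ y = 0 := by simp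
  suffices hs : Tendsto (fun T => ∫ y in Ioi a0, max 0 (2 * gp y - b - Dn T y) * g δ y) atTop
      (𝓝 (∫ y in Ioi a0, (0 : ℝ) * g δ y)) by rwa [h0] at hs
  refine tendsto_integral_filter_of_dominated_convergence (fun y => 2 * gp y * g δ y) ?_ ?_ ?_ ?_
  · filter_upwards [eventually_gt_atTop (1 : ℝ)] with T hT
    refine Measurable.aestronglyMeasurable ?_
    exact (measurable_const.max (((gp_cont.measurable.const_mul 2).sub_const b).sub
      (Dn_meas hT))).mul (g_meas δ)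
  · filter_upwards [eventually_gt_atTop (1 : ℝ)] with T hT
    filter_upwards [self_mem_ae_restrict measurableSet_Ioi] with y hy
    have hy0 : 0 < y := hsub hy
    rw [Real.norm_eq_abs, abs_of_nonneg (mul_nonneg (le_max_left _ _) (g_nonneg hy0.le))]
    refine mul_le_mul_of_nonneg_right ?_ (g_nonneg hy0.le)
    have h1 := Dn_nonneg hT hy0.le
    have h2 := gp_nonneg hy0.le
    exact max_le (by linarith) (by linarith)
  · have h1 := mul_g_int hδ hδ1 (f := fun y => 2 * gp y) (gp_cont.measurable.const_mul 2) (C := 2)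
      fun x hx => by
        rw [abs_of_nonneg (by have := gp_nonneg hx.le; linarith)]
        have := gp_le hx.le
        linarith
    exact h1.mono_set hsub
  · filter_upwards [self_mem_ae_restrict measurableSet_Ioi] with y hy
    refine Tendsto.mul_const _ ?_
    rw [Metric.tendsto_nhds]
    intro ε hε
    filter_upwards [h y hy (ε / 2) (by positivity)] with T hT
    rw [Real.dist_eq, sub_zero, abs_of_nonneg (le_max_left _ _)]
    exact max_lt hε (by linarith)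

/-- the two-sided limit of the averages when almost all zeros are on the line -/
lemma onl_lim (hl : Onl) {r : ℝ → ℝ} {δ : ℝ} (hδ : 0 < δ) (hδ2 : δ ≤ 1 / 2) (hr : OT r δ) :
    Tendsto (fun T => Q2 (bl r) T (Real.log T) / Xf T) atTop (𝓝 (mo r)) := by
  rw [Metric.tendsto_nhds]
  intro ε hε
  filter_upwards [pair_up hr le_rfl (BlkE_zero hl hδ hδ2 hr) (ε / 2) (by positivity)] with T hT
  rw [Real.dist_eq]
  linarith

lemma gp_small {δ a0 : ℝ} (hδ : 0 < δ) (hδ1 : δ ≤ 1) (ha0 : 0 ≤ a0) :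
    ∫ y in Ioc 0 a0, 2 * gp y * g δ y ≤ 20 * δ ^ 2 * a0 ^ 3 := by
  have h1 := mul_g_int hδ hδ1 (f := fun y => 2 * gp y) (gp_cont.measurable.const_mul 2) (C := 2)
      fun x hx => by
        rw [abs_of_nonneg (by have := gp_nonneg hx.le; linarith)]
        have := gp_le hx.le
        linarith
  have h2 : IntegrableOn (fun _ : ℝ => 20 * δ ^ 2 * a0 ^ 2) (Ioc 0 a0) :=
    continuous_const.integrableOn_Ioc
  have h3 := setIntegral_mono_on (h1.mono_set Ioc_subset_Ioi_self) h2 measurableSet_Ioc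
    fun y hy => by
      have hy0 : 0 < y := hy.1
      have h4 := gp_le hy0.le
      have h5 := mul_g_le' (δ := δ) hy0
      have h6 := g_nonneg (δ := δ) hy0.le
      have h7 : gp y * g δ y ≤ y * g δ y := mul_le_mul_of_nonneg_right h4 h6
      have h8 : (Real.pi * (δ * y)) ^ 2 ≤ 10 * δ ^ 2 * a0 ^ 2 := by
        have hp : Real.pi ^ 2 ≤ 10 := by nlinarith [Real.pi_lt_d2, Real.pi_pos]
        have e : (Real.pi * (δ * y)) ^ 2 = Real.pi ^ 2 * (δ ^ 2 * y ^ 2) := by ring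
        rw [e]
        have h9 : y ^ 2 ≤ a0 ^ 2 := pow_le_pow_left₀ hy0.le hy.2 2
        have h10 : δ ^ 2 * y ^ 2 ≤ δ ^ 2 * a0 ^ 2 := mul_le_mul_of_nonneg_left h9 (sq_nonneg _)
        have h11 : 0 ≤ δ ^ 2 * y ^ 2 := by positivity
        have h12 : 0 ≤ Real.pi ^ 2 := sq_nonneg _
        calc Real.pi ^ 2 * (δ ^ 2 * y ^ 2) ≤ 10 * (δ ^ 2 * a0 ^ 2) := by gcongr
          _ = _ := by ring
      show 2 * gp y * g δ y ≤ 20 * δ ^ 2 * a0 ^ 2
      linarith
  refine h3.trans (le_of_eq ?_)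
  rw [setIntegral_const]
  simp only [Measure.real, Real.volume_Ioc, sub_zero, smul_eq_mul, ENNReal.toReal_ofReal ha0]
  ring

/-- **the diagonal**: lower bounds for the number of pairs at large distances bound the diagonal -/
theorem diag_bound {η : ℝ} (hη : 0 ≤ η)
    (h : ∀ ε : ℝ, 0 < ε → ∃ a0 : ℝ, ∀ y, a0 ≤ y → ∀ᶠ T in atTop, 2 * gp y - 2 * η - ε ≤ Dn T y) :
    ∀ ε : ℝ, 0 < ε → ∀ᶠ T in atTop, Aa T 0 ≤ 1 + 2 * η + ε := by
  intro ε hε
  have hlog : 0 < Real.log 2 := Real.log_pos (by norm_num)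
  obtain ⟨C, hC, hbase⟩ := base
  obtain ⟨a1, ha1⟩ := h (ε / 8) (by positivity)
  set a0 : ℝ := max a1 1 with ha0
  have ha0p : 0 ≤ a0 := zero_le_one.trans (le_max_right _ _)
  set e1 : ℝ := ε * Real.log 2 / 16 with he1
  have he1p : 0 < e1 := by positivity
  -- choice of `δ`
  obtain ⟨δ, hδ, hδ1, hδ2, hδ3⟩ : ∃ δ : ℝ, 0 < δ ∧ δ ≤ 1 / 4 ∧ C * δ ^ 2 ≤ e1 ∧
      20 * δ ^ 2 * a0 ^ 3 ≤ e1 := by
    have c1 : Tendsto (fun δ : ℝ => C * δ ^ 2) (𝓝[>] 0) (𝓝 0) := by
      have : ContinuousAt (fun δ : ℝ => C * δ ^ 2) 0 := by fun_prop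
      have h1 := this.tendsto
      simp only [ne_eq, OfNat.ofNat_ne_zero, not_false_eq_true, zero_pow, mul_zero] at h1
      exact h1.mono_left nhdsWithin_le_nhds
    have c2 : Tendsto (fun δ : ℝ => 20 * δ ^ 2 * a0 ^ 3) (𝓝[>] 0) (𝓝 0) := by
      have : ContinuousAt (fun δ : ℝ => 20 * δ ^ 2 * a0 ^ 3) 0 := by fun_prop
      have h1 := this.tendsto
      simp only [ne_eq, OfNat.ofNat_ne_zero, not_false_eq_true, zero_pow, mul_zero, zero_mul] at h1
      exact h1.mono_left nhdsWithin_le_nhds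
    have c3 : ∀ᶠ δ : ℝ in 𝓝[>] 0, δ < 1 / 4 :=
      nhdsWithin_le_nhds (eventually_lt_nhds (by norm_num))
    have c4 : ∀ᶠ δ : ℝ in 𝓝[>] 0, δ ∈ Ioi (0 : ℝ) := self_mem_nhdsWithin
    obtain ⟨δ, h1, h2, h3, h4⟩ := (c4.and (c3.and (((tendsto_order.1 c1).2 e1 he1p).and
      ((tendsto_order.1 c2).2 e1 he1p)))).exists
    exact ⟨δ, h1, h2.le, h3.le, h4.le⟩
  have hδ4 : δ ≤ 1 := by linarith
  have hdef := deficit hδ hδ4 ha0p (b := 2 * η + ε / 8) (by positivity) (fun y hy ε' hε' => by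
    filter_upwards [ha1 y ((le_max_left _ _).trans hy.le)] with T hT
    linarith)
  have hgs := gp_small hδ hδ4 ha0p
  obtain ⟨-, hmo⟩ := AG_g hδ hδ1
  have hgpi : IntegrableOn (fun y => 2 * gp y * g δ y) (Ioi 0) :=
    mul_g_int hδ hδ4 (f := fun y => 2 * gp y) (gp_cont.measurable.const_mul 2) (C := 2)
      fun x hx => by
        rw [abs_of_nonneg (by have := gp_nonneg hx.le; linarith)]
        have := gp_le hx.le
        linarith
  filter_upwards [hbase δ hδ hδ1 e1 he1p, (tendsto_order.1 hdef).2 e1 he1p,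
    eventually_gt_atTop (1 : ℝ)] with T b1 b2 hT
  have hsub : Ioi a0 ⊆ Ioi (0 : ℝ) := Ioi_subset_Ioi ha0p
  have hDi := Dn_g_int hT hδ hδ4
  have hgi := g_int hδ hδ4 ha0p
  -- the lower bound
  have d1 : ∫ y in Ioi a0, Dn T y * g δ y ≤ ∫ y in Ioi (0 : ℝ), Dn T y * g δ y := by
    refine setIntegral_mono_set hDi ?_ (LE.le.eventuallyLE hsub)
    filter_upwards [self_mem_ae_restrict measurableSet_Ioi] with y hy
    exact mul_nonneg (Dn_nonneg hT (le_of_lt hy)) (g_nonneg (le_of_lt hy))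
  set φ : ℝ → ℝ := fun y => max 0 (2 * gp y - (2 * η + ε / 8) - Dn T y) with hφ
  have hφi : IntegrableOn (fun y => φ y * g δ y) (Ioi a0) := by
    have h1 := mul_g_int hδ hδ4 (f := fun y => if 0 < y then φ y else 0) (C := 2) (by
      refine Measurable.ite measurableSet_Ioi ?_ measurable_const
      exact measurable_const.max (((gp_cont.measurable.const_mul 2).sub_const _).sub
        (Dn_meas hT))) fun x hx => by
        rw [if_pos hx, abs_of_nonneg (le_max_left _ _)]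
        have h1 := Dn_nonneg hT hx.le
        have h2 := gp_le hx.le
        exact max_le (by linarith) (by linarith)
    refine (h1.mono_set hsub).congr ?_
    filter_upwards [self_mem_ae_restrict measurableSet_Ioi] with y hy
    have hy0 : 0 < y := hsub hy
    show (if 0 < y then φ y else 0) * g δ y = φ y * g δ y
    rw [if_pos hy0]
  have d2 : (∫ y in Ioi a0, 2 * gp y * g δ y) - (2 * η + ε / 8) * (∫ y in Ioi a0, g δ y) -
      ∫ y in Ioi a0, φ y * g δ y ≤ ∫ y in Ioi a0, Dn T y * g δ y := by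
    have i1 : IntegrableOn (fun y => 2 * gp y * g δ y) (Ioi a0) := hgpi.mono_set hsub
    have i2 : IntegrableOn (fun y => (2 * η + ε / 8) * g δ y) (Ioi a0) := hgi.const_mul _
    have i3 : IntegrableOn (fun y => 2 * gp y * g δ y - (2 * η + ε / 8) * g δ y) (Ioi a0) :=
      i1.sub i2
    have i4 : IntegrableOn (fun y => 2 * gp y * g δ y - (2 * η + ε / 8) * g δ y - φ y * g δ y)
      (Ioi a0) := i3.sub hφi
    rw [← integral_const_mul, ← integral_sub i1 i2, ← integral_sub i3 hφi]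
    refine setIntegral_mono_on i4 (hDi.mono_set hsub) measurableSet_Ioi fun y hy => ?_
    have hy0 : 0 < y := hsub hy
    have h1 := g_nonneg (δ := δ) hy0.le
    have h2 : 2 * gp y - (2 * η + ε / 8) - Dn T y ≤ φ y := le_max_right _ _
    have h3 := mul_le_mul_of_nonneg_right h2 h1
    show 2 * gp y * g δ y - (2 * η + ε / 8) * g δ y - φ y * g δ y ≤ Dn T y * g δ y
    linarith
  have d3 : ∫ y in Ioi (0 : ℝ), 2 * gp y * g δ y =
      (∫ y in Ioc 0 a0, 2 * gp y * g δ y) + ∫ y in Ioi a0, 2 * gp y * g δ y := by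
    rw [← setIntegral_union (Ioc_disjoint_Ioi le_rfl) measurableSet_Ioi
      (hgpi.mono_set Ioc_subset_Ioi_self) (hgpi.mono_set hsub), Ioc_union_Ioi_eq_Ioi ha0p]
  have d4 : ∫ y in Ioi a0, g δ y ≤ Real.log 2 := by
    rw [← kk_zero δ, ← kk_eq hδ hδ4 le_rfl]
    refine setIntegral_mono_set (g_int hδ hδ4 le_rfl) ?_ (LE.le.eventuallyLE hsub)
    filter_upwards [self_mem_ae_restrict measurableSet_Ioi] with y hy
    exact g_nonneg (le_of_lt hy)
  have d5 : (2 * η + ε / 8) * (∫ y in Ioi a0, g δ y) ≤ (2 * η + ε / 8) * Real.log 2 :=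
    mul_le_mul_of_nonneg_left d4 (by positivity)
  rw [Aa_split hT hδ hδ4] at b1
  have b3 := (abs_le.1 b1).2
  have key : Aa T 0 * Real.log 2 ≤ (1 + 2 * η + ε) * Real.log 2 := by
    have : 5 * e1 ≤ ε * Real.log 2 / 2 := by
      rw [he1]
      have : 0 < ε * Real.log 2 := by positivity
      linarith
    have h9 : 0 < ε * Real.log 2 := by positivity
    linarith
  exact le_of_mul_le_mul_right key hlog

end Q241.OP
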