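import Pool.Agent.Q241.OP.Clo

/-! # The closure of the lower half, and rigidity without hypothesis -/

set_option autoImplicit false

open MeasureTheory Filter Topology Set

namespace Q241.OP

open H370 TH803TW Pool.Agent.Y744
open Pool.Agent.Y750.OM (NO bl)
open Pool.Agent.Results.MP_103a5c_nt.BohrSetPairs (mont)

lemma onl_of_diag (h : ∀ ε : ℝ, 0 < ε → ∀ᶠ T in atTop, Aa T 0 ≤ 1 + ε) : Onl := by
  refine onl_of fun ε hε => ?_
  filter_upwards [excess_lim (c := 1) h ε hε] with T hT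
  have h1 : 0 ≤ ∑ s ∈ Zt T, (mz s ^ 2 - mz s) :=
    Finset.sum_nonneg fun s _ => sub_nonneg.2 (mz_sq s)
  have e : (1 - 1 + ε) * Xf T = ε * Xf T := by ring
  linarith

lemma diag_lim (h : ∀ ε : ℝ, 0 < ε → ∀ᶠ T in atTop, Aa T 0 ≤ 1 + ε) :
    Tendsto (fun T => Aa T 0) atTop (𝓝 1) := by
  rw [Metric.tendsto_nhds]
  intro ε hε
  filter_upwards [h (ε / 2) (by positivity), Aa_diag (ε := ε / 2) (by positivity)] with T h1 h2
  rw [Real.dist_eq, abs_lt]
  constructor <;> linarith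

lemma g_pos {δ x : ℝ} (hδ : 0 < δ) (hx : 0 < x) (h : δ * x < 1) : 0 < g δ x := by
  have hpi := Real.pi_pos
  have h1 : 0 < Real.sin (Real.pi * (δ * x)) :=
    Real.sin_pos_of_pos_of_lt_pi (by positivity) (by nlinarith)
  have h2 := mul_g (δ := δ) hx
  have h3 : 0 < S (δ * x) := by
    have h4 := S_mul_sq (δ * x)
    have h5 : 0 < S (δ * x) * (Real.pi * (δ * x)) ^ 2 := by
      rw [h4]
      positivity
    exact pos_of_mul_pos_left h5 (by positivity)
  have h6 : 0 < x * g δ x := by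
    rw [h2]
    positivity
  exact pos_of_mul_pos_right h6 hx.le

lemma g_int_pos {δ a b : ℝ} (hδ : 0 < δ) (hδ1 : δ ≤ 1) (ha : 0 ≤ a) (hab : a < b)
    (hb : δ * b < 1) : 0 < ∫ y in Ioc a b, g δ y := by
  rw [← intervalIntegral.integral_of_le hab.le]
  refine intervalIntegral.intervalIntegral_pos_of_pos_on ?_ (fun x hx => ?_) hab
  · rw [intervalIntegrable_iff_integrableOn_Ioc_of_le hab.le]
    exact (g_int hδ hδ1 ha).mono_set Ioc_subset_Ioi_self
  · refine g_pos hδ (ha.trans_lt hx.1) (lt_trans ?_ hb)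
    exact mul_lt_mul_of_pos_left hx.2 hδ

/-- **closure**: the lower half implies everything -/
theorem closure (h : ∀ y, 0 < y → ∀ ε : ℝ, 0 < ε → ∀ᶠ T in atTop, 2 * gp y - ε ≤ Dn T y) :
    ∀ y, 0 < y → Tendsto (fun T => Dn T y) atTop (𝓝 (2 * gp y)) := by
  have hd : ∀ ε : ℝ, 0 < ε → ∀ᶠ T in atTop, Aa T 0 ≤ 1 + ε := by
    intro ε hε
    have h1 := diag_bound (η := 0) le_rfl (fun ε hε => ⟨1, fun y hy => by
      filter_upwards [h y (by linarith) ε hε] with T hT
      linarith⟩) ε hε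
    filter_upwards [h1] with T hT
    linarith
  have honl := onl_of_diag hd
  have hdl := diag_lim hd
  intro y0 hy0
  rw [tendsto_order]
  constructor
  · intro a ha
    filter_upwards [h y0 hy0 ((2 * gp y0 - a) / 2) (by linarith)] with T hT
    linarith
  intro a ha
  set ε : ℝ := a - 2 * gp y0 with hε
  have hε0 : 0 < ε := by linarith
  -- choice of the window
  obtain ⟨η, hη, hη2⟩ : ∃ η : ℝ, 0 < η ∧ ∀ y, y0 ≤ y → y ≤ y0 + η → 2 * gp y ≤ 2 * gp y0 + ε / 2 := by
    have hc : ContinuousAt (fun z => 2 * gp z) y0 :=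
      (continuous_const.mul gp_cont).continuousAt
    have h1 : ∀ᶠ z in 𝓝 y0, 2 * gp z < 2 * gp y0 + ε / 2 := hc.eventually_lt_const (by
      show 2 * gp y0 < _
      linarith)
    obtain ⟨d, hd, h2⟩ := Metric.eventually_nhds_iff.1 h1
    refine ⟨d / 2, by positivity, fun y hy hy2 => (h2 ?_).le⟩
    rw [Real.dist_eq, abs_lt]
    constructor <;> linarith
  set δ : ℝ := 1 / (4 * (1 + y0 + η)) with hδd
  have hden : 0 < 4 * (1 + y0 + η) := by positivity
  have hδ : 0 < δ := by positivity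
  have hδ1 : δ ≤ 1 / 4 := one_div_le_one_div_of_le (by norm_num) (by linarith)
  have hδ4 : δ ≤ 1 := by linarith
  have hδb : δ * (y0 + η) < 1 := by
    rw [hδd, one_div, inv_mul_lt_iff₀ hden]
    linarith
  set c : ℝ := ε / 2 * ∫ y in Ioc y0 (y0 + η), g δ y with hc
  have hc0 : 0 < c := mul_pos (by positivity) (g_int_pos hδ hδ4 hy0.le (by linarith) hδb)
  -- the limits
  have hOT := OT_psi hδ hδ4
  have l1 := onl_lim honl (δ := 2 * δ) (by positivity) (by linarith) hOT
  obtain ⟨-, hmo⟩ := AG_g hδ hδ1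
  have l2 := deficit hδ hδ4 le_rfl (b := 0) le_rfl (fun y hy ε' hε' => by
    filter_upwards [h y hy ε' hε'] with T hT
    linarith)
  have hgpi : IntegrableOn (fun y => 2 * gp y * g δ y) (Ioi 0) :=
    mul_g_int hδ hδ4 (f := fun y => 2 * gp y) (gp_cont.measurable.const_mul 2) (C := 2)
      fun x hx => by
        rw [abs_of_nonneg (by have := gp_nonneg hx.le; linarith)]
        have := gp_le hx.le
        linarith
  have l3 : Tendsto (fun T => (Q2 (bl (psi δ)) T (Real.log T) / Xf T - Aa T 0 * Real.log 2 -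
      ∫ y in Ioi (0 : ℝ), 2 * gp y * g δ y) +
      ∫ y in Ioi (0 : ℝ), max 0 (2 * gp y - 0 - Dn T y) * g δ y) atTop (𝓝 0) := by
    have h1 := ((l1.sub (hdl.mul_const (Real.log 2))).sub
      (tendsto_const_nhds (x := ∫ y in Ioi (0 : ℝ), 2 * gp y * g δ y))).add l2
    have e : mo (psi δ) - 1 * Real.log 2 - (∫ y in Ioi (0 : ℝ), 2 * gp y * g δ y) + 0 = 0 := by
      rw [hmo]
      ring
    rwa [e] at h1
  filter_upwards [(tendsto_order.1 l3).2 c hc0, eventually_gt_atTop (1 : ℝ)] with T b1 hT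
  by_contra hcon
  push Not at hcon
  have hDi := Dn_g_int hT hδ hδ4
  rw [← Aa_g hδ hδ4, Aa_split hT hδ hδ4] at b1
  set φ : ℝ → ℝ := fun y => max 0 (2 * gp y - 0 - Dn T y) with hφ
  have hφm : Measurable φ := measurable_const.max (((gp_cont.measurable.const_mul 2).sub_const _).sub
        (Dn_meas hT))
  have hφi : IntegrableOn (fun y => φ y * g δ y) (Ioi 0) := by
    have h1 := mul_g_int hδ hδ4 (f := fun y => if 0 < y then φ y else 0) (C := 2)
      (Measurable.ite measurableSet_Ioi hφm measurable_const) fun x hx => by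
        rw [if_pos hx, abs_of_nonneg (le_max_left _ _)]
        have h1 := Dn_nonneg hT hx.le
        have h2 := gp_le hx.le
        exact max_le (by linarith) (by linarith)
    refine h1.congr ?_
    filter_upwards [self_mem_ae_restrict measurableSet_Ioi] with y hy
    have hy0 : 0 < y := hy
    show (if 0 < y then φ y else 0) * g δ y = φ y * g δ y
    rw [if_pos hy0]
  have e1 : (Aa T 0 * Real.log 2 + (∫ y in Ioi (0 : ℝ), Dn T y * g δ y) - Aa T 0 * Real.log 2 -
      ∫ y in Ioi (0 : ℝ), 2 * gp y * g δ y) + ∫ y in Ioi (0 : ℝ), φ y * g δ y =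
      ∫ y in Ioi (0 : ℝ), (Dn T y - 2 * gp y + φ y) * g δ y := by
    have h1 : (fun y => (Dn T y - 2 * gp y + φ y) * g δ y) =
        fun y => (Dn T y * g δ y - 2 * gp y * g δ y) + φ y * g δ y := by
      funext y
      ring
    have i3 : IntegrableOn (fun y => Dn T y * g δ y - 2 * gp y * g δ y) (Ioi 0) := hDi.sub hgpi
    rw [h1, integral_add i3 hφi, integral_sub hDi hgpi]
    ring
  rw [e1] at b1
  have hint : IntegrableOn (fun y => (Dn T y - 2 * gp y + φ y) * g δ y) (Ioi 0) := by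
    refine ((hDi.sub hgpi).add hφi).congr (ae_of_all _ fun y => ?_)
    show Dn T y * g δ y - 2 * gp y * g δ y + φ y * g δ y = _
    ring
  have hpos : ∀ y, 0 ≤ Dn T y - 2 * gp y + φ y := by
    intro y
    have h1 : 2 * gp y - 0 - Dn T y ≤ φ y := le_max_right _ _
    linarith
  have d1 : ∫ y in Ioc y0 (y0 + η), (Dn T y - 2 * gp y + φ y) * g δ y ≤
      ∫ y in Ioi (0 : ℝ), (Dn T y - 2 * gp y + φ y) * g δ y := by
    refine setIntegral_mono_set hint ?_ (LE.le.eventuallyLE fun y hy =>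
      hy0.trans hy.1)
    filter_upwards [self_mem_ae_restrict measurableSet_Ioi] with y hy
    exact mul_nonneg (hpos y) (g_nonneg (le_of_lt hy))
  have d2 : c ≤ ∫ y in Ioc y0 (y0 + η), (Dn T y - 2 * gp y + φ y) * g δ y := by
    rw [hc, ← integral_const_mul]
    refine setIntegral_mono_on (((g_int hδ hδ4 hy0.le).mono_set Ioc_subset_Ioi_self).const_mul _)
      (hint.mono_set fun y hy => hy0.trans hy.1) measurableSet_Ioc fun y hy => ?_
    refine mul_le_mul_of_nonneg_right ?_ (g_nonneg (hy0.le.trans hy.1.le))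
    have h1 := hη2 y hy.1.le hy.2
    have h2 : Dn T y0 ≤ Dn T y := sub_le_sub_right (Aa_mono hT hy.1.le) _
    have h3 : 0 ≤ φ y := le_max_left _ _
    linarith
  linarith

/-- growth of the counting function -/
lemma Aa_boundU : ∃ C0 T0 : ℝ, 20 ≤ T0 ∧ ∀ T : ℝ, T0 ≤ T → ∀ y,
    |Aa T y| ≤ C0 * (1 + y ^ 2) := by
  obtain ⟨C, B0, V0, hC, hB0, hV0, hblk, hloc⟩ := PPB
  have hpi := Real.pi_pos
  refine ⟨3200 * (B0 + C) * (2 * Real.pi), V0, hV0, fun T hT y => ?_⟩
  have hT20 : 20 ≤ T := hV0.trans hT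
  have hX := Xf_pos (V := T) (by linarith)
  have hL1 : 1 ≤ Real.log T := by
    rw [Real.le_log_iff_exp_le (by linarith)]
    linarith [Real.exp_one_lt_d9]
  rcases lt_or_ge y 0 with hy | hy
  · rw [Aa_neg T y hy, abs_zero]
    positivity
  · unfold Aa
    rw [abs_of_nonneg (mul_nonneg (inv_nonneg.2 hX.le) (PC_nonneg _ _)), inv_mul_le_iff₀ hX]
    have h1 : PC T {x | |x| ≤ y} ≤ (1 + y ^ 2) * ∑ s ∈ Zt T, ∑ s' ∈ Zt T, mz s * mz s' *
        |(fun x : ℝ => 1 / (1 + x ^ 2)) ((s.im - s'.im) * Real.log T / (2 * Real.pi))| := by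
      unfold PC
      rw [Finset.mul_sum]
      refine Finset.sum_le_sum fun s _ => ?_
      rw [Finset.mul_sum]
      refine Finset.sum_le_sum fun s' _ => ?_
      have hm : 0 ≤ mz s * mz s' := mul_nonneg (mz_nonneg _) (mz_nonneg _)
      show mz s * mz s' * Set.indicator {x | |x| ≤ y} (fun _ => (1 : ℝ)) (dd T s s') ≤
        (1 + y ^ 2) * (mz s * mz s' * |1 / (1 + (dd T s s') ^ 2)|)
      set x := dd T s s'
      have h2 : Set.indicator {x | |x| ≤ y} (fun _ => (1 : ℝ)) x ≤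
          (1 + y ^ 2) * (1 / (1 + x ^ 2)) := by
        by_cases hx : |x| ≤ y
        · rw [Set.indicator_of_mem (show x ∈ {x | |x| ≤ y} from hx), mul_one_div,
            le_div_iff₀ (by positivity), one_mul]
          have : x ^ 2 ≤ y ^ 2 := by
            rw [← sq_abs x]
            exact pow_le_pow_left₀ (abs_nonneg _) hx 2
          linarith
        · rw [Set.indicator_of_notMem (show x ∉ {x | |x| ≤ y} from hx)]
          positivity
      rw [abs_of_nonneg (by positivity)]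
      have h3 := mul_le_mul_of_nonneg_left h2 hm
      linarith
    have h2 := QS_abs_bound (x := fun s : ℂ => s.im) (Zt T) (Zt T) mz_nonneg
      (f := fun x : ℝ => 1 / (1 + x ^ 2)) (K := 1) (fun x => by
        rw [abs_of_nonneg (by positivity)]) (Λ := Real.log T) (by linarith) one_pos
    have h3 := hloc T hT (Real.log T) le_rfl
    have h4 : B0 ≤ B0 * (T * Real.log T) := by
      have : 1 ≤ T * Real.log T := by nlinarith
      nlinarith
    calc PC T {x | |x| ≤ y} ≤ _ := h1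
      _ ≤ (1 + y ^ 2) * (3200 * ((B0 + C) * (T * Real.log T))) := by
          refine mul_le_mul_of_nonneg_left (h2.trans ?_) (by positivity)
          linarith
      _ = Xf T * (3200 * (B0 + C) * (2 * Real.pi) * (1 + y ^ 2)) := by
          unfold Xf
          field_simp

lemma bl_Kav {κ h : ℝ} {K : ℝ → ℝ} (hK : TK κ K) (hh : 0 < h) : bl (Kav K h) = fav K h := by
  funext y
  rw [fav_eq hK hh]
  unfold bl ct
  refine integral_congr_ae (ae_of_all _ fun α => ?_)
  show Kav K h α * Real.cos (2 * Real.pi * α * y) = Kav K h α * Real.cos (2 * Real.pi * y * α)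
  congr 2
  ring

lemma Kav_lip {κ h : ℝ} {K : ℝ → ℝ} (hK : TK κ K) (hh : 0 < h) :
    ∃ L : ℝ, ∀ x y, |Kav K h x - Kav K h y| ≤ L * |x - y| := by
  obtain ⟨M, hM⟩ := hK.hcs.exists_bound_of_continuous hK.cont
  have hd : Differentiable ℝ K := hK.smooth.differentiable (by simp)
  have hdc : Continuous (deriv K) := (TK.deriv_smooth hK.smooth).continuous
  obtain ⟨D, hD⟩ := hK.hcs.deriv.exists_bound_of_continuous hdc
  have hM0 : 0 ≤ M := (norm_nonneg _).trans (hM 0)
  have hD0 : 0 ≤ D := (norm_nonneg _).trans (hD 0)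
  have hKl : ∀ x y, |K x - K y| ≤ D * |x - y| := by
    intro x y
    have h1 := Convex.norm_image_sub_le_of_norm_deriv_le (f := K) (s := univ) (C := D)
      (fun x _ => hd x) (fun x _ => hD x) convex_univ (mem_univ y) (mem_univ x)
    simpa [Real.norm_eq_abs] using h1
  have hcl : ∀ u x y : ℝ, |Real.cos (2 * Real.pi * u * x) - Real.cos (2 * Real.pi * u * y)| ≤
      |2 * Real.pi * u| * |x - y| := by
    intro u x y
    have h1 := Real.abs_cos_sub_cos_le (2 * Real.pi * u * x) (2 * Real.pi * u * y)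
    refine h1.trans (le_of_eq ?_)
    rw [← mul_sub, abs_mul]
  have e : ∀ x, Kav K h x = ∫ u in (0 - h)..(0 + h), K x * Real.cos (2 * Real.pi * u * x) := by
    intro x
    rw [intervalIntegral.integral_const_mul, inner_cos]
    unfold Kav
    simp
  refine ⟨(D + M * (2 * Real.pi * h)) * (2 * h), fun x y => ?_⟩
  rw [e, e, ← intervalIntegral.integral_sub
    ((by fun_prop : Continuous fun u : ℝ => K x * Real.cos (2 * Real.pi * u * x)).intervalIntegrable
      _ _)
    ((by fun_prop : Continuous fun u : ℝ => K y * Real.cos (2 * Real.pi * u * y)).intervalIntegrable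
      _ _)]
  have h1 := intervalIntegral.norm_integral_le_of_norm_le_const (a := 0 - h) (b := 0 + h)
    (f := fun u => K x * Real.cos (2 * Real.pi * u * x) - K y * Real.cos (2 * Real.pi * u * y))
    (C := (D + M * (2 * Real.pi * h)) * |x - y|) (by
      intro u hu
      rw [uIoc_of_le (by linarith)] at hu
      have hu1 : |u| ≤ h := abs_le.2 ⟨by linarith [hu.1], by linarith [hu.2]⟩
      have e2 : K x * Real.cos (2 * Real.pi * u * x) - K y * Real.cos (2 * Real.pi * u * y) =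
          (K x - K y) * Real.cos (2 * Real.pi * u * x) +
          K y * (Real.cos (2 * Real.pi * u * x) - Real.cos (2 * Real.pi * u * y)) := by ring
      rw [e2, Real.norm_eq_abs]
      refine (abs_add_le _ _).trans ?_
      rw [abs_mul, abs_mul, add_mul]
      refine add_le_add ?_ ?_
      · exact (mul_le_of_le_one_right (abs_nonneg _) (Real.abs_cos_le_one _)).trans (hKl x y)
      · have h3 : |2 * Real.pi * u| ≤ 2 * Real.pi * h := by
          rw [abs_mul, abs_of_pos (by positivity : (0 : ℝ) < 2 * Real.pi)]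
          exact mul_le_mul_of_nonneg_left hu1 (by positivity)
        have h4 : |Real.cos (2 * Real.pi * u * x) - Real.cos (2 * Real.pi * u * y)| ≤
            2 * Real.pi * h * |x - y| :=
          (hcl u x y).trans (mul_le_mul_of_nonneg_right h3 (abs_nonneg _))
        have h5 : |K y| ≤ M := hM y
        have h6 := mul_le_mul h5 h4 (abs_nonneg _) hM0
        linarith)
  rw [Real.norm_eq_abs] at h1
  refine h1.trans (le_of_eq ?_)
  have e3 : 0 + h - (0 - h) = 2 * h := by ring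
  rw [e3, abs_of_pos (by positivity : (0 : ℝ) < 2 * h)]
  ring

lemma OT_Kav {κ h : ℝ} {K : ℝ → ℝ} (hK : TK κ K) (hh : 0 < h) : OT (Kav K h) κ where
  lip := Kav_lip hK hh
  supp := fun α hα => Kav_supp hK α hα
  decay := by
    obtain ⟨D, hD0, hD⟩ := fav_decay hK hh
    refine ⟨D, hD0, fun y => ?_⟩
    rw [bl_Kav hK hh]
    refine (hD y).trans (div_le_div_of_nonneg_left hD0 (by positivity) ?_)
    nlinarith [sq_nonneg y, sq_nonneg (y ^ 2)]
  scale := by
    rw [bl_Kav hK hh]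
    exact fav_scale hK h

/-- **rigidity**, when almost all zeros are on the line -/
theorem rigidW (hl : Onl) {W : ℝ → ℝ → ℝ → ℝ}
    (hW1 : ∀ T, 20 ≤ T → ∀ a ℓ, 0 < a → 0 < ℓ → Aa T (a + ℓ) - Aa T a ≤ W T a ℓ)
    (hW2 : ∀ T, 20 ≤ T → ∀ a ℓ η, 0 < a → 0 < ℓ → 0 < η → W T a ℓ ≤ Aa T (a + ℓ) - Aa T (a - η))
    {l1 l2 s1 s2 C c a0 : ℝ} (hl1 : 0 < l1) (hl2 : 0 < l2)
    (hirr : Irrational (l1 / l2)) (hs1 : s1 = 1 ∨ s1 = -1) (hs2 : s2 = 1 ∨ s2 = -1)
    (hC : 0 ≤ C) (hc : 0 < c) (ha0 : 0 < a0)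
    (hyp1 : ∀ a, a0 ≤ a → ∀ ε, 0 < ε → ∀ᶠ T in atTop, -(C * Real.exp (-(c * a))) - ε ≤
      s1 * (W T a l1 - 2 * (gp (a + l1) - gp a)))
    (hyp2 : ∀ a, a0 ≤ a → ∀ ε, 0 < ε → ∀ᶠ T in atTop, -(C * Real.exp (-(c * a))) - ε ≤
      s2 * (W T a l2 - 2 * (gp (a + l2) - gp a))) :
    ∀ x, Tendsto (fun T => Aa T x) atTop (𝓝 (AG x)) := by
  obtain ⟨C0, T0, hT0, hb⟩ := Aa_boundU
  refine rigid (κ := 1 / 2) (by norm_num) (T0 := T0) (fun T hT => Aa_mono (by linarith))
    (fun T y hy => Aa_neg T y hy) hb (fun ε hε => Aa_diag hε) (fun K hK h hh => ?_)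
    (W := W) (fun T hT => hW1 T (hT0.trans hT))
    (fun T hT => hW2 T (hT0.trans hT)) le_rfl hl1 hl2 hirr hs1 hs2 hC hc ha0
    hyp1 hyp2
  have h1 := (onl_lim hl (by norm_num) le_rfl (OT_Kav hK hh)).neg
  rw [AG_mont hK (by norm_num) hh]
  have e : mo (Kav K h) = mont (Kav K h) := by
    rw [mo_eq (OT_Kav hK hh) (by norm_num), bl_Kav hK hh, mont_fav hK (by norm_num) hh]
  rw [e] at h1
  refine h1.congr fun T => ?_
  rw [Aa_int hK hh, bl_Kav hK hh]
  rw [div_eq_inv_mul]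

/-- rigidity for half open windows -/
theorem rigidU (hl : Onl) {l1 l2 s1 s2 C c a0 : ℝ} (hl1 : 0 < l1) (hl2 : 0 < l2)
    (hirr : Irrational (l1 / l2)) (hs1 : s1 = 1 ∨ s1 = -1) (hs2 : s2 = 1 ∨ s2 = -1)
    (hC : 0 ≤ C) (hc : 0 < c) (ha0 : 0 < a0)
    (hyp1 : ∀ a, a0 ≤ a → ∀ ε, 0 < ε → ∀ᶠ T in atTop, -(C * Real.exp (-(c * a))) - ε ≤
      s1 * (Aa T (a + l1) - Aa T a - 2 * (gp (a + l1) - gp a)))
    (hyp2 : ∀ a, a0 ≤ a → ∀ ε, 0 < ε → ∀ᶠ T in atTop, -(C * Real.exp (-(c * a))) - ε ≤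
      s2 * (Aa T (a + l2) - Aa T a - 2 * (gp (a + l2) - gp a))) :
    ∀ x, Tendsto (fun T => Aa T x) atTop (𝓝 (AG x)) :=
  rigidW hl (W := fun T a ℓ => Aa T (a + ℓ) - Aa T a) (fun T hT a ℓ ha hℓ => le_rfl)
    (fun T hT a ℓ η ha hℓ hη => by
      have h1 : Aa T (a - η) ≤ Aa T a := Aa_mono (by linarith) (by linarith)
      show Aa T (a + ℓ) - Aa T a ≤ Aa T (a + ℓ) - Aa T (a - η)
      linarith) hl1 hl2 hirr hs1 hs2 hC hc ha0 hyp1 hyp2

end Q241.OP
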