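import Pool.Agent.Q241.OP.Kern2

/-! # The diagonal: multiple zeros and zeros off the line -/

set_option autoImplicit false

open MeasureTheory Filter Topology Set

namespace Q241.OP

open H370 TH803TW Pool.Agent.Y744
open Pool.Agent.Y750.OM (NO)

/-- the zeros off the line, with ordinate in `(1, T]` -/
noncomputable def Zo (T : ℝ) : Finset ℂ := (Zb 1 T).filter (fun s => s.re ≠ 1 / 2)

lemma Zo_sub (T : ℝ) : Zo T ⊆ Zt T := by
  intro s hs
  obtain ⟨h1, -⟩ := Finset.mem_filter.1 hs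
  rw [mem_Zb le_rfl] at h1
  rw [mem_Zt]
  exact ⟨h1.1, h1.2.1, by linarith [h1.2.2.1], h1.2.2.2.1, h1.2.2.2.2⟩

lemma dd_zero {T : ℝ} {s s' : ℂ} (h : s'.im = s.im) :
    {x : ℝ | |x| ≤ 0}.indicator (fun _ => (1 : ℝ)) (dd T s s') = 1 := by
  have h4 : dd T s s' = 0 := by
    unfold dd
    rw [h]
    simp
  rw [h4]
  exact Set.indicator_of_mem (show (0 : ℝ) ∈ {x : ℝ | |x| ≤ 0} by simp) _

lemma diag_le {T : ℝ} (hT : 1 < T) :
    ∑ s ∈ Zt T, mz s ^ 2 + ∑ s ∈ Zo T, mz s ^ 2 ≤ Xf T * Aa T 0 := by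
  classical
  have hX := Xf_pos hT
  have e : Xf T * Aa T 0 = PC T {x | |x| ≤ 0} := by
    unfold Aa
    rw [← mul_assoc, mul_inv_cancel₀ hX.ne', one_mul]
  rw [e]
  have h1 : ∑ s ∈ Zo T, mz s ^ 2 = ∑ s ∈ Zt T, if s ∈ Zo T then mz s ^ 2 else 0 := by
    rw [← Finset.sum_filter]
    refine Finset.sum_congr ?_ fun s _ => rfl
    ext s
    rw [Finset.mem_filter]
    exact ⟨fun h => ⟨Zo_sub T h, h⟩, fun h => h.2⟩
  rw [h1, ← Finset.sum_add_distrib]
  unfold PC
  refine Finset.sum_le_sum fun s hs => ?_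
  by_cases ho : s ∈ Zo T
  · rw [if_pos ho]
    obtain ⟨h2, h3⟩ := Finset.mem_filter.1 ho
    rw [mem_Zb le_rfl] at h2
    have hre : (1 - (starRingEnd ℂ) s).re = 1 - s.re := by simp
    have him : (1 - (starRingEnd ℂ) s).im = s.im := by simp
    have h4 : (1 - (starRingEnd ℂ) s) ∈ Zt T := by
      have h5 := zset_refl good_zeta le_rfl h2
      rw [mem_Zt]
      exact ⟨h5.1, h5.2.1, by linarith [h5.2.2.1], h5.2.2.2.1, h5.2.2.2.2⟩
    have hne : s ≠ 1 - (starRingEnd ℂ) s := by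
      intro h
      apply h3
      have := congrArg Complex.re h
      rw [hre] at this
      linarith
    have hm : mz (1 - (starRingEnd ℂ) s) = mz s := by
      unfold mz
      rw [mult_refl good_zeta h2.1 h2.2.1 h2.2.2.1.le]
    have h6 := Finset.sum_le_sum_of_subset_of_nonneg (s := {s, 1 - (starRingEnd ℂ) s}) (t := Zt T)
      (f := fun s' => mz s * mz s' * {x : ℝ | |x| ≤ 0}.indicator (fun _ => (1 : ℝ)) (dd T s s'))
      (by
        intro z hz
        rcases Finset.mem_insert.1 hz with rfl | hz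
        · exact hs
        · rw [Finset.mem_singleton] at hz
          rw [hz]
          exact h4) fun s' _ _ => mul_nonneg (mul_nonneg (mz_nonneg _) (mz_nonneg _))
            (ind_nonneg _ _)
    rw [Finset.sum_pair hne] at h6
    refine le_trans (le_of_eq ?_) h6
    rw [dd_zero rfl, dd_zero him, hm]
    ring
  · rw [if_neg ho, add_zero]
    refine le_trans (le_of_eq ?_) (Finset.single_le_sum (f := fun s' => mz s * mz s' *
      {x : ℝ | |x| ≤ 0}.indicator (fun _ => (1 : ℝ)) (dd T s s')) (fun s' _ => ?_) hs)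
    · show mz s ^ 2 = mz s * mz s * _
      rw [dd_zero rfl]
      ring
    · exact mul_nonneg (mul_nonneg (mz_nonneg _) (mz_nonneg _)) (ind_nonneg _ _)

lemma mz_int (s : ℂ) : mz s = 0 ∨ 1 ≤ mz s := by
  unfold mz
  rcases Nat.eq_zero_or_pos (mult riemannZeta s) with h | h
  · left
    rw [h]
    simp
  · right
    exact_mod_cast h

lemma mz_sq (s : ℂ) : mz s ≤ mz s ^ 2 := by
  rcases mz_int s with h | h
  · rw [h]; simp
  · nlinarith

/-- excess of the diagonal -/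
lemma excess {T : ℝ} (hT : 1 < T) :
    ∑ s ∈ Zt T, (mz s ^ 2 - mz s) + ∑ s ∈ Zo T, mz s ≤
      Xf T * Aa T 0 - (NN riemannZeta 0 T : ℝ) := by
  have h1 := diag_le hT
  have h2 : ∑ s ∈ Zo T, mz s ≤ ∑ s ∈ Zo T, mz s ^ 2 := Finset.sum_le_sum fun s _ => mz_sq s
  rw [Finset.sum_sub_distrib, sum_Zt]
  linarith

/-- a bound for the diagonal bounds the exceptions -/
lemma excess_lim {c : ℝ} (h : ∀ ε : ℝ, 0 < ε → ∀ᶠ T in atTop, Aa T 0 ≤ c + ε) :
    ∀ ε : ℝ, 0 < ε → ∀ᶠ T in atTop,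
      ∑ s ∈ Zt T, (mz s ^ 2 - mz s) + ∑ s ∈ Zo T, mz s ≤ (c - 1 + ε) * Xf T := by
  intro ε hε
  obtain ⟨T0, hT0, h1⟩ := Pool.Agent.W54.TCF.NT_asymp' (ε / 2) (by positivity)
  filter_upwards [h (ε / 2) (by positivity), eventually_ge_atTop T0] with T a1 a2
  have hT : 1 < T := by linarith
  have hX := Xf_pos hT
  have h2 := excess hT
  have h3 := (h1 T a2).1
  have e : T / (2 * Real.pi) * Real.log T = Xf T := by
    unfold Xf
    ring
  rw [e] at h3
  have h4 : Xf T * Aa T 0 ≤ Xf T * (c + ε / 2) := mul_le_mul_of_nonneg_left a1 hX.le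
  linarith

/-- the zeros off the line in the dyadic blocks -/
lemma onl_of (h : ∀ ε : ℝ, 0 < ε → ∀ᶠ T in atTop, ∑ s ∈ Zo T, mz s ≤ ε * Xf T) : Onl := by
  unfold Onl
  rw [Metric.tendsto_atTop]
  intro ε hε
  have h1 := (h (ε / 8) (by positivity)).exists_forall_of_atTop
  obtain ⟨T0, hT0⟩ := h1
  refine ⟨max T0 2, fun V hV => ?_⟩
  have hV0 : T0 ≤ V := (le_max_left _ _).trans hV
  have hV2 : 2 ≤ V := (le_max_right _ _).trans hV
  have h2 := hT0 (2 * V) (by linarith)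
  have hX := Xf_pos (V := V) (by linarith)
  rw [Real.dist_eq, sub_zero, abs_of_nonneg (div_nonneg (Pool.Agent.Y750.OM.NO_nonneg _ _) hX.le),
    div_lt_iff₀ hX]
  have h3 : NO V (2 * V) ≤ ∑ s ∈ Zo (2 * V), mz s := by
    unfold NO Zo Zb mz
    refine Finset.sum_le_sum_of_subset_of_nonneg (fun s hs => ?_) fun _ _ _ => Nat.cast_nonneg _
    obtain ⟨h4, h5⟩ := Finset.mem_filter.1 hs
    rw [mem_Zf good_zeta (by linarith)] at h4
    rw [Finset.mem_filter, mem_Zf good_zeta le_rfl]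
    exact ⟨⟨h4.1, h4.2.1, by linarith [h4.2.2.1], h4.2.2.2.1, h4.2.2.2.2⟩, h5⟩
  have h4 : Xf (2 * V) ≤ 4 * Xf V := by
    unfold Xf
    rw [Real.log_mul (by norm_num) (by linarith)]
    have h5 : Real.log 2 ≤ Real.log V := Real.log_le_log (by norm_num) hV2
    have hpi := Real.pi_pos
    rw [← mul_div_assoc]
    refine div_le_div_of_nonneg_right ?_ (by positivity)
    have : 2 * V * (Real.log 2 + Real.log V) ≤ 2 * V * (2 * Real.log V) := by
      refine mul_le_mul_of_nonneg_left (by linarith) (by linarith)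
    linarith
  have h6 : ε / 8 * Xf (2 * V) ≤ ε / 8 * (4 * Xf V) := mul_le_mul_of_nonneg_left h4 (by positivity)
  have h7 : 0 < ε * Xf V := by positivity
  linarith

end Q241.OP
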