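import Pool.Agent.Q241.OP.Clo2

/-! # The statements with the counting functions of the problem -/

set_option autoImplicit false

open MeasureTheory Filter Topology Set

namespace Q241.OP

open H370 TH803TW Pool.Agent.Y744

/-- multiplicity of `s` as a zero of the Riemann zeta function (order of vanishing at `s`) -/
noncomputable def zmult (s : ℂ) : ℕ := analyticOrderNatAt riemannZeta s

/-- the nontrivial zeros of `ζ` -/
def ZZ : Set ℂ := {s : ℂ | riemannZeta s = 0 ∧ 0 < s.re ∧ s.re < 1}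

/-- the number of ordered pairs -/
noncomputable def Nstar (T a : ℝ) : ℕ :=
  ∑ᶠ p ∈ {p : ℂ × ℂ | p.1 ∈ ZZ ∧ p.2 ∈ ZZ ∧ 0 < p.1.im ∧ p.1.im ≤ T ∧
    0 < p.1.im - p.2.im ∧ p.1.im - p.2.im ≤ 2 * Real.pi * a / Real.log T}, zmult p.1 * zmult p.2

/-- the number of zeros with ordinate in `(0, T]` and property `A`, counted with multiplicity -/
noncomputable def Num (A : ℂ → Prop) (T : ℝ) : ℕ :=
  ∑ᶠ s ∈ {s : ℂ | s ∈ ZZ ∧ 0 < s.im ∧ s.im ≤ T ∧ A s}, zmult s

/-- the constant of the conjecture -/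
noncomputable def P (a : ℝ) : ℝ :=
  1 / (2 * Real.pi) * ∫ u in (0 : ℝ)..a, (1 - (Real.sin (Real.pi * u) / (Real.pi * u)) ^ 2)

lemma P_eq (a : ℝ) : P a = gp a / (2 * Real.pi) := by
  unfold P
  have e : ∫ u in (0 : ℝ)..a, (1 - (Real.sin (Real.pi * u) / (Real.pi * u)) ^ 2) = gp a := by
    unfold gp
    refine intervalIntegral.integral_congr_ae ?_
    have h0 : ∀ᵐ x : ℝ, x ≠ 0 := by
      rw [ae_iff]
      simp
    filter_upwards [h0] with x hx _
    unfold gd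
    have hpi := Real.pi_pos
    rw [Real.sinc_of_ne_zero (by positivity)]
  rw [e]
  ring

lemma Num_eq (A : ℂ → Prop) [DecidablePred A] (T : ℝ) :
    (Num A T : ℝ) = ∑ s ∈ (Zt T).filter A, mz s := by
  have hf : {s : ℂ | s ∈ ZZ ∧ 0 < s.im ∧ s.im ≤ T ∧ A s}.Finite := by
    refine (zeta_zeros_finite T).subset ?_
    rintro s ⟨⟨h1, h2, h3⟩, h4, h5, -⟩
    exact ⟨h2, h3, h4, h5, h1⟩
  unfold Num
  rw [finsum_mem_eq_finite_toFinset_sum _ hf]
  push_cast
  refine Finset.sum_congr ?_ fun s _ => rfl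
  ext s
  rw [Set.Finite.mem_toFinset, Finset.mem_filter, mem_Zt]
  constructor
  · rintro ⟨⟨h1, h2, h3⟩, h4, h5, h6⟩
    exact ⟨⟨h2, h3, h4, h5, h1⟩, h6⟩
  · rintro ⟨⟨h2, h3, h4, h5, h1⟩, h6⟩
    exact ⟨⟨h1, h2, h3⟩, h4, h5, h6⟩

lemma Num_true (T : ℝ) : (Num (fun _ => True) T : ℝ) = (NN riemannZeta 0 T : ℝ) := by
  classical
  rw [Num_eq, ← sum_Zt]
  refine Finset.sum_congr ?_ fun _ _ => rfl
  ext s
  simp

/-- positive distance of the ordinates from `0` -/
lemma low_zero : ∃ m : ℝ, 0 < m ∧ ∀ s ∈ ZZ, 0 < s.im → m ≤ s.im := by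
  classical
  set F : Finset ℝ := insert 1 ((Zt 1).image Complex.im) with hF
  have hne : F.Nonempty := ⟨1, Finset.mem_insert_self _ _⟩
  refine ⟨F.min' hne, ?_, fun s hs h0 => ?_⟩
  · rw [Finset.lt_min'_iff]
    intro y hy
    rcases Finset.mem_insert.1 hy with rfl | hy
    · exact one_pos
    · obtain ⟨s, hs, rfl⟩ := Finset.mem_image.1 hy
      rw [mem_Zt] at hs
      exact hs.2.2.1
  · rcases le_or_gt s.im 1 with h | h
    · refine Finset.min'_le _ _ (Finset.mem_insert_of_mem (Finset.mem_image_of_mem _ ?_))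
      rw [mem_Zt]
      exact ⟨hs.2.1, hs.2.2, h0, h, hs.1⟩
    · exact (Finset.min'_le _ _ (Finset.mem_insert_self _ _)).trans h.le

lemma Nstar_eq {m : ℝ} (hm : ∀ s ∈ ZZ, 0 < s.im → m ≤ s.im) {T a : ℝ} (hT : 1 < T)
    (ha : 2 * Real.pi * a / Real.log T < m) : (Nstar T a : ℝ) = PC T (Ioc 0 a) := by
  classical
  have hlog : 0 < Real.log T := Real.log_pos hT
  have hpi := Real.pi_pos
  have e : {p : ℂ × ℂ | p.1 ∈ ZZ ∧ p.2 ∈ ZZ ∧ 0 < p.1.im ∧ p.1.im ≤ T ∧
      0 < p.1.im - p.2.im ∧ p.1.im - p.2.im ≤ 2 * Real.pi * a / Real.log T} =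
      ↑((Zt T ×ˢ Zt T).filter (fun p => dd T p.1 p.2 ∈ Ioc 0 a)) := by
    ext p
    rw [Finset.mem_coe, Finset.mem_filter, Finset.mem_product, mem_Zt, mem_Zt]
    have e1 : (0 < p.1.im - p.2.im ∧ p.1.im - p.2.im ≤ 2 * Real.pi * a / Real.log T) ↔
        dd T p.1 p.2 ∈ Ioc 0 a := by
      unfold dd
      rw [mem_Ioc, le_div_iff₀ hlog, div_le_iff₀ (by positivity)]
      constructor
      · rintro ⟨h1, h2⟩
        exact ⟨by positivity, by linarith⟩
      · rintro ⟨h1, h2⟩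
        refine ⟨?_, by linarith⟩
        by_contra hc
        push Not at hc
        have : (p.1.im - p.2.im) * Real.log T / (2 * Real.pi) ≤ 0 :=
          div_nonpos_of_nonpos_of_nonneg (mul_nonpos_of_nonpos_of_nonneg hc hlog.le) (by positivity)
        linarith
    rw [← e1]
    constructor
    · rintro ⟨h1, h2, h3, h4, h5, h6⟩
      have h7 := hm _ h1 h3
      exact ⟨⟨⟨h1.2.1, h1.2.2, h3, h4, h1.1⟩, ⟨h2.2.1, h2.2.2, by linarith, by linarith, h2.1⟩⟩,
        h5, h6⟩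
    · rintro ⟨⟨⟨h1, h2, h3, h4, h5⟩, ⟨k1, k2, k3, k4, k5⟩⟩, h6, h7⟩
      exact ⟨⟨h5, h1, h2⟩, ⟨k5, k1, k2⟩, h3, h4, h6, h7⟩
  unfold Nstar
  rw [e, finsum_mem_coe_finset]
  push_cast
  rw [Finset.sum_filter, Finset.sum_product]
  unfold PC
  refine Finset.sum_congr rfl fun s _ => Finset.sum_congr rfl fun s' _ => ?_
  by_cases h : dd T s s' ∈ Ioc 0 a
  · rw [if_pos h, Set.indicator_of_mem h, mul_one]
    rfl
  · rw [if_neg h, Set.indicator_of_notMem h, mul_zero]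

lemma Dn_eq {T a : ℝ} (ha : 0 ≤ a) : Dn T a = 2 * PC T (Ioc 0 a) / Xf T := by
  unfold Dn Aa
  have e1 : {x : ℝ | |x| ≤ a} = Ico (-a) 0 ∪ ({x | |x| ≤ 0} ∪ Ioc 0 a) := by
    ext x
    simp only [Set.mem_ofPred_eq, Set.mem_union, Set.mem_Ico, Set.mem_Ioc, abs_nonpos_iff]
    rw [abs_le]
    constructor
    · rintro ⟨h1, h2⟩
      rcases lt_trichotomy x 0 with h | h | h
      · exact Or.inl ⟨h1, h⟩
      · exact Or.inr (Or.inl h)
      · exact Or.inr (Or.inr ⟨h, h2⟩)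
    · rintro (⟨h1, h2⟩ | h | ⟨h1, h2⟩)
      · exact ⟨h1, by linarith⟩
      · rw [h]
        exact ⟨by linarith, ha⟩
      · exact ⟨by linarith, h2⟩
  have e2 : PC T (Ico (-a) 0) = PC T (Ioc 0 a) := by
    rw [← PC_neg T (Ioc 0 a)]
    congr 1
    simp
  rw [e1, PC_union T, PC_union T, e2]
  · rw [div_eq_inv_mul]
    ring
  · rw [Set.disjoint_left]
    rintro x (h1 : |x| ≤ 0) h2
    rw [abs_nonpos_iff] at h1
    rw [h1] at h2
    exact lt_irrefl _ h2.1
  · rw [Set.disjoint_left]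
    rintro x h1 (h2 | h2)
    · have h3 : |x| ≤ 0 := h2
      rw [abs_nonpos_iff] at h3
      rw [h3] at h1
      exact lt_irrefl _ h1.2
    · linarith [h1.2, h2.1]

/-- the normalised number of pairs -/
noncomputable def Nq (T a : ℝ) : ℝ := Nstar T a / (T * Real.log T)

lemma Nq_eq (a : ℝ) (ha : 0 ≤ a) : ∀ᶠ T : ℝ in atTop, Nq T a = Dn T a / (4 * Real.pi) := by
  obtain ⟨m, hm0, hm⟩ := low_zero
  have h1 : Tendsto (fun T : ℝ => 2 * Real.pi * a / Real.log T) atTop (𝓝 0) :=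
    Tendsto.div_atTop tendsto_const_nhds Real.tendsto_log_atTop
  filter_upwards [(tendsto_order.1 h1).2 m hm0, eventually_gt_atTop (1 : ℝ)] with T h2 hT
  unfold Nq
  rw [Nstar_eq hm hT h2, Dn_eq ha]
  have hlog : 0 < Real.log T := Real.log_pos hT
  have hpi := Real.pi_pos
  unfold Xf
  field_simp
  ring

/-- the lower limit of `N*(T, a) / (T log T)` is at least `c` -/
def Low (a c : ℝ) : Prop := ∀ ε : ℝ, 0 < ε → ∀ᶠ T : ℝ in atTop,
  (c - ε) * (T * Real.log T) ≤ Nstar T a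

lemma Low_iff {a : ℝ} (ha : 0 ≤ a) (c : ℝ) : Low a c ↔
    ∀ ε : ℝ, 0 < ε → ∀ᶠ T : ℝ in atTop, 4 * Real.pi * c - ε ≤ Dn T a := by
  have hpi := Real.pi_pos
  constructor
  · intro h ε hε
    filter_upwards [h (ε / (4 * Real.pi)) (by positivity), Nq_eq a ha,
      eventually_gt_atTop (1 : ℝ)] with T h1 h2 hT
    have hX : 0 < T * Real.log T := mul_pos (by linarith) (Real.log_pos hT)
    unfold Nq at h2
    rw [← le_div_iff₀ hX, h2, le_div_iff₀ (by positivity)] at h1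
    have e : (c - ε / (4 * Real.pi)) * (4 * Real.pi) = 4 * Real.pi * c - ε := by
      field_simp
    linarith
  · intro h ε hε
    filter_upwards [h (4 * Real.pi * ε) (by positivity), Nq_eq a ha,
      eventually_gt_atTop (1 : ℝ)] with T h1 h2 hT
    have hX : 0 < T * Real.log T := mul_pos (by linarith) (Real.log_pos hT)
    unfold Nq at h2
    rw [← le_div_iff₀ hX, h2, le_div_iff₀ (by positivity)]
    linarith

lemma Tend_iff {a : ℝ} (ha : 0 ≤ a) :
    Tendsto (fun T => Nq T a) atTop (𝓝 (P a)) ↔ Tendsto (fun T => Dn T a) atTop (𝓝 (2 * gp a)) := by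
  have hpi := Real.pi_pos
  rw [tendsto_congr' (Nq_eq a ha), P_eq]
  constructor
  · intro h
    have h1 := h.mul_const (4 * Real.pi)
    have e : gp a / (2 * Real.pi) * (4 * Real.pi) = 2 * gp a := by
      field_simp
      ring
    rw [e] at h1
    refine h1.congr fun T => ?_
    field_simp
  · intro h
    have h1 := h.div_const (4 * Real.pi)
    have e : 2 * gp a / (4 * Real.pi) = gp a / (2 * Real.pi) := by
      field_simp
      ring
    rwa [e] at h1

lemma deriv_ne_of_simple {s : ℂ} (hs : s ≠ 1) (h0 : riemannZeta s = 0)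
    (h1 : H370.mult riemannZeta s = 1) : deriv riemannZeta s ≠ 0 := by
  have hd : DifferentiableOn ℂ riemannZeta ({1}ᶜ : Set ℂ) := fun z hz =>
    (differentiableAt_riemannZeta hz).differentiableWithinAt
  have ha : AnalyticAt ℂ riemannZeta s := hd.analyticAt (isOpen_compl_singleton.mem_nhds hs)
  unfold H370.mult at h1
  have h2 : analyticOrderAt riemannZeta s = 1 := by
    unfold analyticOrderNatAt at h1
    have h3 : analyticOrderAt riemannZeta s ≠ ⊤ := by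
      intro h4; rw [h4] at h1; simp at h1
    rw [← ENat.natCast_toNat h3, h1]; rfl
  have h3 := ha.analyticOrderAt_deriv_add_one
  simp only [h0, sub_zero] at h3
  rw [h2] at h3
  have h4 : analyticOrderAt (deriv riemannZeta) s = 0 := by
    revert h3
    generalize analyticOrderAt (deriv riemannZeta) s = x
    intro h3
    cases x with
    | top => simp at h3
    | coe n =>
      have h6 : n + 1 = 1 := by exact_mod_cast h3
      have h7 : n = 0 := by omega
      rw [h7]; rfl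
  exact ha.deriv.analyticOrderAt_eq_zero.mp h4

/-- the bad zeros -/
lemma bad_le (T : ℝ) : (Num (fun s => s.re ≠ 1 / 2 ∨ deriv riemannZeta s = 0) T : ℝ) ≤
    ∑ s ∈ Zt 1, mz s + (∑ s ∈ Zt T, (mz s ^ 2 - mz s) + ∑ s ∈ Zo T, mz s) := by
  classical
  rw [Num_eq]
  have h1 : ∀ s ∈ (Zt T).filter (fun s => s.re ≠ 1 / 2 ∨ deriv riemannZeta s = 0),
      mz s ≤ (if s ∈ Zt 1 then mz s else 0) + ((mz s ^ 2 - mz s) +
        (if s ∈ Zo T then mz s else 0)) := by
    intro s hs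
    obtain ⟨h2, h3⟩ := Finset.mem_filter.1 hs
    rw [mem_Zt] at h2
    have hm := mz_nonneg s
    have hsq := mz_sq s
    have i1 : 0 ≤ (if s ∈ Zt 1 then mz s else 0) := by split_ifs <;> linarith
    have i2 : 0 ≤ (if s ∈ Zo T then mz s else 0) := by split_ifs <;> linarith
    rcases le_or_gt s.im 1 with h4 | h4
    · have h5 : s ∈ Zt 1 := by
        rw [mem_Zt]
        exact ⟨h2.1, h2.2.1, h2.2.2.1, h4, h2.2.2.2.2⟩
      rw [if_pos h5]
      linarith
    · rcases h3 with h3 | h3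
      · have h5 : s ∈ Zo T := by
          unfold Zo
          rw [Finset.mem_filter, mem_Zb le_rfl]
          exact ⟨⟨h2.1, h2.2.1, h4, h2.2.2.2.1, h2.2.2.2.2⟩, h3⟩
        rw [if_pos h5]
        linarith
      · have hne : s ≠ 1 := by
          rintro rfl
          exact absurd h2.2.1 (by simp)
        have h5 : mult riemannZeta s ≠ 1 := fun h => deriv_ne_of_simple hne h2.2.2.2.2 h h3
        have h6 : mz s = 0 ∨ 2 ≤ mz s := by
          unfold mz
          rcases Nat.lt_or_ge (mult riemannZeta s) 2 with h | h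
          · left
            have : mult riemannZeta s = 0 := by omega
            rw [this]
            simp
          · right
            exact_mod_cast h
        rcases h6 with h6 | h6
        · rw [h6]
          rw [h6] at i1 i2
          simp
        · nlinarith
  refine (Finset.sum_le_sum h1).trans ?_
  have h2 : ∀ s, 0 ≤ (if s ∈ Zt 1 then mz s else 0) + ((mz s ^ 2 - mz s) +
        (if s ∈ Zo T then mz s else 0)) := by
    intro s
    have hm := mz_nonneg s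
    have hsq := mz_sq s
    have i1 : 0 ≤ (if s ∈ Zt 1 then mz s else 0) := by split_ifs <;> linarith
    have i2 : 0 ≤ (if s ∈ Zo T then mz s else 0) := by split_ifs <;> linarith
    linarith
  refine (Finset.sum_le_sum_of_subset_of_nonneg (Finset.filter_subset _ _) fun s _ _ =>
    h2 s).trans ?_
  rw [Finset.sum_add_distrib, Finset.sum_add_distrib]
  refine add_le_add ?_ (add_le_add le_rfl ?_)
  · rw [← Finset.sum_filter]
    refine Finset.sum_le_sum_of_subset_of_nonneg (fun s hs => (Finset.mem_filter.1 hs).2)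
      fun s _ _ => mz_nonneg s
  · rw [← Finset.sum_filter]
    refine Finset.sum_le_sum_of_subset_of_nonneg (fun s hs => (Finset.mem_filter.1 hs).2)
      fun s _ _ => mz_nonneg s

lemma Xf_lt : ∀ᶠ T : ℝ in atTop, Xf T ≤ 2 * (Num (fun _ => True) T : ℝ) ∧
    (Num (fun _ => True) T : ℝ) ≤ 2 * Xf T := by
  obtain ⟨T0, hT0, h1⟩ := Pool.Agent.W54.TCF.NT_asymp' (1 / 2) (by norm_num)
  filter_upwards [eventually_ge_atTop T0] with T hT
  obtain ⟨h2, h3⟩ := h1 T hT
  have e : T / (2 * Real.pi) * Real.log T = Xf T := by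
    unfold Xf
    ring
  have hX := Xf_pos (V := T) (by linarith)
  rw [Num_true]
  rw [e] at h2 h3
  constructor <;> linarith

/-- the exceptions when the diagonal is small -/
lemma bad_lim {η : ℝ} (hη : 0 ≤ η)
    (h : ∀ ε : ℝ, 0 < ε → ∀ᶠ T in atTop, Aa T 0 ≤ 1 + 2 * η + ε) :
    ∀ ε : ℝ, 0 < ε → ∀ᶠ T : ℝ in atTop,
      (Num (fun s => s.re ≠ 1 / 2 ∨ deriv riemannZeta s = 0) T : ℝ) ≤
        (2 * η + ε) * Num (fun _ => True) T := by
  intro ε hε
  set κ : ℝ := ε / (2 * η + ε + 4) with hκ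
  have hden : 0 < 2 * η + ε + 4 := by positivity
  have hκ0 : 0 < κ := by positivity
  have hκ1 : κ < 1 := by
    rw [hκ, div_lt_one hden]
    linarith
  obtain ⟨T0, hT0, h1⟩ := Pool.Agent.W54.TCF.NT_asymp' κ hκ0
  have h2 : Tendsto (fun T : ℝ => (∑ s ∈ Zt 1, mz s) / Xf T) atTop (𝓝 0) := by
    refine Tendsto.div_atTop tendsto_const_nhds ?_
    unfold Xf
    refine Tendsto.atTop_div_const (by positivity) ?_
    exact tendsto_id.atTop_mul_atTop₀ Real.tendsto_log_atTop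
  filter_upwards [excess_lim h κ hκ0, (tendsto_order.1 h2).2 κ hκ0, eventually_ge_atTop T0]
    with T a1 a2 a3
  have hX := Xf_pos (V := T) (by linarith)
  rw [div_lt_iff₀ hX] at a2
  have h3 := (h1 T a3).1
  have e : T / (2 * Real.pi) * Real.log T = Xf T := by
    unfold Xf
    ring
  rw [e] at h3
  rw [Num_true]
  refine (bad_le T).trans ?_
  have h4 : (2 * η + ε) * ((1 - κ) * Xf T) ≤ (2 * η + ε) * (NN riemannZeta 0 T : ℝ) :=
    mul_le_mul_of_nonneg_left h3 (by positivity)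
  have h5 : κ * (2 * η + ε + 4) = ε := by
    rw [hκ]
    field_simp
  have h6 : 2 * η + 2 * κ ≤ (2 * η + ε) * (1 - κ) := by nlinarith
  have h7 : (2 * η + 2 * κ) * Xf T ≤ (2 * η + ε) * (1 - κ) * Xf T :=
    mul_le_mul_of_nonneg_right h6 hX.le
  linarith

/-- almost all zeros are on the line -/
lemma onl_of_num (h : Tendsto (fun T => (Num (fun s => s.re ≠ 1 / 2) T : ℝ) /
    Num (fun _ => True) T) atTop (𝓝 0)) : Onl := by
  classical
  refine onl_of fun ε hε => ?_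
  filter_upwards [(tendsto_order.1 h).2 (ε / 2) (by positivity), Xf_lt,
    eventually_gt_atTop (1 : ℝ)] with T h1 h2 hT
  have hX := Xf_pos hT
  have hN : 0 < (Num (fun _ => True) T : ℝ) := by linarith
  rw [div_lt_iff₀ hN] at h1
  have h3 : ∑ s ∈ Zo T, mz s ≤ (Num (fun s => s.re ≠ 1 / 2) T : ℝ) := by
    rw [Num_eq]
    refine Finset.sum_le_sum_of_subset_of_nonneg (fun s hs => ?_) fun s _ _ => mz_nonneg s
    rw [Finset.mem_filter]
    exact ⟨Zo_sub T hs, (Finset.mem_filter.1 hs).2⟩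
  have h4 : ε / 2 * (Num (fun _ => True) T : ℝ) ≤ ε / 2 * (2 * Xf T) :=
    mul_le_mul_of_nonneg_left h2.2 (by positivity)
  linarith

/-- one-sided bound for the pairs at distance in `(a, a + ℓ]`, with an exponentially small loss -/
def Win (ℓ s : ℝ) : Prop := ∃ C c A : ℝ, 0 < C ∧ 0 < c ∧ 0 < A ∧ ∀ a : ℝ, A ≤ a →
  ∀ ε : ℝ, 0 < ε → ∀ᶠ T : ℝ in atTop,
    s * (((Nstar T (a + ℓ) : ℝ) - Nstar T a) / (T * Real.log T) - (P (a + ℓ) - P a)) ≤
      C * Real.exp (-(c * a)) + ε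

/-- the conjecture -/
def Mont : Prop := ∀ a : ℝ, 0 < a → Tendsto (fun T => (Nstar T a : ℝ) / (T * Real.log T)) atTop
  (𝓝 (P a))

lemma Mont_of (h : ∀ x, Tendsto (fun T => Aa T x) atTop (𝓝 (AG x))) : Mont := by
  intro a ha
  refine (Tend_iff ha.le).2 ?_
  have h1 := (h a).sub (h 0)
  have e : AG a - AG 0 = 2 * gp a := by
    unfold AG
    rw [if_neg (by linarith), if_neg (lt_irrefl _), gp_zero]
    ring
  rw [e] at h1
  exact h1

lemma Win_of {ℓ s : ℝ} (hℓ : 0 < ℓ) (hs : s = 1 ∨ s = -1) {A : ℝ}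
    (h : ∀ a : ℝ, A ≤ a → Tendsto (fun T => (Nstar T a : ℝ) / (T * Real.log T)) atTop
      (𝓝 (P a))) : Win ℓ s := by
  refine ⟨1, 1, max A 1, one_pos, one_pos, lt_max_of_lt_right one_pos, fun a ha ε hε => ?_⟩
  have h1 := (h (a + ℓ) (by linarith [(le_max_left A 1).trans ha])).sub
    (h a ((le_max_left A 1).trans ha))
  filter_upwards [(Metric.tendsto_nhds.1 h1) ε hε] with T hT
  rw [Real.dist_eq, ← sub_div] at hT
  have h2 := abs_lt.1 hT
  have h3 := Real.exp_pos (-(1 * a))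
  rcases hs with rfl | rfl <;> linarith [h2.1, h2.2]

/-- rigidity in terms of `N*` -/
theorem rigid_N (hl : Onl) {l1 l2 s1 s2 : ℝ} (hl1 : 0 < l1) (hl2 : 0 < l2)
    (hirr : Irrational (l1 / l2)) (hs1 : s1 = 1 ∨ s1 = -1) (hs2 : s2 = 1 ∨ s2 = -1)
    (h1 : Win l1 s1) (h2 : Win l2 s2) : Mont := by
  obtain ⟨C1, c1, a1, hC1, hc1, ha1, h1⟩ := h1
  obtain ⟨C2, c2, a2, hC2, hc2, ha2, h2⟩ := h2
  have hpi := Real.pi_pos
  have hneg : ∀ s : ℝ, (s = 1 ∨ s = -1) → (-s = 1 ∨ -s = -1) := by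
    rintro s (rfl | rfl)
    · right; rfl
    · left; norm_num
  have conv : ∀ (ℓ s C c a0 : ℝ), 0 < ℓ → 0 < C → 0 < a0 → min c1 c2 ≤ c → C ≤ max C1 C2 →
      a0 ≤ max a1 a2 →
      (∀ a : ℝ, a0 ≤ a → ∀ ε : ℝ, 0 < ε → ∀ᶠ T : ℝ in atTop,
        s * (((Nstar T (a + ℓ) : ℝ) - Nstar T a) / (T * Real.log T) - (P (a + ℓ) - P a)) ≤
          C * Real.exp (-(c * a)) + ε) →
      ∀ a, max a1 a2 ≤ a → ∀ ε, 0 < ε → ∀ᶠ T in atTop,
        -(4 * Real.pi * max C1 C2 * Real.exp (-(min c1 c2 * a))) - ε ≤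
          -s * (Aa T (a + ℓ) - Aa T a - 2 * (gp (a + ℓ) - gp a)) := by
    intro ℓ s C c a0 hℓ hC ha0 hcc hCC haa h a ha ε hε
    have hapos : 0 < a := by
      have h0 : (0 : ℝ) < max a1 a2 := lt_max_of_lt_left ha1
      linarith
    filter_upwards [h a (haa.trans ha) (ε / (4 * Real.pi)) (by positivity), Nq_eq a hapos.le,
      Nq_eq (a + ℓ) (by linarith)] with T hT e1 e2
    unfold Nq at e1 e2
    rw [sub_div, e1, e2, P_eq, P_eq] at hT
    have h3 : C * Real.exp (-(c * a)) ≤ max C1 C2 * Real.exp (-(min c1 c2 * a)) := by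
      refine mul_le_mul hCC (Real.exp_le_exp.2 ?_) (Real.exp_pos _).le (by linarith)
      nlinarith
    have h4 := mul_le_mul_of_nonneg_left (hT.trans (add_le_add_left h3 _))
      (show (0 : ℝ) ≤ 4 * Real.pi by positivity)
    have e3 : 4 * Real.pi * (s * (Dn T (a + ℓ) / (4 * Real.pi) - Dn T a / (4 * Real.pi) -
        (gp (a + ℓ) / (2 * Real.pi) - gp a / (2 * Real.pi)))) =
        s * (Aa T (a + ℓ) - Aa T a - 2 * (gp (a + ℓ) - gp a)) := by
      unfold Dn
      field_simp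
      ring
    have e4 : 4 * Real.pi * (max C1 C2 * Real.exp (-(min c1 c2 * a)) + ε / (4 * Real.pi)) =
        4 * Real.pi * max C1 C2 * Real.exp (-(min c1 c2 * a)) + ε := by
      field_simp
    rw [e3, e4] at h4
    linarith
  exact Mont_of (rigidU hl hl1 hl2 hirr (hneg s1 hs1) (hneg s2 hs2)
    (C := 4 * Real.pi * max C1 C2) (c := min c1 c2) (a0 := max a1 a2) (by positivity)
    (lt_min hc1 hc2) (lt_max_of_lt_left ha1)
    (conv l1 s1 C1 c1 a1 hl1 hC1 ha1 (min_le_left _ _) (le_max_left _ _) (le_max_left _ _) h1)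
    (conv l2 s2 C2 c2 a2 hl2 hC2 ha2 (min_le_right _ _) (le_max_right _ _) (le_max_right _ _) h2))

/-- the lower half of the conjecture for large distances, up to `η / (2π)` -/
def LowLarge (η : ℝ) : Prop :=
  ∀ ε : ℝ, 0 < ε → ∃ A : ℝ, ∀ a : ℝ, A ≤ a → Low a (P a - (η + ε) / (2 * Real.pi))

/-- almost all zeros are simple and on the critical line -/
def Good : Prop := Tendsto (fun T => (Num (fun s => s.re ≠ 1 / 2 ∨ deriv riemannZeta s = 0) T : ℝ) /
  Num (fun _ => True) T) atTop (𝓝 0)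

/-- the hypothesis of `diag_bound` -/
lemma hyp_conv {η : ℝ} (h : LowLarge η) :
    ∀ ε : ℝ, 0 < ε → ∃ a0 : ℝ, ∀ y, a0 ≤ y → ∀ᶠ T in atTop, 2 * gp y - 2 * η - ε ≤ Dn T y := by
  have hpi := Real.pi_pos
  intro ε hε
  obtain ⟨A, hA⟩ := h (ε / 4) (by positivity)
  refine ⟨max A 0, fun y hy => ?_⟩
  have h1 := (Low_iff ((le_max_right _ _).trans hy) _).1 (hA y ((le_max_left _ _).trans hy))
    (ε / 2) (by positivity)
  filter_upwards [h1] with T hT
  rw [P_eq] at hT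
  have e : 4 * Real.pi * (gp y / (2 * Real.pi) - (η + ε / 4) / (2 * Real.pi)) - ε / 2 =
      2 * gp y - 2 * η - ε := by
    field_simp
    ring
  linarith

lemma diag_one (h : LowLarge 0) : ∀ ε : ℝ, 0 < ε → ∀ᶠ T in atTop, Aa T 0 ≤ 1 + ε := by
  intro ε hε
  filter_upwards [diag_bound (η := 0) le_rfl (hyp_conv h) ε hε] with T hT
  linarith

lemma good_of (h : ∀ ε : ℝ, 0 < ε → ∀ᶠ T in atTop, Aa T 0 ≤ 1 + ε) : Good := by
  unfold Good
  rw [Metric.tendsto_nhds]
  intro ε hε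
  have h1 := bad_lim (η := 0) le_rfl (fun ε hε => by
    filter_upwards [h ε hε] with T hT
    linarith) (ε / 2) (by positivity)
  filter_upwards [h1, Xf_lt, eventually_gt_atTop (1 : ℝ)] with T h2 h3 hT
  have hX := Xf_pos hT
  have hN : 0 < (Num (fun _ => True) T : ℝ) := by linarith [h3.1]
  rw [Real.dist_eq, sub_zero, abs_of_nonneg (by positivity), div_lt_iff₀ hN]
  have h4 : 0 < ε * (Num (fun _ => True) T : ℝ) := by positivity
  linarith

lemma low_of {a c : ℝ} (hc : c ≤ P a)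
    (h : Tendsto (fun T => (Nstar T a : ℝ) / (T * Real.log T)) atTop (𝓝 (P a))) : Low a c := by
  intro ε hε
  filter_upwards [(tendsto_order.1 h).1 (P a - ε) (by linarith), eventually_gt_atTop (1 : ℝ)]
    with T h1 hT
  have hX : 0 < T * Real.log T := mul_pos (by linarith) (Real.log_pos hT)
  rw [lt_div_iff₀ hX] at h1
  exact (mul_le_mul_of_nonneg_right (by linarith) hX.le).trans h1.le

lemma lowLarge_of {A : ℝ} (h : ∀ a : ℝ, A ≤ a → Tendsto (fun T => (Nstar T a : ℝ) /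
    (T * Real.log T)) atTop (𝓝 (P a))) : LowLarge 0 := by
  intro ε hε
  refine ⟨A, fun a ha => low_of ?_ (h a ha)⟩
  have hpi := Real.pi_pos
  have : 0 ≤ (0 + ε) / (2 * Real.pi) := by positivity
  linarith

/-- **main theorem** -/
theorem main :
    (∀ η : ℝ, 0 ≤ η → LowLarge η → ∀ ε : ℝ, 0 < ε → ∀ᶠ T : ℝ in atTop,
      (Num (fun s => s.re ≠ 1 / 2 ∨ deriv riemannZeta s = 0) T : ℝ) ≤
        (2 * η + ε) * Num (fun _ => True) T) ∧
    ((∀ a : ℝ, 0 < a → Low a (P a)) → Mont ∧ Good) ∧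
    (Tendsto (fun T => (Num (fun s => s.re ≠ 1 / 2) T : ℝ) / Num (fun _ => True) T) atTop (𝓝 0) →
      ∀ ℓ₁ ℓ₂ s₁ s₂ : ℝ, 0 < ℓ₁ → 0 < ℓ₂ → Irrational (ℓ₁ / ℓ₂) → (s₁ = 1 ∨ s₁ = -1) →
        (s₂ = 1 ∨ s₂ = -1) → (Mont ↔ Win ℓ₁ s₁ ∧ Win ℓ₂ s₂)) ∧
    (∀ ℓ₁ ℓ₂ s₁ s₂ : ℝ, 0 < ℓ₁ → 0 < ℓ₂ → Irrational (ℓ₁ / ℓ₂) → (s₁ = 1 ∨ s₁ = -1) →
      (s₂ = 1 ∨ s₂ = -1) → (Mont ↔ LowLarge 0 ∧ Win ℓ₁ s₁ ∧ Win ℓ₂ s₂)) ∧
    (∀ A : ℝ, (∀ a : ℝ, A ≤ a → Tendsto (fun T => (Nstar T a : ℝ) / (T * Real.log T)) atTop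
      (𝓝 (P a))) → Mont ∧ Good) := by
  have hpi := Real.pi_pos
  have h4 : ∀ l1 l2 s1 s2 : ℝ, 0 < l1 → 0 < l2 → Irrational (l1 / l2) → (s1 = 1 ∨ s1 = -1) →
      (s2 = 1 ∨ s2 = -1) → (Mont ↔ LowLarge 0 ∧ Win l1 s1 ∧ Win l2 s2) := by
    intro l1 l2 s1 s2 hl1 hl2 hirr hs1 hs2
    constructor
    · intro h
      exact ⟨lowLarge_of (A := 1) fun a ha => h a (by linarith),
        Win_of hl1 hs1 (A := 1) fun a ha => h a (by linarith),
        Win_of hl2 hs2 (A := 1) fun a ha => h a (by linarith)⟩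
    · rintro ⟨h1, h2, h3⟩
      exact rigid_N (onl_of_diag (diag_one h1)) hl1 hl2 hirr hs1 hs2 h2 h3
  refine ⟨fun η hη h => bad_lim hη (diag_bound hη (hyp_conv h)), fun h => ⟨?_, ?_⟩,
    fun h l1 l2 s1 s2 hl1 hl2 hirr hs1 hs2 => ?_, h4, fun A h => ⟨?_, ?_⟩⟩
  · intro a ha
    refine (Tend_iff ha.le).2 (closure (fun y hy ε hε => ?_) a ha)
    have h1 := (Low_iff hy.le _).1 (h y hy) ε hε
    filter_upwards [h1] with T hT
    rw [P_eq] at hT
    have e : 4 * Real.pi * (gp y / (2 * Real.pi)) = 2 * gp y := by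
      field_simp
      ring
    linarith
  · refine good_of (diag_one fun ε hε => ⟨1, fun a ha ε' hε' => ?_⟩)
    filter_upwards [h a (by linarith) ε' hε', eventually_gt_atTop (1 : ℝ)] with T h1 hT
    have hX : 0 < T * Real.log T := mul_pos (by linarith) (Real.log_pos hT)
    have h2 : 0 ≤ (0 + ε) / (2 * Real.pi) := by positivity
    exact (mul_le_mul_of_nonneg_right (by linarith) hX.le).trans h1
  · constructor
    · intro hM
      exact ⟨Win_of hl1 hs1 (A := 1) fun a ha => hM a (by linarith),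
        Win_of hl2 hs2 (A := 1) fun a ha => hM a (by linarith)⟩
    · rintro ⟨h1, h2⟩
      exact rigid_N (onl_of_num h) hl1 hl2 hirr hs1 hs2 h1 h2
  · have hsq : Irrational (Real.sqrt 2 / 1) := by
      rw [div_one]
      exact irrational_sqrt_two
    exact (h4 (Real.sqrt 2) 1 1 1 (by positivity) one_pos hsq (Or.inl rfl) (Or.inl rfl)).2
      ⟨lowLarge_of h, Win_of (by positivity) (Or.inl rfl) h, Win_of one_pos (Or.inl rfl) h⟩
  · exact good_of (diag_one (lowLarge_of h))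

end Q241.OP
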