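import Pool.Agent.Q241.OP.Fin
import Pool.Agent.Y744.PCR.Fin2

/-! # The statements for closed windows of differences -/

set_option autoImplicit false

open MeasureTheory Filter Topology Set

namespace Q241.OP.G

open H370 TH803TW Pool.Agent.Y744

/-- the nontrivial zeros of `ζ` with ordinate in `[0, T]` -/
def zeros (T : ℝ) : Set ℂ :=
  {s : ℂ | riemannZeta s = 0 ∧ 0 < s.re ∧ s.re < 1 ∧ 0 ≤ s.im ∧ s.im ≤ T}

/-- the multiplicity of a zero -/
noncomputable def mult (s : ℂ) : ℕ := analyticOrderNatAt riemannZeta s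

/-- the number of pairs of the problem -/
noncomputable def N (T α β : ℝ) : ℕ :=
  ∑ᶠ p ∈ {p : ℂ × ℂ | p.1 ∈ zeros T ∧ p.2 ∈ zeros T ∧
    α ≤ (p.1.im - p.2.im) * Real.log T / (2 * Real.pi) ∧
    (p.1.im - p.2.im) * Real.log T / (2 * Real.pi) ≤ β}, mult p.1 * mult p.2

/-- the pair correlation function -/
noncomputable def F (u : ℝ) : ℝ := 1 - (Real.sin (Real.pi * u) / (Real.pi * u)) ^ 2

/-- the normalisation -/
noncomputable def X (T : ℝ) : ℝ := T * Real.log T / (2 * Real.pi)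

lemma intF (α β : ℝ) : ∫ u in α..β, F u = gp β - gp α := by
  rw [gp_sub]
  refine intervalIntegral.integral_congr_ae ?_
  have h0 : ∀ᵐ x : ℝ, x ≠ 0 := by
    rw [ae_iff]
    simp
  filter_upwards [h0] with x hx _
  unfold gd F
  have hpi := Real.pi_pos
  rw [Real.sinc_of_ne_zero (by positivity)]

lemma N_eq {m : ℝ} (hm : ∀ s ∈ ZZ, 0 < s.im → m ≤ s.im) {T α β : ℝ} (hT : 1 < T)
    (hα : 0 < α) (hb : 2 * Real.pi * β / Real.log T < m) :
    (N T α β : ℝ) = PC T (Icc α β) := by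
  classical
  have hlog : 0 < Real.log T := Real.log_pos hT
  have hpi := Real.pi_pos
  have e : {p : ℂ × ℂ | p.1 ∈ zeros T ∧ p.2 ∈ zeros T ∧
      α ≤ (p.1.im - p.2.im) * Real.log T / (2 * Real.pi) ∧
      (p.1.im - p.2.im) * Real.log T / (2 * Real.pi) ≤ β} =
      ↑((Zt T ×ˢ Zt T).filter (fun p => dd T p.1 p.2 ∈ Icc α β)) := by
    ext p
    rw [Finset.mem_coe, Finset.mem_filter, Finset.mem_product, mem_Zt, mem_Zt]
    constructor
    · rintro ⟨⟨h1, h2, h3, h4, h5⟩, ⟨k1, k2, k3, k4, k5⟩, h6, h7⟩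
      have h8 : 0 < (p.1.im - p.2.im) * Real.log T / (2 * Real.pi) := hα.trans_le h6
      have h9 : 0 < p.1.im - p.2.im := by
        by_contra hc
        push Not at hc
        have : (p.1.im - p.2.im) * Real.log T / (2 * Real.pi) ≤ 0 :=
          div_nonpos_of_nonpos_of_nonneg (mul_nonpos_of_nonpos_of_nonneg hc hlog.le) (by positivity)
        linarith
      have h10 : p.1.im - p.2.im ≤ 2 * Real.pi * β / Real.log T := by
        rw [le_div_iff₀ hlog]
        rw [div_le_iff₀ (by positivity)] at h7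
        linarith
      have h11 := hm _ (show p.1 ∈ ZZ from ⟨h1, h2, h3⟩) (by linarith)
      exact ⟨⟨⟨h2, h3, by linarith, h5, h1⟩, ⟨k2, k3, by linarith, k5, k1⟩⟩, h6, h7⟩
    · rintro ⟨⟨⟨h1, h2, h3, h4, h5⟩, ⟨k1, k2, k3, k4, k5⟩⟩, h6, h7⟩
      exact ⟨⟨h5, h1, h2, h3.le, h4⟩, ⟨k5, k1, k2, k3.le, k4⟩, h6, h7⟩
  unfold N
  rw [e, finsum_mem_coe_finset]
  push_cast
  rw [Finset.sum_filter, Finset.sum_product]
  unfold PC
  refine Finset.sum_congr rfl fun s _ => Finset.sum_congr rfl fun s' _ => ?_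
  by_cases h : dd T s s' ∈ Icc α β
  · rw [if_pos h, Set.indicator_of_mem h, mul_one]
    rfl
  · rw [if_neg h, Set.indicator_of_notMem h, mul_zero]

lemma Nr_eq {α : ℝ} (hα : 0 < α) (β : ℝ) : ∀ᶠ T : ℝ in atTop,
    (N T α β : ℝ) / X T = Nr T α β := by
  obtain ⟨m, hm0, hm⟩ := low_zero
  have h1 : Tendsto (fun T : ℝ => 2 * Real.pi * β / Real.log T) atTop (𝓝 0) :=
    Tendsto.div_atTop tendsto_const_nhds Real.tendsto_log_atTop
  filter_upwards [(tendsto_order.1 h1).2 m hm0, eventually_gt_atTop (1 : ℝ)] with T h2 hT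
  rw [N_eq hm hT hα h2]
  rfl

/-- the lower limit of `N(T; α, β) / X(T)` is at least `c` -/
def Low (α β c : ℝ) : Prop := ∀ ε : ℝ, 0 < ε → ∀ᶠ T : ℝ in atTop, (c - ε) * X T ≤ N T α β

lemma Low_Nr {α β c : ℝ} (hα : 0 < α) (h : Low α β c) (ε : ℝ) (hε : 0 < ε) :
    ∀ᶠ T : ℝ in atTop, c - ε ≤ Nr T α β := by
  filter_upwards [h ε hε, Nr_eq hα β, eventually_gt_atTop (1 : ℝ)] with T h1 h2 hT
  have hX : 0 < X T := Xf_pos hT
  rw [← h2, le_div_iff₀ hX]
  exact h1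

lemma Dn_ge {T α β : ℝ} (hT : 1 < T) (hα : 0 < α) (hβ : 0 ≤ β) : 2 * Nr T α β ≤ Dn T β := by
  rw [Dn_eq hβ, mul_div_assoc]
  unfold Nr
  refine mul_le_mul_of_nonneg_left (div_le_div_of_nonneg_right ?_ (Xf_pos hT).le) zero_le_two
  exact PC_mono T fun x hx => ⟨hα.trans_le hx.1, hx.2⟩

/-- the conjecture -/
def Mont : Prop := ∀ α β : ℝ, 0 < α → α < β →
  Tendsto (fun T => (N T α β : ℝ) / (X T * ∫ u in α..β, F u)) atTop (𝓝 1)

lemma int_pos {α β : ℝ} (hα : 0 < α) (h : α < β) : 0 < ∫ u in α..β, F u := by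
  rw [intF, gp_sub]
  refine intervalIntegral.integral_pos h gd_cont.continuousOn (fun u _ => gd_nonneg u)
    ⟨β, ⟨h.le, le_rfl⟩, ?_⟩
  unfold gd
  have hpi := Real.pi_pos
  have h1 : |Real.sinc (Real.pi * β)| < 1 := by
    have hx : 0 < Real.pi * β := mul_pos hpi (by linarith)
    rw [Real.sinc_of_ne_zero hx.ne', abs_div, div_lt_one (by positivity)]
    rcases le_or_gt (Real.pi * β) 1 with h2 | h2
    · have h3 := Real.sin_pos_of_pos_of_lt_pi hx (by linarith [Real.pi_gt_three])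
      rw [abs_of_pos h3, abs_of_pos hx]
      exact Real.sin_lt hx
    · rw [abs_of_pos hx]
      exact (Real.abs_sin_le_one _).trans_lt h2
  have h2 := (sq_lt_one_iff_abs_lt_one _).2 h1
  linarith

/-- the asymptotic formula for one window -/
def As (α β : ℝ) : Prop :=
  Tendsto (fun T => (N T α β : ℝ) / (X T * ∫ u in α..β, F u)) atTop (𝓝 1)

lemma As_iff {α β : ℝ} (hα : 0 < α) (h : α < β) :
    As α β ↔ Tendsto (fun T => Nr T α β) atTop (𝓝 (gp β - gp α)) := by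
  have h0 := int_pos hα h
  unfold As
  have e : (fun T => (N T α β : ℝ) / (X T * ∫ u in α..β, F u)) =ᶠ[atTop]
      fun T => Nr T α β / (gp β - gp α) := by
    filter_upwards [Nr_eq hα β] with T h1
    rw [← h1, ← intF, div_div]
  rw [intF] at h0
  rw [tendsto_congr' e]
  constructor
  · intro h1
    have h2 := h1.mul_const (gp β - gp α)
    rw [one_mul] at h2
    refine h2.congr fun T => ?_
    field_simp
  · intro h1
    have h2 := h1.div_const (gp β - gp α)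
    rwa [div_self h0.ne'] at h2

lemma Mont_of (h : ∀ x, Tendsto (fun T => Aa T x) atTop (𝓝 (AG x))) : Mont := by
  intro α β hα hαβ
  exact (As_iff hα hαβ).2 (Nr_pos le_rfl h hα hαβ)

/-- one-sided bound for the windows of length `ℓ`, with an exponentially small loss -/
def Win (ℓ s : ℝ) : Prop := ∃ C c A : ℝ, 0 < C ∧ 0 < c ∧ 0 < A ∧ ∀ a : ℝ, A ≤ a →
  ∀ ε : ℝ, 0 < ε → ∀ᶠ T : ℝ in atTop,
    s * ((N T a (a + ℓ) : ℝ) / X T - ∫ u in a..(a + ℓ), F u) ≤ C * Real.exp (-(c * a)) + ε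

lemma Win_of {ℓ s : ℝ} (hℓ : 0 < ℓ) (hs : s = 1 ∨ s = -1) {A : ℝ}
    (h : ∀ a : ℝ, A ≤ a → 0 < a → As a (a + ℓ)) : Win ℓ s := by
  refine ⟨1, 1, max A 1, one_pos, one_pos, lt_max_of_lt_right one_pos, fun a ha ε hε => ?_⟩
  have ha0 : 0 < a := lt_of_lt_of_le one_pos ((le_max_right _ _).trans ha)
  have h1 := (As_iff ha0 (by linarith)).1 (h a ((le_max_left _ _).trans ha) ha0)
  filter_upwards [(Metric.tendsto_nhds.1 h1) ε hε, Nr_eq ha0 (a + ℓ)] with T hT e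
  rw [Real.dist_eq] at hT
  rw [e, intF]
  have h2 := abs_lt.1 hT
  have h3 := Real.exp_pos (-(1 * a))
  rcases hs with rfl | rfl <;> linarith [h2.1, h2.2]

/-- rigidity in terms of `N` -/
theorem rigid_N (hl : Onl) {l1 l2 s1 s2 : ℝ} (hl1 : 0 < l1) (hl2 : 0 < l2)
    (hirr : Irrational (l1 / l2)) (hs1 : s1 = 1 ∨ s1 = -1) (hs2 : s2 = 1 ∨ s2 = -1)
    (h1 : Win l1 s1) (h2 : Win l2 s2) : Mont := by
  obtain ⟨C1, c1, a1, hC1, hc1, ha1, h1⟩ := h1
  obtain ⟨C2, c2, a2, hC2, hc2, ha2, h2⟩ := h2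
  have hneg : ∀ s : ℝ, (s = 1 ∨ s = -1) → (-s = 1 ∨ -s = -1) := by
    rintro s (rfl | rfl)
    · right; rfl
    · left; norm_num
  have conv : ∀ (ℓ s C c a0 : ℝ), 0 < ℓ → 0 < C → 0 < a0 → min c1 c2 ≤ c → C ≤ max C1 C2 →
      a0 ≤ max a1 a2 →
      (∀ a : ℝ, a0 ≤ a → ∀ ε : ℝ, 0 < ε → ∀ᶠ T : ℝ in atTop,
        s * ((N T a (a + ℓ) : ℝ) / X T - ∫ u in a..(a + ℓ), F u) ≤
          C * Real.exp (-(c * a)) + ε) →
      ∀ a, max a1 a2 ≤ a → ∀ ε, 0 < ε → ∀ᶠ T in atTop,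
        -(2 * max C1 C2 * Real.exp (-(min c1 c2 * a))) - ε ≤
          -s * (Ww T a ℓ - 2 * (gp (a + ℓ) - gp a)) := by
    intro ℓ s C c a0 hℓ hC ha0 hcc hCC haa h a ha ε hε
    have hapos : 0 < a := by
      have h0 : (0 : ℝ) < max a1 a2 := lt_max_of_lt_left ha1
      linarith
    filter_upwards [h a (haa.trans ha) (ε / 2) (by positivity), Nr_eq hapos (a + ℓ)]
      with T hT e1
    rw [e1, intF] at hT
    have h3 : C * Real.exp (-(c * a)) ≤ max C1 C2 * Real.exp (-(min c1 c2 * a)) := by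
      refine mul_le_mul hCC (Real.exp_le_exp.2 ?_) (Real.exp_pos _).le (by linarith)
      nlinarith
    rw [Ww_eq hapos]
    linarith
  exact Mont_of (rigidW hl (W := Ww) (fun T hT a ℓ ha hℓ => Ww_lower (by linarith))
    (fun T hT a ℓ η ha hℓ hη => Ww_upper (by linarith) hη hℓ) hl1 hl2 hirr (hneg s1 hs1)
    (hneg s2 hs2)
    (C := 2 * max C1 C2) (c := min c1 c2) (a0 := max a1 a2) (by positivity)
    (lt_min hc1 hc2) (lt_max_of_lt_left ha1)
    (conv l1 s1 C1 c1 a1 hl1 hC1 ha1 (min_le_left _ _) (le_max_left _ _) (le_max_left _ _) h1)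
    (conv l2 s2 C2 c2 a2 hl2 hC2 ha2 (min_le_right _ _) (le_max_right _ _) (le_max_right _ _) h2))

/-- the lower half of the conjecture for windows whose right end is large, up to `η` -/
def LowLarge (η : ℝ) : Prop := ∀ ε : ℝ, 0 < ε → ∃ A : ℝ, ∀ β : ℝ, A ≤ β → ∃ α : ℝ, 0 < α ∧
  Low α β ((∫ u in (0 : ℝ)..β, F u) - (η + ε))

/-- the hypothesis of `diag_bound` -/
lemma hyp_conv {η : ℝ} (h : LowLarge η) :
    ∀ ε : ℝ, 0 < ε → ∃ a0 : ℝ, ∀ y, a0 ≤ y → ∀ᶠ T in atTop, 2 * gp y - 2 * η - ε ≤ Dn T y := by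
  intro ε hε
  obtain ⟨A, hA⟩ := h (ε / 4) (by positivity)
  refine ⟨max A 0, fun y hy => ?_⟩
  obtain ⟨α, hα, h1⟩ := hA y ((le_max_left _ _).trans hy)
  filter_upwards [Low_Nr hα h1 (ε / 4) (by positivity), eventually_gt_atTop (1 : ℝ)] with T hT hT1
  have h2 := Dn_ge hT1 hα ((le_max_right A 0).trans hy)
  rw [intF, gp_zero] at hT
  linarith

lemma diag_one (h : LowLarge 0) : ∀ ε : ℝ, 0 < ε → ∀ᶠ T in atTop, Aa T 0 ≤ 1 + ε := by
  intro ε hε
  filter_upwards [diag_bound (η := 0) le_rfl (hyp_conv h) ε hε] with T hT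
  linarith

lemma low_of {α β c : ℝ} (hα : 0 < α) (hαβ : α < β) (hc : c ≤ ∫ u in α..β, F u)
    (h : As α β) : Low α β c := by
  intro ε hε
  have h1 := (As_iff hα hαβ).1 h
  rw [intF] at hc
  filter_upwards [(tendsto_order.1 h1).1 (gp β - gp α - ε) (by linarith), Nr_eq hα β,
    eventually_gt_atTop (1 : ℝ)] with T h2 h3 hT
  have hX : 0 < X T := Xf_pos hT
  rw [← h3, lt_div_iff₀ hX] at h2
  exact (mul_le_mul_of_nonneg_right (by linarith) hX.le).trans h2.le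

lemma lowLarge_of {κ A : ℝ} (hκ : 0 < κ)
    (h : ∀ α β : ℝ, 0 < α → α < κ → α < β → A ≤ β → As α β) : LowLarge 0 := by
  intro ε hε
  refine ⟨max A 1, fun β hβ => ?_⟩
  have hβ1 : 1 ≤ β := (le_max_right _ _).trans hβ
  set α : ℝ := min (κ / 2) (min (ε / 2) (1 / 2)) with hα
  have hα0 : 0 < α := by positivity
  have hακ : α < κ := (min_le_left _ _).trans_lt (by linarith)
  have hαε : α ≤ ε := ((min_le_right _ _).trans (min_le_left _ _)).trans (by linarith)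
  have hα1 : α ≤ 1 / 2 := (min_le_right _ _).trans (min_le_right _ _)
  refine ⟨α, hα0, low_of hα0 (by linarith) ?_ (h α β hα0 hακ (by linarith)
    ((le_max_left _ _).trans hβ))⟩
  rw [intF, intF, gp_zero]
  have := gp_le hα0.le
  linarith

/-- **main theorem** -/
theorem main :
    (∀ η : ℝ, 0 ≤ η → LowLarge η → ∀ ε : ℝ, 0 < ε → ∀ᶠ T : ℝ in atTop,
      (Num (fun s => s.re ≠ 1 / 2 ∨ deriv riemannZeta s = 0) T : ℝ) ≤
        (2 * η + ε) * Num (fun _ => True) T) ∧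
    ((∀ α β : ℝ, 0 < α → α < β → Low α β (∫ u in α..β, F u)) → Mont ∧ Good) ∧
    (Tendsto (fun T => (Num (fun s => s.re ≠ 1 / 2) T : ℝ) / Num (fun _ => True) T) atTop (𝓝 0) →
      ∀ ℓ₁ ℓ₂ s₁ s₂ : ℝ, 0 < ℓ₁ → 0 < ℓ₂ → Irrational (ℓ₁ / ℓ₂) → (s₁ = 1 ∨ s₁ = -1) →
        (s₂ = 1 ∨ s₂ = -1) → (Mont ↔ Win ℓ₁ s₁ ∧ Win ℓ₂ s₂)) ∧
    (∀ ℓ₁ ℓ₂ s₁ s₂ : ℝ, 0 < ℓ₁ → 0 < ℓ₂ → Irrational (ℓ₁ / ℓ₂) → (s₁ = 1 ∨ s₁ = -1) →
      (s₂ = 1 ∨ s₂ = -1) → (Mont ↔ LowLarge 0 ∧ Win ℓ₁ s₁ ∧ Win ℓ₂ s₂)) ∧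
    (∀ κ A : ℝ, 0 < κ → (∀ α β : ℝ, 0 < α → α < κ → α < β → A ≤ β → As α β) → Mont ∧ Good) := by
  have h4 : ∀ l1 l2 s1 s2 : ℝ, 0 < l1 → 0 < l2 → Irrational (l1 / l2) → (s1 = 1 ∨ s1 = -1) →
      (s2 = 1 ∨ s2 = -1) → (Mont ↔ LowLarge 0 ∧ Win l1 s1 ∧ Win l2 s2) := by
    intro l1 l2 s1 s2 hl1 hl2 hirr hs1 hs2
    constructor
    · intro h
      exact ⟨lowLarge_of (κ := 1) (A := 1) one_pos fun α β hα _ hαβ _ => h α β hα hαβ,
        Win_of hl1 hs1 (A := 1) fun a _ ha => h a _ ha (by linarith),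
        Win_of hl2 hs2 (A := 1) fun a _ ha => h a _ ha (by linarith)⟩
    · rintro ⟨h1, h2, h3⟩
      exact rigid_N (onl_of_diag (diag_one h1)) hl1 hl2 hirr hs1 hs2 h2 h3
  refine ⟨fun η hη h => bad_lim hη (diag_bound hη (hyp_conv h)), fun h => ?_,
    fun h l1 l2 s1 s2 hl1 hl2 hirr hs1 hs2 => ?_, h4, fun κ A hκ h => ?_⟩
  · -- the lower half
    have hD : ∀ y, 0 < y → ∀ ε : ℝ, 0 < ε → ∀ᶠ T in atTop, 2 * gp y - ε ≤ Dn T y := by
      intro y hy ε hε
      set α : ℝ := min (ε / 4) (y / 2) with hα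
      have hα0 : 0 < α := by positivity
      have hαε : α ≤ ε / 4 := min_le_left _ _
      have hαy : α < y := (min_le_right _ _).trans_lt (by linarith)
      filter_upwards [Low_Nr hα0 (h α y hα0 hαy) (ε / 4) (by positivity),
        eventually_gt_atTop (1 : ℝ)] with T h1 hT
      have h2 := Dn_ge hT hα0 hy.le
      have h3 := gp_le hα0.le
      rw [intF] at h1
      linarith
    have hone : ∀ ε : ℝ, 0 < ε → ∀ᶠ T in atTop, Aa T 0 ≤ 1 + ε := by
      intro ε hε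
      have h1 := diag_bound (η := 0) le_rfl (fun ε hε => ⟨1, fun y hy => by
        filter_upwards [hD y (by linarith) ε hε] with T hT
        linarith⟩) ε hε
      filter_upwards [h1] with T hT
      linarith
    refine ⟨Mont_of fun x => ?_, good_of hone⟩
    rcases lt_trichotomy x 0 with hx | rfl | hx
    · have e : AG x = 0 := by unfold AG; rw [if_pos hx]
      rw [e]
      refine tendsto_const_nhds.congr fun T => (Aa_neg T x hx).symm
    · have e : AG 0 = 1 := by unfold AG; rw [if_neg (lt_irrefl _), gp_zero]; ring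
      rw [e]
      exact diag_lim hone
    · have h1 := (closure hD x hx).add (diag_lim hone)
      have e : AG x = 2 * gp x + 1 := by unfold AG; rw [if_neg (by linarith)]; ring
      rw [e]
      refine h1.congr fun T => ?_
      unfold Dn
      ring
  · constructor
    · intro hM
      exact ⟨Win_of hl1 hs1 (A := 1) fun a _ ha => hM a _ ha (by linarith),
        Win_of hl2 hs2 (A := 1) fun a _ ha => hM a _ ha (by linarith)⟩
    · rintro ⟨h1, h2⟩
      exact rigid_N (onl_of_num h) hl1 hl2 hirr hs1 hs2 h1 h2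
  · have hone := diag_one (lowLarge_of hκ h)
    refine ⟨?_, good_of hone⟩
    have hsq : Irrational (Real.sqrt 2 / 1) := by
      rw [div_one]
      exact irrational_sqrt_two
    have key : ∀ ℓ : ℝ, 0 < ℓ → ∀ a, max A κ ≤ a → ∀ ε, 0 < ε → ∀ᶠ T in atTop,
        -(1 * Real.exp (-(1 * a))) - ε ≤
          1 * (Aa T (a + ℓ) - Aa T a - 2 * (gp (a + ℓ) - gp a)) := by
      intro ℓ hℓ a ha ε hε
      have haA : A ≤ a := (le_max_left _ _).trans ha
      have haκ : κ ≤ a := (le_max_right _ _).trans ha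
      set α : ℝ := κ / 2 with hα
      have hα0 : 0 < α := by positivity
      have hακ : α < κ := by linarith
      have h1 := (As_iff hα0 (by linarith)).1 (h α (a + ℓ) hα0 hακ (by linarith) (by linarith))
      have h2 := (As_iff hα0 (by linarith)).1 (h α a hα0 hακ (by linarith) haA)
      have h3 := (h1.sub h2).const_mul 2
      have e : 2 * (gp (a + ℓ) - gp α - (gp a - gp α)) = 2 * (gp (a + ℓ) - gp a) := by ring
      rw [e] at h3
      filter_upwards [(tendsto_order.1 h3).1 (2 * (gp (a + ℓ) - gp a) - ε) (by linarith)]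
        with T hT
      have e2 : 2 * (Nr T α (a + ℓ) - Nr T α a) = Aa T (a + ℓ) - Aa T a := by
        have e3 : Aa T (a + ℓ) - Aa T a = Dn T (a + ℓ) - Dn T a := by
          unfold Dn
          ring
        have e4 : PC T (Icc α (a + ℓ)) = PC T (Icc α a) + PC T (Ioc a (a + ℓ)) := by
          rw [← PC_union T, Icc_union_Ioc_eq_Icc (by linarith) (by linarith)]
          rw [Set.disjoint_left]
          rintro x h5 h6
          linarith [h5.2, h6.1]
        have e5 : PC T (Ioc 0 (a + ℓ)) = PC T (Ioc 0 a) + PC T (Ioc a (a + ℓ)) := by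
          rw [← PC_union T, Ioc_union_Ioc_eq_Ioc (by linarith) (by linarith)]
          rw [Set.disjoint_left]
          rintro x h5 h6
          linarith [h5.2, h6.1]
        rw [e3, Dn_eq (by linarith), Dn_eq (by linarith)]
        unfold Nr
        rw [e4, e5]
        ring
      rw [e2] at hT
      have h7 := Real.exp_pos (-(1 * a))
      linarith
    exact Mont_of (rigidU (onl_of_diag hone) (l1 := Real.sqrt 2) (l2 := 1) (s1 := 1) (s2 := 1)
      (C := 1) (c := 1) (a0 := max A κ) (by positivity) one_pos hsq (Or.inl rfl) (Or.inl rfl)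
      zero_le_one one_pos (lt_max_of_lt_right hκ) (key _ (by positivity)) (key 1 one_pos))

end Q241.OP.G
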