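import Pool.Agent.Y749.Rig.Tst2

/-! # A decreasing kernel which is an average of Fejer kernels -/

set_option autoImplicit false

open MeasureTheory Filter Topology Set

namespace Q241.OP

open Pool.Agent.Y749.Rig (tr tr_even tr_nonneg tr_lip tr_supp tr_int tr_cont fl fl_tr)

/-- squared sinc -/
noncomputable def S (v : ℝ) : ℝ := Real.sinc (Real.pi * v) ^ 2

lemma S_cont : Continuous S := by
  unfold S
  exact (Real.continuous_sinc.comp (by fun_prop)).pow 2

lemma S_nonneg (v : ℝ) : 0 ≤ S v := sq_nonneg _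

lemma S_le_one (v : ℝ) : S v ≤ 1 := (sq_le_one_iff_abs_le_one _).2 (Real.abs_sinc_le_one _)

lemma S_neg (v : ℝ) : S (-v) = S v := by
  unfold S
  rw [mul_neg, Real.sinc_neg]

lemma S_zero : S 0 = 1 := by
  unfold S
  rw [mul_zero, Real.sinc_zero, one_pow]

lemma S_mul_sq (v : ℝ) : S v * (Real.pi * v) ^ 2 = Real.sin (Real.pi * v) ^ 2 := by
  rcases eq_or_ne v 0 with rfl | hv
  · simp
  · unfold S
    have hpi := Real.pi_pos
    rw [Real.sinc_of_ne_zero (by positivity), div_pow]
    field_simp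

lemma S_dec (v : ℝ) : S v ≤ 2 / (1 + v ^ 2) := by
  rw [le_div_iff₀ (by positivity)]
  have h1 := S_mul_sq v
  have h2 := S_le_one v
  have h0 := S_nonneg v
  have h3 : Real.sin (Real.pi * v) ^ 2 ≤ 1 := Real.sin_sq_le_one _
  have hpi : 1 ≤ Real.pi ^ 2 := one_le_pow₀ (by linarith [Real.pi_gt_three])
  have h4 : S v * v ^ 2 ≤ S v * (Real.pi * v) ^ 2 := by
    refine mul_le_mul_of_nonneg_left ?_ h0
    rw [mul_pow]
    nlinarith [sq_nonneg v]
  linarith

lemma S_two (v : ℝ) : S v - S (2 * v) = S v * Real.sin (Real.pi * v) ^ 2 := by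
  rcases eq_or_ne v 0 with rfl | hv
  · simp
  · have hpi := Real.pi_pos
    have e : Real.sinc (Real.pi * (2 * v)) = Real.sinc (Real.pi * v) * Real.cos (Real.pi * v) := by
      rw [Real.sinc_of_ne_zero (by positivity), Real.sinc_of_ne_zero (by positivity),
        show Real.pi * (2 * v) = 2 * (Real.pi * v) by ring, Real.sin_two_mul]
      field_simp
    unfold S
    rw [e, mul_pow, Real.sin_sq]
    ring

/-- minus the derivative of the kernel -/
noncomputable def g (δ x : ℝ) : ℝ := (S (δ * x) - S (2 * (δ * x))) / x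

lemma g_nonneg {δ x : ℝ} (hx : 0 ≤ x) : 0 ≤ g δ x := by
  unfold g
  rw [S_two]
  exact div_nonneg (mul_nonneg (S_nonneg _) (sq_nonneg _)) hx

lemma mul_g {δ x : ℝ} (hx : 0 < x) : x * g δ x = S (δ * x) * Real.sin (Real.pi * (δ * x)) ^ 2 := by
  unfold g
  rw [← S_two]
  field_simp

lemma mul_g_le {δ x : ℝ} (hx : 0 < x) : x * g δ x ≤ S (δ * x) := by
  rw [mul_g hx]
  exact mul_le_of_le_one_right (S_nonneg _) (Real.sin_sq_le_one _)

lemma mul_g_le' {δ x : ℝ} (hx : 0 < x) : x * g δ x ≤ (Real.pi * (δ * x)) ^ 2 := by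
  rw [mul_g hx]
  refine (mul_le_of_le_one_left (sq_nonneg _) (S_le_one _)).trans ?_
  exact sq_le_sq.2 Real.abs_sin_le_abs

/-- the kernel -/
noncomputable def kk (δ x : ℝ) : ℝ := ∫ R in (1 : ℝ)..2, S (δ * R * x) / R

/-- its transform -/
noncomputable def psi (δ α : ℝ) : ℝ := ∫ R in (1 : ℝ)..2, tr (δ * R) α / R


lemma kk_zero (δ : ℝ) : kk δ 0 = Real.log 2 := by
  unfold kk
  simp only [mul_zero, S_zero]
  rw [integral_one_div (by
    rw [uIcc_of_le (by norm_num)]
    rintro ⟨h, -⟩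
    norm_num at h)]
  norm_num

lemma kk_int {δ x a b : ℝ} (ha : 0 < a) (hab : a ≤ b) :
    IntervalIntegrable (fun R => S (δ * R * x) / R) volume a b := by
  refine ContinuousOn.intervalIntegrable ?_
  rw [uIcc_of_le hab]
  refine ContinuousOn.div ?_ continuousOn_id fun R hR => (ha.trans_le hR.1).ne'
  exact (S_cont.comp (by fun_prop)).continuousOn

lemma kk_neg (δ x : ℝ) : kk δ (-x) = kk δ x := by
  unfold kk
  refine intervalIntegral.integral_congr fun R _ => ?_
  show S (δ * R * -x) / R = S (δ * R * x) / R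
  rw [mul_neg, S_neg]

lemma kk_nonneg (δ x : ℝ) : 0 ≤ kk δ x := by
  unfold kk
  refine intervalIntegral.integral_nonneg (by norm_num) fun R hR => ?_
  exact div_nonneg (S_nonneg _) (by linarith [hR.1])

lemma S_dec' {δ x u : ℝ} (hδ : 0 < δ) (hδ1 : δ ≤ 1) (hu : 1 ≤ u) :
    S (δ * u * x) ≤ 2 / δ ^ 2 / (1 + x ^ 2) := by
  refine (S_dec _).trans ?_
  rw [div_div]
  refine div_le_div_of_nonneg_left (by norm_num) (by positivity) ?_
  have h1 : δ ^ 2 ≤ 1 := pow_le_one₀ hδ.le hδ1
  have h2 : 1 ≤ u ^ 2 := one_le_pow₀ hu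
  have h3 : δ ^ 2 * x ^ 2 ≤ (δ * u * x) ^ 2 := by
    rw [mul_pow, mul_pow]
    have : 0 ≤ δ ^ 2 * x ^ 2 := by positivity
    nlinarith
  nlinarith

lemma kk_dec {δ : ℝ} (hδ : 0 < δ) (hδ1 : δ ≤ 1) (x : ℝ) : kk δ x ≤ 2 / δ ^ 2 / (1 + x ^ 2) := by
  unfold kk
  have h := intervalIntegral.integral_mono_on (a := 1) (b := 2) (by norm_num)
    (kk_int (δ := δ) (x := x) one_pos one_le_two)
    (intervalIntegrable_const (c := 2 / δ ^ 2 / (1 + x ^ 2))) fun R hR => by
      have h1 := S_dec' (x := x) hδ hδ1 hR.1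
      exact (div_le_self (S_nonneg _) hR.1).trans h1
  refine h.trans (le_of_eq ?_)
  rw [intervalIntegral.integral_const]
  norm_num

/-- change of variable -/
lemma kk_sub (δ x : ℝ) {s : ℝ} (hs : 0 < s) :
    kk δ (s * x) = ∫ u in s..(2 * s), S (δ * u * x) / u := by
  have h := intervalIntegral.integral_comp_mul_left (a := 1) (b := 2)
    (fun u => S (δ * u * x) / u) hs.ne'
  rw [mul_one, smul_eq_mul] at h
  rw [mul_comm 2 s]
  have e : ∫ u in s..(s * 2), S (δ * u * x) / u =
      s * ∫ R in (1 : ℝ)..2, S (δ * (s * R) * x) / (s * R) := by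
    rw [h, ← mul_assoc, mul_inv_cancel₀ hs.ne', one_mul]
  rw [e, ← intervalIntegral.integral_const_mul]
  unfold kk
  refine intervalIntegral.integral_congr fun R _ => ?_
  show S (δ * R * (s * x)) / R = s * (S (δ * (s * R) * x) / (s * R))
  rw [show δ * R * (s * x) = δ * (s * R) * x by ring]
  field_simp

lemma int_small {δ : ℝ} (hδ : 0 < δ) (hδ1 : δ ≤ 1) (x : ℝ) {a b : ℝ} (ha : 1 ≤ a) (hab : a ≤ b) :
    0 ≤ ∫ u in a..b, S (δ * u * x) / u ∧
      ∫ u in a..b, S (δ * u * x) / u ≤ (b - a) / a * (2 / δ ^ 2 / (1 + x ^ 2)) := by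
  constructor
  · refine intervalIntegral.integral_nonneg hab fun R hR => ?_
    exact div_nonneg (S_nonneg _) (by linarith [hR.1])
  · have h := intervalIntegral.integral_mono_on (a := a) (b := b) hab
      (kk_int (δ := δ) (x := x) (by linarith) hab)
      (intervalIntegrable_const (c := 2 / δ ^ 2 / (1 + x ^ 2) / a)) fun R hR => by
        have h1 := S_dec' (x := x) hδ hδ1 (ha.trans hR.1)
        exact div_le_div₀ (by positivity) h1 (by linarith) hR.1
    refine h.trans (le_of_eq ?_)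
    rw [intervalIntegral.integral_const, smul_eq_mul]
    ring

lemma kk_scale {δ : ℝ} (hδ : 0 < δ) (hδ1 : δ ≤ 1) (x s : ℝ) (hs : 1 ≤ s) :
    |kk δ (s * x) - kk δ x| ≤ 2 / δ ^ 2 * (s - 1) / (1 + x ^ 2) := by
  have e1 := kk_sub δ x (s := s) (by linarith)
  have e2 := kk_sub δ x (s := 1) one_pos
  rw [one_mul] at e2
  have i1 : ∀ a b : ℝ, 0 < a → 0 < b →
      IntervalIntegrable (fun u => S (δ * u * x) / u) volume a b := by
    intro a b ha hb
    rcases le_total a b with h | h
    · exact kk_int ha h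
    · exact (kk_int hb h).symm
  have e3 : ∫ u in (1 : ℝ)..(2 * 1), S (δ * u * x) / u =
      (∫ u in (1 : ℝ)..s, S (δ * u * x) / u) + ∫ u in s..(2 * 1), S (δ * u * x) / u :=
    (intervalIntegral.integral_add_adjacent_intervals (i1 _ _ one_pos (by linarith))
      (i1 _ _ (by linarith) (by norm_num))).symm
  have e4 : ∫ u in s..(2 * s), S (δ * u * x) / u =
      (∫ u in s..(2 * 1), S (δ * u * x) / u) + ∫ u in (2 * 1)..(2 * s), S (δ * u * x) / u :=
    (intervalIntegral.integral_add_adjacent_intervals (i1 _ _ (by linarith) (by norm_num))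
      (i1 _ _ (by norm_num) (by linarith))).symm
  obtain ⟨a1, a2⟩ := int_small hδ hδ1 x le_rfl hs
  obtain ⟨b1, b2⟩ := int_small hδ hδ1 x (a := 2 * 1) (b := 2 * s) (by norm_num) (by linarith)
  have e5 : (2 * s - 2 * 1) / (2 * 1) = s - 1 := by ring
  rw [e5] at b2
  rw [div_one] at a2
  rw [e1, e2, e3, e4]
  have e6 : 2 / δ ^ 2 * (s - 1) / (1 + x ^ 2) = (s - 1) * (2 / δ ^ 2 / (1 + x ^ 2)) := by ring
  rw [e6, abs_le]
  constructor <;> linarith

lemma kk_deriv {δ x : ℝ} (hx : 0 < x) : HasDerivAt (kk δ) (-g δ x) x := by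
  set F : ℝ → ℝ := fun u => S (δ * u) / u with hF
  have hFc : ∀ u : ℝ, 0 < u → ContinuousAt F u := by
    intro u hu
    exact ((S_cont.comp (by fun_prop)).continuousAt).div continuousAt_id hu.ne'
  have hFm : Measurable F := (S_cont.measurable.comp (by fun_prop)).div measurable_id
  have hi : ∀ a b : ℝ, 0 < a → 0 < b → IntervalIntegrable F volume a b := by
    intro a b ha hb
    refine ContinuousOn.intervalIntegrable fun u hu => (hFc u ?_).continuousWithinAt
    rcases le_total a b with h | h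
    · rw [uIcc_of_le h] at hu
      exact ha.trans_le hu.1
    · rw [uIcc_of_ge h] at hu
      exact hb.trans_le hu.1
  have hG : ∀ y : ℝ, 0 < y → HasDerivAt (fun y => ∫ u in (1 : ℝ)..y, F u) (F y) y := fun y hy =>
    intervalIntegral.integral_hasDerivAt_right (hi 1 y one_pos hy)
      hFm.stronglyMeasurable.stronglyMeasurableAtFilter (hFc y hy)
  have h1 : HasDerivAt (fun y => ∫ u in (1 : ℝ)..(2 * y), F u) (F (2 * x) * 2) x := by
    have h2 : HasDerivAt (fun y : ℝ => 2 * y) 2 x := by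
      simpa using (hasDerivAt_id x).const_mul 2
    exact (hG (2 * x) (by linarith)).comp x h2
  have h2 := h1.sub (hG x hx)
  have e : F (2 * x) * 2 - F x = -g δ x := by
    rw [hF]
    unfold g
    simp only
    rw [show δ * (2 * x) = 2 * (δ * x) by ring]
    field_simp
    ring
  rw [e] at h2
  refine h2.congr_of_eventuallyEq ?_
  filter_upwards [eventually_gt_nhds hx] with y hy
  have h3 := kk_sub δ 1 hy
  rw [mul_one] at h3
  rw [h3]
  have h4 := intervalIntegral.integral_interval_sub_left (hi 1 (2 * y) one_pos (by linarith))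
    (hi 1 y one_pos hy)
  show _ = (∫ u in (1 : ℝ)..(2 * y), F u) - ∫ u in (1 : ℝ)..y, F u
  rw [h4]
  refine intervalIntegral.integral_congr fun u _ => ?_
  show S (δ * u * 1) / u = S (δ * u) / u
  rw [mul_one]

lemma kk_cont (δ : ℝ) : Continuous (kk δ) := by
  have h : Continuous fun x => ∫ R in (1 : ℝ)..2, S (δ * R * x) / max R 1 := by
    refine intervalIntegral.continuous_parametric_intervalIntegral_of_continuous' ?_ 1 2
    refine Continuous.div (S_cont.comp (by fun_prop)) (by fun_prop) fun p => ?_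
    have : (1 : ℝ) ≤ max p.2 1 := le_max_right _ _
    exact (by linarith : (0 : ℝ) < max p.2 1).ne'
  have e : kk δ = fun x => ∫ R in (1 : ℝ)..2, S (δ * R * x) / max R 1 := by
    funext x
    unfold kk
    refine intervalIntegral.integral_congr fun R hR => ?_
    rw [uIcc_of_le (by norm_num)] at hR
    show _ / R = _ / max R 1
    rw [max_eq_left hR.1]
  rw [e]
  exact h

lemma kk_lim {δ : ℝ} (hδ : 0 < δ) (hδ1 : δ ≤ 1) : Tendsto (kk δ) atTop (𝓝 0) := by
  have h1 : Tendsto (fun x : ℝ => 2 / δ ^ 2 / (1 + x ^ 2)) atTop (𝓝 0) := by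
    refine Tendsto.div_atTop tendsto_const_nhds ?_
    exact tendsto_atTop_add_const_left _ _ (tendsto_pow_atTop (by norm_num))
  exact squeeze_zero (kk_nonneg δ) (kk_dec hδ hδ1) h1

lemma g_int {δ : ℝ} (hδ : 0 < δ) (hδ1 : δ ≤ 1) {a : ℝ} (ha : 0 ≤ a) :
    IntegrableOn (g δ) (Ioi a) := by
  have h := integrableOn_Ioi_deriv_of_nonpos (a := a) (g := kk δ) (g' := fun x => -g δ x)
    (kk_cont δ).continuousWithinAt (fun x hx => kk_deriv (ha.trans_lt hx))
    (fun x hx => neg_nonpos.2 (g_nonneg (ha.trans_lt hx).le)) (kk_lim hδ hδ1)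
  have h2 := h.neg
  simpa using h2

lemma kk_eq {δ : ℝ} (hδ : 0 < δ) (hδ1 : δ ≤ 1) {a : ℝ} (ha : 0 ≤ a) :
    ∫ x in Ioi a, g δ x = kk δ a := by
  have h := integral_Ioi_of_hasDerivAt_of_nonpos (a := a) (g := kk δ) (g' := fun x => -g δ x)
    (kk_cont δ).continuousWithinAt (fun x hx => kk_deriv (ha.trans_lt hx))
    (fun x hx => neg_nonpos.2 (g_nonneg (ha.trans_lt hx).le)) (kk_lim hδ hδ1)
  rw [integral_neg, zero_sub, neg_inj] at h
  exact h

lemma g_meas (δ : ℝ) : Measurable (g δ) := by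
  unfold g
  have := S_cont.measurable
  fun_prop

/-- a function dominated by `x` is integrable against `g` -/
lemma mul_g_int {δ : ℝ} (hδ : 0 < δ) (hδ1 : δ ≤ 1) {f : ℝ → ℝ} (hf : Measurable f) {C : ℝ}
    (hC : ∀ x, 0 < x → |f x| ≤ C * x) : IntegrableOn (fun x => f x * g δ x) (Ioi 0) := by
  have hD : IntegrableOn (fun x : ℝ => |C| * (2 / δ ^ 2) * (1 + x ^ 2)⁻¹) (Ioi 0) :=
    (integrable_inv_one_add_sq.const_mul _).integrableOn
  refine hD.mono' (hf.mul (g_meas δ)).aestronglyMeasurable ?_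
  filter_upwards [self_mem_ae_restrict measurableSet_Ioi] with x hx
  have hx0 : (0 : ℝ) < x := hx
  rw [Real.norm_eq_abs, abs_mul, abs_of_nonneg (g_nonneg hx0.le)]
  have h1 : |f x| ≤ |C| * x :=
    (hC x hx0).trans (mul_le_mul_of_nonneg_right (le_abs_self C) hx0.le)
  have h2 : |f x| * g δ x ≤ |C| * x * g δ x := mul_le_mul_of_nonneg_right h1 (g_nonneg hx0.le)
  have h3 := mul_g_le (δ := δ) hx0
  have h4 := S_dec' (x := x) hδ hδ1 (u := 1) le_rfl
  rw [mul_one] at h4
  have h5 : |C| * (x * g δ x) ≤ |C| * (2 / δ ^ 2 / (1 + x ^ 2)) :=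
    mul_le_mul_of_nonneg_left (h3.trans h4) (abs_nonneg _)
  calc |f x| * g δ x ≤ |C| * (x * g δ x) := by linarith
    _ ≤ |C| * (2 / δ ^ 2 / (1 + x ^ 2)) := h5
    _ = _ := by rw [← div_eq_mul_inv]; ring

/-! ### the transform -/

lemma tr_le {h : ℝ} (hh : 0 < h) (α : ℝ) : tr h α ≤ 1 / h := by
  unfold tr
  refine div_le_div_of_nonneg_right ?_ hh.le
  refine max_le zero_le_one ?_
  have : 0 ≤ |α| / h := by positivity
  linarith

lemma psi_int {δ : ℝ} (hδ : 0 < δ) (α : ℝ) :
    IntervalIntegrable (fun R => tr (δ * R) α / R) volume 1 2 := by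
  refine ContinuousOn.intervalIntegrable ?_
  rw [uIcc_of_le one_le_two]
  unfold tr
  have h0 : ∀ R ∈ Icc (1 : ℝ) 2, δ * R ≠ 0 := fun R hR =>
    (mul_pos hδ (by linarith [hR.1])).ne'
  have h1 : ∀ R ∈ Icc (1 : ℝ) 2, R ≠ 0 := fun R hR => (by linarith [hR.1] : (0 : ℝ) < R).ne'
  refine ContinuousOn.div (ContinuousOn.div ?_ (by fun_prop) h0) continuousOn_id h1
  refine (by fun_prop : Continuous fun t : ℝ => max 0 t).comp_continuousOn
    (continuousOn_const.sub ?_)
  exact ContinuousOn.div continuousOn_const (by fun_prop) h0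

lemma psi_lip {δ : ℝ} (hδ : 0 < δ) (x y : ℝ) : |psi δ x - psi δ y| ≤ 1 / δ ^ 2 * |x - y| := by
  unfold psi
  rw [← intervalIntegral.integral_sub (psi_int hδ x) (psi_int hδ y)]
  have h := intervalIntegral.norm_integral_le_of_norm_le_const (a := (1 : ℝ)) (b := 2)
    (f := fun R => tr (δ * R) x / R - tr (δ * R) y / R) (C := 1 / δ ^ 2 * |x - y|) (by
      intro R hR
      rw [uIoc_of_le one_le_two] at hR
      have hR1 : (1 : ℝ) ≤ R := hR.1.le
      rw [Real.norm_eq_abs, ← sub_div, abs_div, abs_of_pos (by linarith : (0 : ℝ) < R)]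
      refine (div_le_self (abs_nonneg _) hR1).trans ?_
      refine (tr_lip (mul_pos hδ (by linarith)) x y).trans ?_
      refine mul_le_mul_of_nonneg_right ?_ (abs_nonneg _)
      refine one_div_le_one_div_of_le (by positivity) ?_
      rw [mul_pow]
      have : 1 ≤ R ^ 2 := one_le_pow₀ hR1
      have : 0 < δ ^ 2 := by positivity
      nlinarith)
  rw [Real.norm_eq_abs] at h
  refine h.trans (le_of_eq ?_)
  norm_num

lemma psi_supp {δ : ℝ} (hδ : 0 < δ) (α : ℝ) (h : 2 * δ < |α|) : psi δ α = 0 := by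
  unfold psi
  rw [intervalIntegral.integral_congr (g := fun _ => (0 : ℝ)), intervalIntegral.integral_zero]
  intro R hR
  rw [uIcc_of_le one_le_two] at hR
  show tr (δ * R) α / R = 0
  rw [tr_supp (mul_pos hδ (by linarith [hR.1])) α (by nlinarith [hR.2]), zero_div]

lemma psi_bd {δ : ℝ} (hδ : 0 < δ) (α : ℝ) : |psi δ α| ≤ 1 / δ := by
  unfold psi
  have h := intervalIntegral.norm_integral_le_of_norm_le_const (a := (1 : ℝ)) (b := 2)
    (f := fun R => tr (δ * R) α / R) (C := 1 / δ) (by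
      intro R hR
      rw [uIoc_of_le one_le_two] at hR
      have hR1 : (1 : ℝ) ≤ R := hR.1.le
      have h0 : 0 < δ * R := mul_pos hδ (by linarith)
      rw [Real.norm_eq_abs, abs_of_nonneg (div_nonneg (tr_nonneg h0 α) (by linarith))]
      refine (div_le_self (tr_nonneg h0 α) hR1).trans ((tr_le h0 α).trans ?_)
      refine one_div_le_one_div_of_le hδ ?_
      nlinarith)
  rw [Real.norm_eq_abs] at h
  refine h.trans (le_of_eq ?_)
  norm_num

lemma int_tr {h : ℝ} (hh : 0 < h) : ∫ α, tr h α = 1 := by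
  have h1 : ∫ α, tr h α = ∫ α in (-h)..h, tr h α := by
    rw [intervalIntegral.integral_of_le (by linarith)]
    symm
    refine setIntegral_eq_integral_of_forall_compl_eq_zero fun α hα => ?_
    refine tr_supp hh α ?_
    by_contra hc
    push Not at hc
    exact hα ⟨(abs_lt.1 hc).1, (abs_lt.1 hc).2.le⟩
  have hc := tr_cont h
  have h2 : ∫ α in (-h)..0, tr h α = ∫ α in (0 : ℝ)..h, tr h α := by
    have := intervalIntegral.integral_comp_neg (a := 0) (b := h) (tr h)
    rw [neg_zero] at this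
    rw [← this]
    refine intervalIntegral.integral_congr fun α _ => ?_
    exact tr_even h α
  have h3 : ∫ α in (0 : ℝ)..h, tr h α = ∫ α in (0 : ℝ)..h, (1 - α / h) / h := by
    refine intervalIntegral.integral_congr fun α hα => ?_
    rw [uIcc_of_le hh.le] at hα
    exact Pool.Agent.Y749.Rig.tr_eq hh hα.1 hα.2
  have h4 : ∫ α in (0 : ℝ)..h, (1 - α / h) / h = 1 / 2 := by
    rw [intervalIntegral.integral_div, intervalIntegral.integral_sub (by simp) (by
      apply Continuous.intervalIntegrable; fun_prop), intervalIntegral.integral_const,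
      intervalIntegral.integral_div, integral_id]
    simp only [sub_zero, smul_eq_mul]
    field_simp
    ring
  rw [h1, ← intervalIntegral.integral_add_adjacent_intervals (b := 0)
    (hc.intervalIntegrable _ _) (hc.intervalIntegrable _ _), h2, h3, h4]
  norm_num

lemma fl_tr' {h : ℝ} (hh : 0 < h) (x : ℝ) : fl (tr h) x = S (h * x) := by
  rcases eq_or_ne x 0 with rfl | hx
  · rw [mul_zero, S_zero, ← int_tr hh]
    unfold fl
    simp
  · rw [fl_tr hh hx]
    unfold S
    have hpi := Real.pi_pos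
    rw [Real.sinc_of_ne_zero (by positivity), mul_assoc]

lemma fl_psi {δ : ℝ} (hδ : 0 < δ) (x : ℝ) : fl (psi δ) x = kk δ x := by
  have hint : Integrable (Function.uncurry fun α R : ℝ =>
      tr (δ * R) α / R * Real.cos (2 * Real.pi * α * x))
      (volume.prod (volume.restrict (Ioc (1 : ℝ) 2))) := by
    have h1 : Integrable (fun α : ℝ => (Icc (-(2 * δ)) (2 * δ)).indicator (fun _ => 1 / δ) α) := by
      rw [integrable_indicator_iff measurableSet_Icc]
      exact integrableOn_const (by simp) (by simp)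
    have h2 : Integrable (fun _ : ℝ => (1 : ℝ)) (volume.restrict (Ioc (1 : ℝ) 2)) :=
      integrable_const _
    refine (h1.mul_prod h2).mono' ?_ ?_
    · apply Measurable.aestronglyMeasurable
      unfold Function.uncurry tr
      fun_prop
    · have h3 : ∀ᵐ z ∂(volume.prod (volume.restrict (Ioc (1 : ℝ) 2)) : Measure (ℝ × ℝ)),
          z.2 ∈ Ioc (1 : ℝ) 2 := by
        have h4 : ∀ᵐ R ∂(volume.restrict (Ioc (1 : ℝ) 2)), R ∈ Ioc (1 : ℝ) 2 :=
          self_mem_ae_restrict measurableSet_Ioc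
        exact Measure.quasiMeasurePreserving_snd.ae h4
      filter_upwards [h3] with z hz
      obtain ⟨α, R⟩ := z
      have hR : R ∈ Ioc (1 : ℝ) 2 := hz
      have hR1 : (1 : ℝ) ≤ R := hR.1.le
      have h0 : 0 < δ * R := mul_pos hδ (by linarith)
      show ‖tr (δ * R) α / R * Real.cos (2 * Real.pi * α * x)‖ ≤
        (Icc (-(2 * δ)) (2 * δ)).indicator (fun _ => 1 / δ) α * 1
      rw [mul_one, norm_mul, Real.norm_eq_abs, Real.norm_eq_abs]
      refine (mul_le_of_le_one_right (abs_nonneg _) (Real.abs_cos_le_one _)).trans ?_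
      rw [abs_of_nonneg (div_nonneg (tr_nonneg h0 α) (by linarith))]
      by_cases hα : α ∈ Icc (-(2 * δ)) (2 * δ)
      · rw [indicator_of_mem hα]
        refine (div_le_self (tr_nonneg h0 α) hR1).trans ((tr_le h0 α).trans ?_)
        refine one_div_le_one_div_of_le hδ ?_
        nlinarith
      · rw [indicator_of_notMem hα, tr_supp h0 α, zero_div]
        by_contra hc
        push Not at hc
        have h5 : |α| ≤ 2 * δ := by nlinarith [hR.2]
        exact hα (abs_le.1 h5)
  have h1 : fl (psi δ) x = ∫ α : ℝ, ∫ R in Ioc (1 : ℝ) 2,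
      tr (δ * R) α / R * Real.cos (2 * Real.pi * α * x) := by
    unfold fl psi
    refine integral_congr_ae (ae_of_all _ fun α => ?_)
    show (∫ R in (1 : ℝ)..2, tr (δ * R) α / R) * Real.cos (2 * Real.pi * α * x) = _
    rw [intervalIntegral.integral_of_le one_le_two, ← integral_mul_const]
  rw [h1, integral_integral_swap hint]
  unfold kk
  rw [intervalIntegral.integral_of_le one_le_two]
  refine setIntegral_congr_fun measurableSet_Ioc fun R hR => ?_
  have h0 : 0 < δ * R := mul_pos hδ (by linarith [hR.1])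
  show ∫ α : ℝ, tr (δ * R) α / R * Real.cos (2 * Real.pi * α * x) = S (δ * R * x) / R
  rw [← fl_tr' h0]
  unfold fl
  rw [← integral_div]
  refine integral_congr_ae (ae_of_all _ fun α => ?_)
  show tr (δ * R) α / R * Real.cos (2 * Real.pi * α * x) =
    tr (δ * R) α * Real.cos (2 * Real.pi * α * x) / R
  ring

end Q241.OP
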