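import Pool.Agent.Q241.OP.Asm
import Pool.Agent.Q241.OP.Kern1
import Pool.Agent.Y744.PCR.Fin

/-! # The kernel as a test function -/

set_option autoImplicit false

open MeasureTheory Filter Topology Set

namespace Q241.OP

open H370 TH803TW Pool.Agent.Y744
open Pool.Agent.Y750.OM (bl NO)

lemma bl_psi {δ : ℝ} (hδ : 0 < δ) : bl (psi δ) = kk δ := funext fun x => fl_psi hδ x

lemma OT_psi {δ : ℝ} (hδ : 0 < δ) (hδ1 : δ ≤ 1) : OT (psi δ) (2 * δ) where
  lip := ⟨1 / δ ^ 2, psi_lip hδ⟩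
  supp := psi_supp hδ
  decay := ⟨2 / δ ^ 2, by positivity, fun y => by
    rw [bl_psi hδ, abs_of_nonneg (kk_nonneg δ y)]
    exact kk_dec hδ hδ1 y⟩
  scale := ⟨2 / δ ^ 2, by positivity, fun y s hs => by
    rw [bl_psi hδ]
    exact kk_scale hδ hδ1 y s hs⟩

/-- the prediction in terms of the density -/
lemma mo_eq {r : ℝ → ℝ} {δ : ℝ} (h : OT r δ) (hδ : δ < 1) :
    mo r = bl r 0 + ∫ u : ℝ, bl r u * gd u := by
  obtain ⟨K, hK⟩ := h.lip
  obtain ⟨A, hA0, hA⟩ := h.decay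
  have h1 := Pool.Agent.Y750.OM.main_eq (r := r) (Pool.Agent.Y750.OM.lip_cont hK) (A := A)
    (fun u => by
      have := hA u
      rwa [le_div_iff₀ (by positivity)] at this)
    (fun x hx => h.supp x (by linarith))
  unfold mo
  rw [← h1]
  rfl

lemma gp_tend {δ : ℝ} (hδ : 0 < δ) (hδ1 : δ ≤ 1) : Tendsto (kk δ * gp) atTop (𝓝 0) := by
  have h1 : Tendsto (fun x : ℝ => 2 / δ ^ 2 * x⁻¹) atTop (𝓝 (2 / δ ^ 2 * 0)) :=
    tendsto_inv_atTop_zero.const_mul _
  rw [mul_zero] at h1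
  refine squeeze_zero' ?_ ?_ h1
  · filter_upwards [eventually_ge_atTop (0 : ℝ)] with x hx
    exact mul_nonneg (kk_nonneg δ x) (gp_nonneg hx)
  · filter_upwards [eventually_gt_atTop (0 : ℝ)] with x hx
    have h2 := kk_dec hδ hδ1 x
    have h3 := gp_le hx.le
    have h4 := gp_nonneg hx.le
    show kk δ x * gp x ≤ _
    have h5 : 2 / δ ^ 2 / (1 + x ^ 2) * x ≤ 2 / δ ^ 2 * x⁻¹ := by
      rw [div_mul_eq_mul_div, div_le_iff₀ (by positivity)]
      have h6 : 0 < 2 / δ ^ 2 := by positivity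
      have h7 : 2 / δ ^ 2 * x⁻¹ * (1 + x ^ 2) = 2 / δ ^ 2 * (x⁻¹ + x) := by
        field_simp
      rw [h7]
      refine mul_le_mul_of_nonneg_left ?_ h6.le
      have : 0 < x⁻¹ := inv_pos.2 hx
      linarith
    exact (mul_le_mul h2 h3 h4 (by positivity)).trans h5

lemma gp_g_int {δ : ℝ} (hδ : 0 < δ) (hδ1 : δ ≤ 1) :
    IntegrableOn (fun x => gp x * g δ x) (Ioi 0) :=
  mul_g_int hδ hδ1 gp_cont.measurable (C := 1) fun x hx => by
    rw [abs_of_nonneg (gp_nonneg hx.le), one_mul]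
    exact gp_le hx.le

lemma kk_integrable {δ : ℝ} (hδ : 0 < δ) (hδ1 : δ ≤ 1) : Integrable (kk δ) := by
  refine (integrable_inv_one_add_sq.const_mul (2 / δ ^ 2)).mono'
    (kk_cont δ).aestronglyMeasurable (ae_of_all _ fun x => ?_)
  rw [Real.norm_eq_abs, abs_of_nonneg (kk_nonneg δ x), ← div_eq_mul_inv]
  exact kk_dec hδ hδ1 x

lemma kk_gd {δ : ℝ} (hδ : 0 < δ) (hδ1 : δ ≤ 1) :
    ∫ u in Ioi (0 : ℝ), kk δ u * gd u = ∫ u in Ioi (0 : ℝ), gp u * g δ u := by
  have i1 : IntegrableOn (kk δ * gd) (Ioi 0) := by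
    refine Integrable.integrableOn ?_
    refine (kk_integrable hδ hδ1).mono' ((kk_cont δ).mul gd_cont).aestronglyMeasurable
      (ae_of_all _ fun x => ?_)
    show ‖kk δ x * gd x‖ ≤ kk δ x
    rw [Real.norm_eq_abs, abs_of_nonneg (mul_nonneg (kk_nonneg _ _) (gd_nonneg _))]
    exact mul_le_of_le_one_right (kk_nonneg _ _) (gd_le _)
  have i2 : IntegrableOn ((fun x => -g δ x) * gp) (Ioi 0) := by
    have := (gp_g_int hδ hδ1).neg
    refine this.congr (ae_of_all _ fun x => ?_)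
    show -(gp x * g δ x) = -g δ x * gp x
    ring
  have h := integral_Ioi_mul_deriv_eq_deriv_mul (a := (0 : ℝ)) (u := kk δ) (v := gp)
    (u' := fun x => -g δ x) (v' := gd) (a' := 0) (b' := 0) (fun x hx => kk_deriv hx)
    (fun x _ => gp_deriv x) i1 i2 (by
      have hc : ContinuousAt (kk δ * gp) 0 := ((kk_cont δ).mul gp_cont).continuousAt
      have h0 : (kk δ * gp) 0 = 0 := by
        show kk δ 0 * gp 0 = 0
        rw [gp_zero, mul_zero]
      have h1 := hc.tendsto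
      rw [h0] at h1
      exact h1.mono_left nhdsWithin_le_nhds) (gp_tend hδ hδ1)
  rw [h, sub_zero, zero_sub, ← integral_neg]
  refine integral_congr_ae (ae_of_all _ fun x => ?_)
  show -(-g δ x * gp x) = gp x * g δ x
  ring

/-- the prediction, again -/
lemma AG_g {δ : ℝ} (hδ : 0 < δ) (hδ1 : δ ≤ 1 / 4) :
    ∫ y in Ioi (0 : ℝ), AG y * g δ y = mo (psi δ) ∧
      mo (psi δ) = Real.log 2 + ∫ y in Ioi (0 : ℝ), 2 * gp y * g δ y := by
  have hδ2 : δ ≤ 1 := by linarith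
  have e0 : ∫ y in Ioi (0 : ℝ), 2 * gp y * g δ y = 2 * ∫ y in Ioi (0 : ℝ), gp y * g δ y := by
    rw [← integral_const_mul]
    refine integral_congr_ae (ae_of_all _ fun x => ?_)
    show 2 * gp x * g δ x = 2 * (gp x * g δ x)
    ring
  have e1 : mo (psi δ) = Real.log 2 + ∫ y in Ioi (0 : ℝ), 2 * gp y * g δ y := by
    rw [mo_eq (OT_psi hδ hδ2) (by linarith), bl_psi hδ, kk_zero, e0, ← kk_gd hδ hδ2]
    congr 1
    rw [← integral_comp_abs (f := fun u => kk δ u * gd u)]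
    refine integral_congr_ae (ae_of_all _ fun x => ?_)
    show kk δ x * gd x = kk δ |x| * gd |x|
    have hgd : gd (-x) = gd x := by
      unfold gd
      rw [mul_neg, Real.sinc_neg]
    rcases abs_choice x with h | h
    · rw [h]
    · rw [h, kk_neg, hgd]
  refine ⟨?_, e1⟩
  rw [e1, ← kk_zero δ, ← kk_eq hδ hδ2 le_rfl, ← integral_add (g_int hδ hδ2 le_rfl) ?_]
  · refine setIntegral_congr_fun measurableSet_Ioi fun x hx => ?_
    have hx0 : (0 : ℝ) < x := hx
    show AG x * g δ x = g δ x + 2 * gp x * g δ x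
    unfold AG
    rw [if_neg (not_lt.2 hx0.le)]
    ring
  · have := (gp_g_int hδ hδ2).const_mul 2
    refine this.congr (ae_of_all _ fun x => ?_)
    show 2 * (gp x * g δ x) = 2 * gp x * g δ x
    ring

/-- the pair sum in terms of the counting function -/
lemma Aa_g {δ : ℝ} (hδ : 0 < δ) (hδ1 : δ ≤ 1) (T : ℝ) :
    ∫ y in Ioi (0 : ℝ), Aa T y * g δ y = Q2 (bl (psi δ)) T (Real.log T) / Xf T := by
  have e1 : ∀ y, Aa T y * g δ y =
      (Xf T)⁻¹ * ∑ s ∈ Zt T, ∑ s' ∈ Zt T, mz s * mz s' *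
        (Set.Ici |dd T s s'|).indicator (g δ) y := by
    intro y
    unfold Aa PC
    rw [mul_assoc, Finset.sum_mul]
    congr 1
    refine Finset.sum_congr rfl fun s _ => ?_
    rw [Finset.sum_mul]
    refine Finset.sum_congr rfl fun s' _ => ?_
    rw [mul_assoc]
    congr 1
    by_cases hx : |dd T s s'| ≤ y
    · rw [Set.indicator_of_mem (show dd T s s' ∈ {x | |x| ≤ y} from hx),
        Set.indicator_of_mem (show y ∈ Set.Ici |dd T s s'| from hx), one_mul]
    · rw [Set.indicator_of_notMem (show dd T s s' ∉ {x | |x| ≤ y} from hx),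
        Set.indicator_of_notMem (show y ∉ Set.Ici |dd T s s'| from hx), zero_mul]
  simp_rw [e1]
  have hi : ∀ t : ℝ, IntegrableOn ((Set.Ici t).indicator (g δ)) (Ioi 0) := fun t =>
    (g_int hδ hδ1 le_rfl).indicator measurableSet_Ici
  rw [integral_const_mul, integral_finsetSum _ fun s _ => integrable_finsetSum _ fun s' _ =>
    (hi _).const_mul _]
  rw [div_eq_inv_mul, bl_psi hδ]
  congr 1
  unfold Q2 QS
  refine Finset.sum_congr rfl fun s _ => ?_
  rw [integral_finsetSum _ fun s' _ => (hi _).const_mul _]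
  refine Finset.sum_congr rfl fun s' _ => ?_
  rw [integral_const_mul, setIntegral_indicator measurableSet_Ici]
  have e2 : kk δ ((s.im - s'.im) * Real.log T / (2 * Real.pi)) = kk δ |dd T s s'| := by
    show kk δ (dd T s s') = kk δ |dd T s s'|
    rcases abs_choice (dd T s s') with h | h
    · rw [h]
    · rw [h, kk_neg]
  have e3 : ∫ x in Ioi (0 : ℝ) ∩ Set.Ici |dd T s s'|, g δ x = kk δ |dd T s s'| := by
    rw [← kk_eq hδ hδ1 (abs_nonneg (dd T s s')), ← integral_Ici_eq_integral_Ioi]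
    rcases (abs_nonneg (dd T s s')).eq_or_lt with h | h
    · rw [← h, integral_Ici_eq_integral_Ioi]
      congr 2
      ext x
      simp only [Set.mem_inter_iff, Set.mem_Ioi, Set.mem_Ici]
      exact ⟨fun h => h.1, fun h => ⟨h, h.le⟩⟩
    · congr 2
      ext x
      simp only [Set.mem_inter_iff, Set.mem_Ioi, Set.mem_Ici]
      exact ⟨fun h => h.2, fun h2 => ⟨h.trans_le h2, h2⟩⟩
  rw [e2, e3]

/-- **the basic limit**, without hypothesis -/
theorem base : ∃ C : ℝ, 0 < C ∧ ∀ δ : ℝ, 0 < δ → δ ≤ 1 / 4 → ∀ ε : ℝ, 0 < ε → ∀ᶠ T : ℝ in atTop,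
    |(∫ y in Ioi (0 : ℝ), Aa T y * g δ y) - mo (psi δ)| ≤ C * δ ^ 2 + ε := by
  obtain ⟨C, θ, hC, hθ, h⟩ := blk
  refine ⟨8 * C, by positivity, fun δ hδ hδ1 ε hε => ?_⟩
  have hOT := OT_psi hδ (by linarith)
  have hE : BlkE (psi δ) (8 * C * δ ^ 2) := by
    intro ε hε
    filter_upwards [h (2 * δ) (by linarith) (by linarith) (psi δ) hOT (1 / δ) (psi_bd hδ) ε hε,
      eventually_ge_atTop (1 : ℝ)] with V h1 hV
    refine h1.trans ?_
    obtain ⟨h2, h3⟩ := ratio_le hV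
    have h4 := Real.rpow_le_one h3 h2 hθ.le
    have h5 : C * (1 / δ) * (2 * δ) ^ 3 = 8 * C * δ ^ 2 := by
      field_simp
      ring
    rw [h5]
    have h6 : 8 * C * δ ^ 2 * (NO V (2 * V) / (NN riemannZeta V (2 * V) : ℝ)) ^ θ ≤
        8 * C * δ ^ 2 * 1 := mul_le_mul_of_nonneg_left h4 (by positivity)
    linarith
  filter_upwards [pair_up hOT (by positivity) hE ε hε] with T hT
  rw [Aa_g hδ (by linarith)]
  exact hT

/-- almost all zeros are on the line, in dyadic blocks -/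
def Onl : Prop := Tendsto (fun V : ℝ => Pool.Agent.Y750.OM.NO V (2 * V) / Xf V) atTop (𝓝 0)

lemma BlkE_zero (hl : Onl) {r : ℝ → ℝ} {δ : ℝ} (hδ : 0 < δ) (hδ2 : δ ≤ 1 / 2) (hr : OT r δ) :
    BlkE r 0 := by
  obtain ⟨C, θ, hC, hθ, h⟩ := blk
  obtain ⟨K, hK⟩ := hr.lip
  have hcont := Pool.Agent.Y750.OM.lip_cont hK
  have hcs : HasCompactSupport r := by
    refine HasCompactSupport.intro (isCompact_Icc (a := -δ) (b := δ)) fun x hx => hr.supp x ?_
    by_contra hc
    exact hx (abs_le.1 (not_lt.1 hc))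
  obtain ⟨R, hR⟩ := hcs.exists_bound_of_continuous hcont
  have hR0 : 0 ≤ R := (norm_nonneg _).trans (hR 0)
  have h1 : Tendsto (fun V : ℝ => Pool.Agent.Y750.OM.NO V (2 * V) /
      (NN riemannZeta V (2 * V) : ℝ)) atTop (𝓝 0) := by
    have h2 := hl.div nn_lim one_ne_zero
    rw [zero_div] at h2
    refine h2.congr' ?_
    filter_upwards [eventually_gt_atTop (1 : ℝ)] with V hV
    have hX := Xf_pos hV
    show _ / Xf V / (_ / Xf V) = _
    field_simp
  have h2 : Tendsto (fun V : ℝ => C * R * δ ^ 3 * (Pool.Agent.Y750.OM.NO V (2 * V) /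
      (NN riemannZeta V (2 * V) : ℝ)) ^ θ) atTop (𝓝 0) := by
    have h3 := (h1.rpow_const (p := θ) (Or.inr hθ.le)).const_mul (C * R * δ ^ 3)
    rwa [Real.zero_rpow hθ.ne', mul_zero] at h3
  intro ε hε
  filter_upwards [h δ hδ hδ2 r hr R (fun α => hR α) (ε / 2) (by positivity),
    (tendsto_order.1 h2).2 (ε / 2) (by positivity)] with V a1 a2
  linarith

end Q241.OP
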